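import Mathlib

set_option autoImplicit false

/-!
# RLin/AStr: the structure of an `A`-group from a malnormal covering by copies of `A`

Let `Λ` be a set of homomorphisms `b : A → H` such that
* `mal`: if `g * b a * g⁻¹ = b' a'` with `a ≠ 0` then `b = b'` and `g = b x` for some `x`,
* `cover`: every `g ≠ 1` is conjugate to some `b a`.
Then `H` is an `A`-group with `(b x) ^ a = b (x * a)`.

Proof.  For `g ≠ 1` choose `h, b, x` with `h * g * h⁻¹ = b x` and put `g ^ a = h⁻¹ * b (x * a) * h`;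
`1 ^ a = 1`.
Key: if `h * g * h⁻¹ = b x`, `b ∈ Λ` for an arbitrary `g` then `g ^ a = h⁻¹ * b (x * a) * h`.  If
`g = 1` then `b x = 1`, `x = 0`, and `b 0 = 1`.  If `g ≠ 1` let `h₀, b₀, x₀` be the chosen data; then
`(h₀ * h⁻¹) * b x * (h₀ * h⁻¹)⁻¹ = b₀ x₀`, `x ≠ 0`, so `b₀ = b`, `h₀ * h⁻¹ = b z`.  The image of `b` is
commutative, so `b x₀ = b x`, `x₀ = x` and `h₀⁻¹ * b (x * a) * h₀ = h⁻¹ * b (x * a) * h`.
The axioms follow.  For `mul_pow`: let `g ≠ 1`, `g = h⁻¹ * b x * h`, `x ≠ 0`, and `g'` commute with `g`.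
Then `h * g' * h⁻¹` commutes with `b x`, so by `mal` it is `b x'`, and
`(g * g') ^ a = h⁻¹ * b ((x + x') * a) * h = g ^ a * g' ^ a`.
-/

universe u

namespace RLin

/-- An `A`-group: a group with exponents in the ring `A`. -/
structure AGroup (A : Type u) [Ring A] (G : Type u) [Group G] where
  /-- the power `g ^ a` -/
  pow : G → A → G
  pow_one : ∀ g, pow g 1 = g
  pow_zero : ∀ g, pow g 0 = 1
  one_pow : ∀ a, pow 1 a = 1
  pow_add : ∀ g a b, pow g (a + b) = pow g a * pow g b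
  pow_mul : ∀ g a b, pow g (a * b) = pow (pow g a) b
  conj_pow : ∀ g h a, pow (h⁻¹ * g * h) a = h⁻¹ * pow g a * h
  mul_pow : ∀ g h a, g * h = h * g → pow (g * h) a = pow g a * pow h a

theorem exists_agroup {A : Type u} [Ring A] {H : Type u} [Group H] (Λ : Set (A → H))
    (hadd : ∀ b ∈ Λ, ∀ x y, b (x + y) = b x * b y) (hinj : ∀ b ∈ Λ, ∀ x, b x = 1 → x = 0)
    (mal : ∀ b ∈ Λ, ∀ b' ∈ Λ, ∀ g a a', a ≠ 0 → g * b a * g⁻¹ = b' a' → b = b' ∧ ∃ x, g = b x)
    (cover : ∀ g, g ≠ 1 → ∃ h, ∃ b ∈ Λ, ∃ a, h * g * h⁻¹ = b a) :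
    ∃ Q : AGroup A H, ∀ b ∈ Λ, ∀ x a, Q.pow (b x) a = b (x * a) := by
  classical
  have h0 : ∀ b ∈ Λ, b 0 = 1 := by
    intro b hb
    have h1 := hadd b hb 0 0
    rw [add_zero] at h1
    calc b 0 = (b 0)⁻¹ * (b 0 * b 0) := by group
      _ = (b 0)⁻¹ * b 0 := by rw [← h1]
      _ = 1 := inv_mul_cancel _
  have hcomm : ∀ b ∈ Λ, ∀ x y, b x * b y = b y * b x := by
    intro b hb x y
    rw [← hadd b hb, ← hadd b hb, add_comm]
  have hinj' : ∀ b ∈ Λ, ∀ x y, b x = b y → x = y := by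
    intro b hb x y hxy
    have h1 := hadd b hb (x - y) y
    rw [sub_add_cancel, hxy] at h1
    have h2 : b (x - y) = 1 := by
      calc b (x - y) = b (x - y) * b y * (b y)⁻¹ := by group
        _ = b y * (b y)⁻¹ := by rw [← h1]
        _ = 1 := mul_inv_cancel _
    exact sub_eq_zero.1 (hinj b hb _ h2)
  choose hh bb hbb xx hxx using cover
  obtain ⟨pw, hpw⟩ : ∃ pw : H → A → H, ∀ g a, pw g a =
      if hg : g = 1 then 1 else (hh g hg)⁻¹ * bb g hg (xx g hg * a) * hh g hg :=
    ⟨_, fun _ _ => rfl⟩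
  have hone : ∀ a, pw 1 a = 1 := by
    intro a
    rw [hpw, dif_pos rfl]
  have key : ∀ g h b, b ∈ Λ → ∀ x, h * g * h⁻¹ = b x → ∀ a, pw g a = h⁻¹ * b (x * a) * h := by
    intro g h b hb x hx a
    by_cases hg : g = 1
    · subst hg
      have h1 : b x = 1 := by rw [← hx]; group
      have h2 := hinj b hb x h1
      rw [hone, h2, zero_mul, h0 b hb]
      group
    · rw [hpw, dif_neg hg]
      have hx0 : x ≠ 0 := by
        rintro rfl
        rw [h0 b hb] at hx
        apply hg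
        calc g = h⁻¹ * (h * g * h⁻¹) * h := by group
          _ = 1 := by rw [hx]; group
      have h1 : (hh g hg * h⁻¹) * b x * (hh g hg * h⁻¹)⁻¹ = bb g hg (xx g hg) := by
        rw [← hxx g hg, ← hx]
        group
      obtain ⟨h2, z, hz⟩ := mal b hb _ (hbb g hg) _ x _ hx0 h1
      rw [← h2] at h1 ⊢
      rw [hz, hcomm b hb z x, mul_inv_cancel_right] at h1
      have h3 := hinj' b hb _ _ h1
      rw [← h3]
      have h4 : hh g hg = b z * h := by rw [← hz]; group
      rw [h4]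
      calc (b z * h)⁻¹ * b (x * a) * (b z * h) =
          h⁻¹ * ((b z)⁻¹ * (b (x * a) * b z)) * h := by group
        _ = h⁻¹ * ((b z)⁻¹ * (b z * b (x * a))) * h := by rw [hcomm b hb (x * a) z]
        _ = h⁻¹ * b (x * a) * h := by group
  have rep : ∀ g, g ≠ 1 → ∃ h b, b ∈ Λ ∧ ∃ x, h * g * h⁻¹ = b x := fun g hg =>
    ⟨hh g hg, bb g hg, hbb g hg, xx g hg, hxx g hg⟩
  have hback : ∀ (g h : H) (b : A → H) (x : A), h * g * h⁻¹ = b x → h⁻¹ * b x * h = g := by
    intro g h b x hx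
    rw [← hx]
    group
  refine ⟨⟨pw, ?_, ?_, hone, ?_, ?_, ?_, ?_⟩, ?_⟩
  · intro g
    by_cases hg : g = 1
    · rw [hg, hone]
    · obtain ⟨h, b, hb, x, hx⟩ := rep g hg
      rw [key g h b hb x hx, mul_one]
      exact hback g h b x hx
  · intro g
    by_cases hg : g = 1
    · rw [hg, hone]
    · obtain ⟨h, b, hb, x, hx⟩ := rep g hg
      rw [key g h b hb x hx, mul_zero, h0 b hb]
      group
  · intro g a c
    by_cases hg : g = 1
    · rw [hg, hone, hone, hone, mul_one]
    · obtain ⟨h, b, hb, x, hx⟩ := rep g hg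
      rw [key g h b hb x hx, key g h b hb x hx, key g h b hb x hx, mul_add, hadd b hb]
      group
  · intro g a c
    by_cases hg : g = 1
    · rw [hg, hone, hone, hone]
    · obtain ⟨h, b, hb, x, hx⟩ := rep g hg
      have h1 : h * pw g a * h⁻¹ = b (x * a) := by
        rw [key g h b hb x hx]
        group
      rw [key g h b hb x hx, key (pw g a) h b hb (x * a) h1, mul_assoc x a c]
  · intro g k a
    by_cases hg : g = 1
    · rw [hg, hone]
      have h1 : k⁻¹ * 1 * k = 1 := by group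
      rw [h1, hone]
    · obtain ⟨h, b, hb, x, hx⟩ := rep g hg
      have h1 : (h * k) * (k⁻¹ * g * k) * (h * k)⁻¹ = b x := by
        rw [← hx]
        group
      rw [key g h b hb x hx, key _ (h * k) b hb x h1]
      group
  · intro g g' a hgg
    by_cases hg : g = 1
    · rw [hg, hone, one_mul, one_mul]
    · obtain ⟨h, b, hb, x, hx⟩ := rep g hg
      have hx0 : x ≠ 0 := by
        rintro rfl
        apply hg
        rw [← hback g h b 0 hx, h0 b hb]
        group
      have h1 : (h * g' * h⁻¹) * b x * (h * g' * h⁻¹)⁻¹ = b x := by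
        rw [← hx]
        calc (h * g' * h⁻¹) * (h * g * h⁻¹) * (h * g' * h⁻¹)⁻¹ =
            h * (g' * g) * g'⁻¹ * h⁻¹ := by group
          _ = h * (g * g') * g'⁻¹ * h⁻¹ := by rw [hgg]
          _ = h * g * h⁻¹ := by group
      obtain ⟨-, x', hx'⟩ := mal b hb b hb _ x x hx0 h1
      have h2 : h * (g * g') * h⁻¹ = b (x + x') := by
        rw [hadd b hb, ← hx, ← hx']
        group
      rw [key g h b hb x hx, key g' h b hb x' hx', key (g * g') h b hb (x + x') h2, add_mul,
        hadd b hb]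
      group
  · intro b hb x a
    have h1 := key (b x) 1 b hb x (by group) a
    have h2 : pw (b x) a = b (x * a) := by
      rw [h1]
      group
    exact h2

end RLin
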