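import Pool.Agent.RLin.Rules

set_option autoImplicit false

/-!
# RLin/Hyp: hyperbolic elements

Notation as in `RLin/Rules`.  `Hyp w` means `l w ≠ 0` and `D w ≠ D w⁻¹`.
-/

universe u

namespace RLin

open Matrix

variable {K L Γ : Type u} [Field K] [Field L] [LinearOrderedCommGroupWithZero Γ]
variable {ι : Type} [Fintype ι] [DecidableEq ι] {P : Place K L Γ}
variable {G : Type u} [Group G] {ρ : G →* Matrix ι ι L} {G₀ : Subgroup G} {X : Set G}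

theorem Geo.hyp_inv (h : Geo P ρ G₀ X) {w : G} (hw : P.Hyp ρ w) : P.Hyp ρ w⁻¹ := by
  refine ⟨?_, ?_⟩
  · rw [h.len_inv]
    exact hw.1
  · rw [inv_inv]
    exact hw.2.symm

/-- `kr (Om w) = D w⁻¹` and `dich_all` -/
theorem Geo.hyp_disj (h : Geo P ρ G₀ X) {w : G} (hw : P.Hyp ρ w) :
    Disjoint (rg (P.Om ρ w)) (kr (P.Om ρ w)) := by
  rw [h.ker_all w hw.1]
  rcases h.dich_all hw.1 (h.hyp_inv hw).1 with h1 | h1
  · exact absurd h1 hw.2
  · exact h1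

/-- induction on `n` with `far` applied to `w * w ^ (n+1)` (`D (w ^ (n+1)) = D w ≠ D w⁻¹`);
`Om (w ^ (n+1)) = Om w ^ (n+1)` by `mul_eq` -/
theorem Geo.hyp_pow (h : Geo P ρ G₀ X) {w : G} (hw : P.Hyp ρ w) (n : ℕ) :
    P.l ρ (w ^ (n + 1)) = (n + 1) * P.l ρ w ∧ P.D ρ (w ^ (n + 1)) = P.D ρ w ∧
      P.D ρ (w ^ (n + 1))⁻¹ = P.D ρ w⁻¹ ∧ P.Hyp ρ (w ^ (n + 1)) := by
  induction n with
  | zero =>
    rw [zero_add, pow_one]
    exact ⟨by omega, rfl, rfl, hw⟩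
  | succ n ih =>
    obtain ⟨h1, h2, h3, h4⟩ := ih
    have hd : P.D ρ (w ^ (n + 1)) ≠ P.D ρ w⁻¹ := by
      rw [h2]
      exact hw.2
    obtain ⟨h5, h6, h7⟩ := h.far hw.1 h4.1 hd
    rw [pow_succ' w (n + 1)]
    refine ⟨?_, h6, ?_, ?_, ?_⟩
    · rw [h5, h1]
      ring
    · rw [h7, h3]
    · rw [h5]
      have := hw.1
      omega
    · rw [h6, h7, h3]
      exact hw.2

/-- `w ^ n = g⁻¹ * (g * w ^ n * g⁻¹) * g` and `mul_le`, `len_inv`, `hyp_pow` -/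
theorem Geo.hyp_growth (h : Geo P ρ G₀ X) {w : G} (hw : P.Hyp ρ w) (g : G) (n : ℕ) :
    n * P.l ρ w ≤ P.l ρ (g * w ^ n * g⁻¹) + 2 * P.l ρ g := by
  rcases n with _ | n
  · omega
  · have h1 := (h.hyp_pow hw n).1
    have h2 : w ^ (n + 1) = g⁻¹ * (g * w ^ (n + 1) * g⁻¹) * g := by group
    have h3 := h.mul_le (g⁻¹ * (g * w ^ (n + 1) * g⁻¹)) g
    have h4 := h.mul_le g⁻¹ (g * w ^ (n + 1) * g⁻¹)
    have h5 := h.len_inv g
    rw [← h2, h1] at h3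
    omega

/-- Both `n * l w ≤ n * l w' + 2 * l g` and `n * l w' ≤ n * l w + 2 * l g` for all `n`
(`hyp_growth`, `hyp_pow`). -/
theorem Geo.hyp_conj_len (h : Geo P ρ G₀ X) {w g : G} (hw : P.Hyp ρ w)
    (hw' : P.Hyp ρ (g * w * g⁻¹)) : P.l ρ (g * w * g⁻¹) = P.l ρ w := by
  have key : ∀ (w g : G), P.Hyp ρ w → P.Hyp ρ (g * w * g⁻¹) →
      P.l ρ w ≤ P.l ρ (g * w * g⁻¹) := by
    intro w g hw hw'
    by_contra hlt
    push Not at hlt
    have h1 := h.hyp_growth hw g (2 * P.l ρ g + 1)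
    have h2 : g * w ^ (2 * P.l ρ g + 1) * g⁻¹ = (g * w * g⁻¹) ^ (2 * P.l ρ g + 1) := by
      rw [conj_pow]
    rw [h2, (h.hyp_pow hw' (2 * P.l ρ g)).1] at h1
    have h3 : (2 * P.l ρ g + 1) * (P.l ρ (g * w * g⁻¹) + 1) ≤ (2 * P.l ρ g + 1) * P.l ρ w :=
      Nat.mul_le_mul_left _ hlt
    have h4 : (2 * P.l ρ g + 1) * (P.l ρ (g * w * g⁻¹) + 1) =
        (2 * P.l ρ g + 1) * P.l ρ (g * w * g⁻¹) + (2 * P.l ρ g + 1) := by ring
    omega
  apply le_antisymm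
  · have h1 := key (g * w * g⁻¹) g⁻¹ hw'
    have h2 : g⁻¹ * (g * w * g⁻¹) * g⁻¹⁻¹ = w := by group
    rw [h2] at h1
    exact h1 hw
  · exact key w g hw hw'

/-- Rotation.  Take `w = x * z` from `dir`.
If `l z ≠ 0`: by `tail` `D z ≠ D x⁻¹` and `D w⁻¹ = D z⁻¹`; since `D x = D w ≠ D w⁻¹ = D z⁻¹`, `far`
applies to `z * x`: the length is `l w`, `D (z * x) = D z`, `D (z * x)⁻¹ = D x⁻¹`.
If `l z = 0`: `z * x ∈ X`, `D (z * x)⁻¹ = D (x⁻¹ * z⁻¹) = D x⁻¹` (`right`).  If `D (z * x)` were equal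
to `D x⁻¹` then by `left_iff` `D x = D (z⁻¹ * x⁻¹) = D w⁻¹`, a contradiction. -/
theorem Geo.rot (h : Geo P ρ G₀ X) {w : G} (hw : P.Hyp ρ w) :
    ∃ x ∈ X, ∃ z, w = x * z ∧ P.D ρ x = P.D ρ w ∧ P.Hyp ρ (z * x) ∧
      P.l ρ (z * x) = P.l ρ w ∧ P.D ρ (z * x) ≠ P.D ρ x⁻¹ := by
  obtain ⟨x, hx, z, hwxz, hl, hD⟩ := h.dir w hw.1
  have hx1 : P.l ρ x = 1 := h.X_len x hx
  refine ⟨x, hx, z, hwxz, hD.symm, ?_⟩
  by_cases hz : P.l ρ z = 0
  · have hzG : z ∈ G₀ := (h.len_zero z).1 hz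
    have hlen : P.l ρ (z * x) = P.l ρ w := by
      rw [(h.left hzG x).1, hx1, hl, hz]
    have hinv : P.D ρ (z * x)⁻¹ = P.D ρ x⁻¹ := by
      rw [_root_.mul_inv_rev]
      exact (h.right (G₀.inv_mem hzG) x⁻¹).2
    have hne : P.D ρ (z * x) ≠ P.D ρ x⁻¹ := by
      intro h1
      apply hw.2
      have h2 := (h.left_iff (G₀.inv_mem hzG) (z * x) x⁻¹).2 h1
      rw [inv_mul_cancel_left] at h2
      rw [hD, h2, ← _root_.mul_inv_rev, ← hwxz]
    refine ⟨⟨?_, ?_⟩, hlen, hne⟩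
    · rw [hlen]
      exact hw.1
    · rw [hinv]
      exact hne
  · have hlz : P.l ρ (x * z) = P.l ρ z + 1 := by rw [← hwxz]; exact hl
    obtain ⟨h1, h2, h3⟩ := h.tail hx hz hlz
    rw [← hwxz] at h3
    have h4 : P.D ρ x ≠ P.D ρ z⁻¹ := by
      rw [← hD, ← h3]
      exact hw.2
    obtain ⟨h5, h6, h7⟩ := h.far hz (by omega : P.l ρ x ≠ 0) h4
    have hlen : P.l ρ (z * x) = P.l ρ w := by
      rw [h5, hx1, hl]
    have hne : P.D ρ (z * x) ≠ P.D ρ x⁻¹ := by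
      rw [h6]
      exact h1
    refine ⟨⟨?_, ?_⟩, hlen, hne⟩
    · rw [hlen]
      exact hw.1
    · rw [h7]
      exact hne

/-- Strong induction on `l y`.  If `l y = 0` or `y` is hyperbolic take `g = 1`.  Otherwise `l y ≠ 0`
and `D y = D y⁻¹`; let `y = x * z` be given by `dir`.  If `l z = 0` then `l y = 1` and `y ∈ X`
(`l_eq_one`): second alternative with `g = 1`.  If `l z ≠ 0` then by `tail`
`D z⁻¹ = D y⁻¹ = D y = D x`, so by `near` `l (z * x) < l z + 1 = l y` and `z * x = x⁻¹ * y * x`. -/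
theorem Geo.classify (h : Geo P ρ G₀ X) (y : G) :
    ∃ g, g * y * g⁻¹ ∈ G₀ ∨
      (g * y * g⁻¹ ∈ X ∧ P.D ρ (g * y * g⁻¹) = P.D ρ (g * y * g⁻¹)⁻¹) ∨
      P.Hyp ρ (g * y * g⁻¹) := by
  induction hn : P.l ρ y using Nat.strong_induction_on generalizing y with
  | _ n ih =>
    by_cases h0 : P.l ρ y = 0
    · refine ⟨1, Or.inl ?_⟩
      have : (1 : G) * y * 1⁻¹ = y := by group
      rw [this]
      exact (h.len_zero y).1 h0
    by_cases hH : P.D ρ y = P.D ρ y⁻¹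
    · obtain ⟨x, hx, z, hyxz, hl, hD⟩ := h.dir y h0
      by_cases hz : P.l ρ z = 0
      · refine ⟨1, Or.inr (Or.inl ?_)⟩
        have h1 : (1 : G) * y * 1⁻¹ = y := by group
        rw [h1]
        refine ⟨(h.l_eq_one y).1 ?_, hH⟩
        omega
      · have hlz : P.l ρ (x * z) = P.l ρ z + 1 := by rw [← hyxz]; exact hl
        obtain ⟨-, -, h3⟩ := h.tail hx hz hlz
        rw [← hyxz] at h3
        have h4 : P.D ρ x = P.D ρ z⁻¹ := by
          rw [← hD, ← h3]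
          exact hH
        have h5 := h.near hz h4
        rw [h.X_len x hx] at h5
        obtain ⟨g, hg⟩ := ih (P.l ρ (z * x)) (by omega) (z * x) rfl
        refine ⟨g * x⁻¹, ?_⟩
        have h6 : g * x⁻¹ * y * (g * x⁻¹)⁻¹ = g * (z * x) * g⁻¹ := by
          rw [hyxz]
          group
        rw [h6]
        exact hg
    · refine ⟨1, Or.inr (Or.inr ?_)⟩
      have : (1 : G) * y * 1⁻¹ = y := by group
      rw [this]
      exact ⟨h0, hH⟩

/-- `classify` and the axioms `two`, `two'`; for a hyperbolic element `w` the length of `w ^ 2` is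
`2 * l w ≠ 0`. -/
theorem Geo.two_free (h : Geo P ρ G₀ X) {y : G} (hy : y * y = 1) : y = 1 := by
  obtain ⟨g, hg⟩ := h.classify y
  have h1 : (g * y * g⁻¹) * (g * y * g⁻¹) = 1 := by
    have : (g * y * g⁻¹) * (g * y * g⁻¹) = g * (y * y) * g⁻¹ := by group
    rw [this, hy]
    group
  rcases hg with h2 | ⟨h2, h3⟩ | h2
  · have h4 := h.two _ h2 h1
    exact conj_eq_one_iff.1 h4
  · exact absurd h1 (h.two' _ h2 h3)
  · exfalso
    have h3 := (h.hyp_pow h2 1).1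
    rw [show (1 + 1 : ℕ) = 2 from rfl, pow_two, h1, h.l_one] at h3
    have := h2.1
    omega

end RLin
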