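import Pool.Agent.RLin.EW

set_option autoImplicit false

/-!
# RLin/L3: translates of attracting subspaces are equal or disjoint

Let `w, w'` be hyperbolic, `g ∈ G`, `u ≠ 0` in `E w` with `ρ g u ∈ E w'`.  Then `ρ g (E w) = E w'`.

Proof.  Replacing `w` by `w ^ (l w')` and `w'` by `w' ^ (l w)` (same subspaces, `E_pow`, `hyp_pow`) we
may assume `l w = l w' = k ≥ 1`.  Let `t = v T`, `0 < t < 1`, and `y_n = (w' ^ n)⁻¹ * g * w ^ n`.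

(A) `l y_n ≤ l g + 2 k + (2 k - 1) n`.  Induction; `y_(n+1) = w'⁻¹ * y_n * w`.
If `l y_n ≤ l g` then `l y_(n+1) ≤ l g + 2 k`.
If `l y_n > l g`: let `u_n = ρ (w ^ n)⁻¹ u ∈ E w`, of norm `t ^ (n k) * N u` (`E_N_pow_inv`).  Then
`ρ y_n u_n = ρ (w' ^ n)⁻¹ (ρ g u)` has norm `t ^ (n k) * N (ρ g u)`.  If
`t ^ l y_n * N (ρ y_n u_n) = N u_n` then `N u = t ^ l y_n * N (ρ g u) < t ^ l g * N (ρ g u) ≤ N u`
(`N_rho_le`), a contradiction.  So by `E_apply'` `D y_n⁻¹ = D w`, and by `near`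
`l (y_n * w) ≤ l y_n + k - 1`, so `l y_(n+1) ≤ l y_n + 2 k - 1`.

(B) Let `u' ∈ E w`, `ρ g u' = v₁ + v₂` with `v₁ ∈ E w'`, `v₂ ∈ E w'⁻¹` (`E_sup`).  Then
`ρ (w' ^ n)⁻¹ v₁ ∈ E w'` and `ρ (w' ^ n)⁻¹ v₂ = ρ ((w'⁻¹) ^ n) v₂ ∈ E w'⁻¹` has norm
`t ^ (- n k) * N v₂` (`E_N_pow` for `w'⁻¹`).  By `E_orth`
`N v₂ = t ^ (n k) * N (ρ (w' ^ n)⁻¹ v₂) ≤ t ^ (n k) * N (ρ (w' ^ n)⁻¹ (ρ g u'))`.
Here `ρ (w' ^ n)⁻¹ (ρ g u') = ρ y_n (ρ (w ^ n)⁻¹ u')`, where `N (ρ (w ^ n)⁻¹ u') = t ^ (n k) * N u'`, so by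
`N_rho_le` `t ^ l y_n * N v₂ ≤ t ^ (2 n k) * N u'`.  With (A),
`t ^ (l g + 2 k) * N v₂ ≤ t ^ n * N u'` for all `n`.  If `v₂ ≠ 0` this contradicts `P.arch`
(write `N v₂ = v a`, `N u' = v b` with coordinates `a, b ≠ 0` and apply it to
`T ^ (l g + 2 k + 1) * a / b`).  So `v₂ = 0` and `ρ g u' ∈ E w'`.

So `im (ρ g) (E w) ≤ E w'` and both have the same dimension.
-/

universe u

namespace RLin

open Matrix

variable {K L Γ : Type u} [Field K] [Field L] [LinearOrderedCommGroupWithZero Γ]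
variable {ι : Type} [Fintype ι] [DecidableEq ι] {P : Place K L Γ}
variable {G : Type u} [Group G] {ρ : G →* Matrix ι ι L} {G₀ : Subgroup G} {X : Set G}

private theorem L3_t_pos (P : Place K L Γ) : 0 < P.v P.T :=
  zero_lt_iff.2 (fun h => P.T_ne ((Valuation.zero_iff P.v).1 h))

private theorem L3_y_succ (w w' g : G) (n : ℕ) :
    (w' ^ (n + 1))⁻¹ * g * w ^ (n + 1) = w'⁻¹ * (((w' ^ n)⁻¹ * g * w ^ n) * w) := by
  rw [pow_succ, pow_succ, _root_.mul_inv_rev]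
  simp only [mul_assoc]

private theorem L3_rho_y (ρ : G →* Matrix ι ι L) (w w' g : G) (n : ℕ) (u : ι → L) :
    ρ ((w' ^ n)⁻¹ * g * w ^ n) *ᵥ (ρ (w ^ n)⁻¹ *ᵥ u) = ρ (w' ^ n)⁻¹ *ᵥ (ρ g *ᵥ u) := by
  rw [Matrix.mulVec_mulVec, Matrix.mulVec_mulVec, ← map_mul, ← map_mul]
  congr 2
  rw [mul_assoc, mul_inv_cancel, mul_one]

private theorem L3_rho_ne (ρ : G →* Matrix ι ι L) (g : G) {u : ι → L} (hu : u ≠ 0) :
    ρ g *ᵥ u ≠ 0 := by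
  intro h0
  apply hu
  have h1 : ρ g⁻¹ * ρ g = 1 := by rw [← map_mul, inv_mul_cancel, map_one]
  have h2 : u = ρ g⁻¹ *ᵥ (ρ g *ᵥ u) := by rw [Matrix.mulVec_mulVec, h1, Matrix.one_mulVec]
  rw [h2, h0, Matrix.mulVec_zero]

private theorem L3_A [IsAlgClosed L] (h : Geo P ρ G₀ X) {w w' : G} (hw : P.Hyp ρ w)
    (hw' : P.Hyp ρ w') (hk : P.l ρ w' = P.l ρ w) (g : G)
    {u : ι → L} (hu0 : u ≠ 0) (hu : u ∈ P.E ρ w) (hgu : ρ g *ᵥ u ∈ P.E ρ w') (n : ℕ) :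
    P.l ρ ((w' ^ n)⁻¹ * g * w ^ n) ≤ P.l ρ g + 2 * P.l ρ w + (2 * P.l ρ w - 1) * n := by
  have ht := L3_t_pos P
  have ht1 := P.T_lt
  have hk0 : P.l ρ w ≠ 0 := hw.1
  induction n with
  | zero =>
    rw [pow_zero, pow_zero, inv_one, one_mul, mul_one]
    omega
  | succ n ih =>
    rw [L3_y_succ]
    set y := (w' ^ n)⁻¹ * g * w ^ n with hy
    have h1 : P.l ρ (w'⁻¹ * (y * w)) ≤ P.l ρ w + P.l ρ (y * w) := by
      have := h.mul_le w'⁻¹ (y * w)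
      rw [h.len_inv, hk] at this
      exact this
    rcases le_or_gt (P.l ρ y) (P.l ρ g) with h2 | h2
    · have h3 := h.mul_le y w
      have h4 : 0 ≤ (2 * P.l ρ w - 1) * (n + 1) := Nat.zero_le _
      omega
    · have hN : P.v P.T ^ P.l ρ y * P.N (ρ y *ᵥ (ρ (w ^ n)⁻¹ *ᵥ u)) ≠ P.N (ρ (w ^ n)⁻¹ *ᵥ u) := by
        rw [hy, L3_rho_y, (h.E_N_pow_inv hw n hu).2, (h.E_N_pow_inv hw' n hgu).2, hk, ← hy]
        intro h5
        have h6 : P.v P.T ^ (n * P.l ρ w) ≠ 0 := pow_ne_zero _ ht.ne'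
        have h7 : P.v P.T ^ P.l ρ y * P.N (ρ g *ᵥ u) = P.N u := by
          apply mul_left_cancel₀ h6
          rw [← h5, mul_left_comm]
        have h8 := N_rho_le P ρ g u
        have h9 : 0 < P.N (ρ g *ᵥ u) :=
          zero_lt_iff.2 (fun h0 => L3_rho_ne ρ g hu0 ((N_eq_zero P _).1 h0))
        have h10 : P.v P.T ^ P.l ρ y < P.v P.T ^ P.l ρ g :=
          pow_lt_pow_right_of_lt_one₀ ht ht1 h2
        have h11 : P.v P.T ^ P.l ρ y * P.N (ρ g *ᵥ u) < P.v P.T ^ P.l ρ g * P.N (ρ g *ᵥ u) :=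
          mul_lt_mul_of_pos_right h10 h9
        rw [h7] at h11
        exact absurd h11 (not_lt.2 h8)
      obtain ⟨h5, h6⟩ := h.E_apply' hw (h.E_N_pow_inv hw n hu).1 hN
      have h7 := h.near h5 h6.symm
      have h8 : (2 * P.l ρ w - 1) * (n + 1) = (2 * P.l ρ w - 1) * n + (2 * P.l ρ w - 1) := by ring
      omega

private theorem L3_B [IsAlgClosed L] (h : Geo P ρ G₀ X) {w w' : G} (hw : P.Hyp ρ w)
    (hw' : P.Hyp ρ w') (hk : P.l ρ w' = P.l ρ w) (g : G)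
    {u : ι → L} (hu0 : u ≠ 0) (hu : u ∈ P.E ρ w) (hgu : ρ g *ᵥ u ∈ P.E ρ w')
    {u' : ι → L} (hu' : u' ∈ P.E ρ w) : ρ g *ᵥ u' ∈ P.E ρ w' := by
  have ht := L3_t_pos P
  have ht1 := P.T_lt
  have hk0 : P.l ρ w ≠ 0 := hw.1
  have htop : ρ g *ᵥ u' ∈ P.E ρ w' ⊔ P.E ρ w'⁻¹ := by
    rw [h.E_sup hw']
    exact Submodule.mem_top
  obtain ⟨v₁, hv₁, v₂, hv₂, hv⟩ := Submodule.mem_sup.1 htop
  have hwi := h.hyp_inv hw'
  have hli : P.l ρ w'⁻¹ = P.l ρ w := by rw [h.len_inv, hk]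
  -- the main inequality
  have key : ∀ n : ℕ, P.v P.T ^ (P.l ρ g + 2 * P.l ρ w) * P.N v₂ ≤ P.v P.T ^ n * P.N u' := by
    intro n
    set y := (w' ^ n)⁻¹ * g * w ^ n with hy
    have hA : P.l ρ y ≤ P.l ρ g + 2 * P.l ρ w + (2 * P.l ρ w - 1) * n :=
      L3_A h hw hw' hk g hu0 hu hgu n
    have h1 := h.E_N_pow hwi n hv₂
    rw [hli] at h1
    have h2 : ρ (w' ^ n)⁻¹ *ᵥ v₁ ∈ P.E ρ w' := (h.E_N_pow_inv hw' n hv₁).1
    have h3 : ρ (w'⁻¹ ^ n) *ᵥ v₂ ∈ P.E ρ w'⁻¹ := by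
      apply E_comm _ hv₂
      have : Commute (w'⁻¹ ^ n) w'⁻¹ := (Commute.refl w'⁻¹).pow_left n
      exact this
    have h4 := h.E_orth hw' h2 h3
    have h5 : P.N (ρ (w'⁻¹ ^ n) *ᵥ v₂) ≤ P.N (ρ (w' ^ n)⁻¹ *ᵥ (ρ g *ᵥ u')) := by
      have h6 : ρ (w' ^ n)⁻¹ *ᵥ (ρ g *ᵥ u') = ρ (w' ^ n)⁻¹ *ᵥ v₁ + ρ (w'⁻¹ ^ n) *ᵥ v₂ := by
        rw [← hv, Matrix.mulVec_add, inv_pow]
      rw [h6, h4]
      exact le_max_right _ _
    rw [← L3_rho_y ρ w w' g n u', ← hy] at h5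
    have h6 := N_rho_le P ρ y (ρ (w ^ n)⁻¹ *ᵥ u')
    rw [(h.E_N_pow_inv hw n hu').2] at h6
    have h7 : P.v P.T ^ P.l ρ y * P.N v₂ ≤
        P.v P.T ^ (n * P.l ρ w) * (P.v P.T ^ (n * P.l ρ w) * P.N u') := by
      calc P.v P.T ^ P.l ρ y * P.N v₂
          = P.v P.T ^ (n * P.l ρ w) * (P.v P.T ^ P.l ρ y * P.N (ρ (w'⁻¹ ^ n) *ᵥ v₂)) := by
            rw [← h1, mul_left_comm]
        _ ≤ P.v P.T ^ (n * P.l ρ w) *
            (P.v P.T ^ P.l ρ y * P.N (ρ y *ᵥ (ρ (w ^ n)⁻¹ *ᵥ u'))) := by gcongr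
        _ ≤ _ := by gcongr
    have h8 : P.v P.T ^ (P.l ρ g + 2 * P.l ρ w + (2 * P.l ρ w - 1) * n) * P.N v₂ ≤
        P.v P.T ^ (n * P.l ρ w) * (P.v P.T ^ (n * P.l ρ w) * P.N u') := by
      refine le_trans ?_ h7
      have h9 := pow_le_pow_of_le_one ht.le ht1.le hA
      gcongr
    have h9 : n * P.l ρ w + n * P.l ρ w = (2 * P.l ρ w - 1) * n + n := by
      obtain ⟨k, hk⟩ : ∃ k, P.l ρ w = k + 1 := ⟨P.l ρ w - 1, by omega⟩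
      rw [hk]
      have h10 : 2 * (k + 1) - 1 = 2 * k + 1 := by omega
      rw [h10]
      ring
    have h10 : P.v P.T ^ (P.l ρ g + 2 * P.l ρ w + (2 * P.l ρ w - 1) * n) * P.N v₂ =
        P.v P.T ^ ((2 * P.l ρ w - 1) * n) * (P.v P.T ^ (P.l ρ g + 2 * P.l ρ w) * P.N v₂) := by
      rw [pow_add _ (P.l ρ g + 2 * P.l ρ w), mul_assoc, mul_left_comm]
    have h11 : P.v P.T ^ (n * P.l ρ w) * (P.v P.T ^ (n * P.l ρ w) * P.N u') =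
        P.v P.T ^ ((2 * P.l ρ w - 1) * n) * (P.v P.T ^ n * P.N u') := by
      rw [← mul_assoc, ← pow_add, h9, pow_add, mul_assoc]
    rw [h10, h11] at h8
    exact le_of_mul_le_mul_left h8 (pow_pos ht _)
  -- so `v₂ = 0`
  have hv20 : v₂ = 0 := by
    by_contra hne
    have hN2 : 0 < P.N v₂ := zero_lt_iff.2 (fun h0 => hne ((N_eq_zero P _).1 h0))
    have hu'0 : u' ≠ 0 := by
      intro h0
      have h1 := key 0
      rw [h0, (N_eq_zero P (0 : ι → L)).2 rfl, mul_zero] at h1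
      have h2 : 0 < P.v P.T ^ (P.l ρ g + 2 * P.l ρ w) * P.N v₂ := mul_pos (pow_pos ht _) hN2
      exact absurd h2 (not_lt.2 h1)
    have hN' : 0 < P.N u' := zero_lt_iff.2 (fun h0 => hu'0 ((N_eq_zero P _).1 h0))
    obtain ⟨i, hi⟩ := exists_N P v₂ hne
    obtain ⟨j, hj⟩ := exists_N P u' hu'0
    have hi0 : v₂ i ≠ 0 := by
      intro h0
      rw [h0, map_zero] at hi
      exact hN2.ne' hi
    have hj0 : u' j ≠ 0 := by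
      intro h0
      rw [h0, map_zero] at hj
      exact hN'.ne' hj
    obtain ⟨M, hM⟩ := P.arch (P.T ^ (P.l ρ g + 2 * P.l ρ w + 1) * (v₂ i / u' j))
      (mul_ne_zero (pow_ne_zero _ P.T_ne) (div_ne_zero hi0 hj0))
    rw [map_mul, map_pow, map_div₀, ← hi, ← hj] at hM
    have h1 : P.v P.T ^ M * P.N u' ≤
        P.v P.T ^ (P.l ρ g + 2 * P.l ρ w + 1) * P.N v₂ := by
      calc P.v P.T ^ M * P.N u'
          ≤ (P.v P.T ^ (P.l ρ g + 2 * P.l ρ w + 1) * (P.N v₂ / P.N u')) * P.N u' := by gcongr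
        _ = P.v P.T ^ (P.l ρ g + 2 * P.l ρ w + 1) * P.N v₂ := by
            rw [mul_assoc, div_mul_cancel₀ _ hN'.ne']
    have h2 : P.v P.T ^ (P.l ρ g + 2 * P.l ρ w + 1) * P.N v₂ <
        P.v P.T ^ (P.l ρ g + 2 * P.l ρ w) * P.N v₂ :=
      mul_lt_mul_of_pos_right (pow_lt_pow_right_of_lt_one₀ ht ht1 (Nat.lt_succ_self _)) hN2
    exact absurd ((h1.trans_lt h2).trans_le (key M)) (lt_irrefl _)
  rw [← hv, hv20, add_zero]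
  exact hv₁

variable [IsAlgClosed L]

private theorem L3_eq (h : Geo P ρ G₀ X) {w w' : G} (hw : P.Hyp ρ w) (hw' : P.Hyp ρ w')
    (hk : P.l ρ w' = P.l ρ w) (g : G)
    {u : ι → L} (hu0 : u ≠ 0) (hu : u ∈ P.E ρ w) (hgu : ρ g *ᵥ u ∈ P.E ρ w') :
    im (ρ g) (P.E ρ w) = P.E ρ w' := by
  apply Submodule.eq_of_le_of_finrank_eq
  · intro x hx
    rw [mem_im] at hx
    obtain ⟨u', hu', rfl⟩ := hx
    exact L3_B h hw hw' hk g hu0 hu hgu hu'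
  · rw [im_rho_finrank]
    have h1 := h.E_rank hw
    have h2 := h.E_rank hw'
    omega

theorem Geo.L3 (h : Geo P ρ G₀ X) {w w' : G} (hw : P.Hyp ρ w) (hw' : P.Hyp ρ w') (g : G)
    {u : ι → L} (hu0 : u ≠ 0) (hu : u ∈ P.E ρ w) (hgu : ρ g *ᵥ u ∈ P.E ρ w') :
    im (ρ g) (P.E ρ w) = P.E ρ w' := by
  obtain ⟨m, hm⟩ : ∃ m, P.l ρ w = m + 1 := ⟨P.l ρ w - 1, by have := hw.1; omega⟩
  obtain ⟨m', hm'⟩ : ∃ m', P.l ρ w' = m' + 1 := ⟨P.l ρ w' - 1, by have := hw'.1; omega⟩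
  obtain ⟨h1, -, -, h2⟩ := h.hyp_pow hw m'
  obtain ⟨h3, -, -, h4⟩ := h.hyp_pow hw' m
  have h5 : P.l ρ (w' ^ (m + 1)) = P.l ρ (w ^ (m' + 1)) := by
    rw [h1, h3, hm, hm', mul_comm]
  rw [← h.E_pow hw m'] at hu ⊢
  rw [← h.E_pow hw' m] at hgu ⊢
  exact L3_eq h h2 h4 h5 g hu0 hu hgu

end RLin
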