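import Pool.Agent.RLin.Stab
import Pool.Agent.RLin.L3

set_option autoImplicit false

/-!
# RLin/SysEx: the system of maximal cyclic subgroups

`flip`.  Let `ρ g (E w) = E w'`.  Let `c` be the generator of the stabiliser of `E w'` (`stab`).
`w'` and `g * w * g⁻¹` stabilise `E w'`, so `w' = c ^ q`, `g * w * g⁻¹ = c ^ p` with `p, q ≠ 0`
(`w, w' ≠ 1` since their lengths are not zero).  Hence `g * w ^ q * g⁻¹ = w' ^ p`.
If `p, q` have the same sign then `g * (w⁻¹) ^ |q| * g⁻¹ = (w'⁻¹) ^ |p|` and `E_conj_pow` for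
`w⁻¹, w'⁻¹` gives the claim.  If they have different signs then
`g * w ^ |q| * g⁻¹ = (w'⁻¹) ^ |p|` and `E_conj_pow` gives `E w' = ρ g (E w) = E w'⁻¹`, which
contradicts `E_disj` and `E_ne_bot`.

`sys`.  On `{w // Hyp w}` let `w ~ w'` iff `∃ g, ρ g (E w) = E w' ∨ ρ g (E w) = E w'⁻¹`.  By `flip`
(and `w⁻¹⁻¹ = w`, `im_mul`) this is an equivalence relation.  `I` is the quotient, `w_i` a
representative of `i` (`Quotient.out`), `c i` the generator of the stabiliser of `E w_i` (`stab`),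
`W i true = E w_i`, `W i false = E w_i⁻¹`.  By `flip` `c i` stabilises both, and an element which
stabilises `E w_i⁻¹` stabilises `E w_i`.

* `sep`: by `L3` `ρ g (W j e') = W i e`; by `flip` `w_j ~ w_i`, so `i = j`.  Let `w = w_i`, `c = c i`.
  If `e = e'` then (`flip`) `g` stabilises `E w` and `g ∈ <c>`.  If `e ≠ e'` then (`flip`) `ρ g`
  exchanges `E w` and `E w⁻¹`.  So `g * g`, `g * c * g⁻¹` and `g⁻¹ * c * g` stabilise `E w` (use
  `flip`): `g * g = c ^ m`, `g * c * g⁻¹ = c ^ k`, `g⁻¹ * c * g = c ^ k'`, hence `k * k' = 1`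
  (`ord`), `k = 1` or `k = -1`.  If `k = 1` then `g` commutes with `w ∈ <c>`, so by `E_comm`
  `E w⁻¹ = ρ g (E w) ≤ E w`, a contradiction (`E_disj`, `E_ne_bot` for `w⁻¹`).  If `k = -1` then
  `c ^ m = g * g` commutes with `g`, so `c ^ m = c ^ (-m)`, `m = 0` and `g * g = 1`, `g = 1` by
  `two_free`, again `E w⁻¹ = E w`.
* `comm`: `l ≠ 0` since otherwise `c j ^ k = 1`.  `w_j = c j ^ m`, `w_i = c i ^ m'` with
  `m, m' ≠ 0`.  Then `g * w_j ^ (k * m') * g⁻¹ = w_i ^ (l * m)`.  According to the signs `E_conj_pow`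
  applies to `w_j` or `w_j⁻¹` and `w_i` or `w_i⁻¹`, and gives `ρ g (W j e') = W i e` for some `e, e'`;
  now `sep` with some `u ≠ 0` in `W j e'`.
* the statement on hyperbolic `w`: let `i` be the class of `w`; there is `g` with
  `ρ g (E w) = E w_i` or `E w_i⁻¹`; `g * w * g⁻¹` stabilises this subspace, hence `E w_i`.
* the last statement: `w_i` stabilises `E w_i` (`E_comm`), so `w_i = c i ^ m`, `m ≠ 0` as `w_i ≠ 1`.
-/

universe u

namespace RLin

open Matrix

variable {K L Γ : Type u} [Field K] [Field L] [LinearOrderedCommGroupWithZero Γ]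
variable {ι : Type} [Fintype ι] [DecidableEq ι] {P : Place K L Γ}
variable {G : Type u} [Group G] {ρ : G →* Matrix ι ι L} {G₀ : Subgroup G} {X : Set G}
variable [IsAlgClosed L]

omit [IsAlgClosed L] in
private theorem SysEx_ne_one (h : Geo P ρ G₀ X) {w : G} (hw : P.Hyp ρ w) : w ≠ 1 := by
  rintro rfl
  exact hw.1 h.l_one

private theorem SysEx_self {w g : G} (hg : g * w = w * g) :
    im (ρ g) (P.E ρ w) = P.E ρ w := by
  ext u
  rw [im_rho_mem]
  have hg' : g⁻¹ * w = w * g⁻¹ := by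
    rw [inv_mul_eq_iff_eq_mul, ← mul_assoc, hg, mul_assoc, mul_inv_cancel, mul_one]
  constructor
  · intro hu
    have h1 := E_comm (P := P) (ρ := ρ) hg hu
    rw [Matrix.mulVec_mulVec, ← map_mul, mul_inv_cancel, map_one, Matrix.one_mulVec] at h1
    exact h1
  · intro hu
    exact E_comm hg' hu

omit [IsAlgClosed L] in
private theorem SysEx_im_inv {g : G} {E F : Submodule L (ι → L)} (hg : im (ρ g) E = F) :
    im (ρ g⁻¹) F = E := by
  rw [← hg, ← im_mul, ← map_mul, inv_mul_cancel, map_one, im_one]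

private theorem SysEx_ne [Nonempty ι] (h : Geo P ρ G₀ X) {w : G} (hw : P.Hyp ρ w) :
    P.E ρ w ≠ P.E ρ w⁻¹ := by
  intro he
  have h1 := h.E_disj hw
  rw [← he, disjoint_self] at h1
  exact h.E_ne_bot hw h1

private theorem SysEx_sgn {w : G} {k : ℤ} (hk : k ≠ 0) :
    ∃ (n : ℕ) (a : G), (a = w ∨ a = w⁻¹) ∧ w ^ k = a ^ (n + 1) := by
  obtain ⟨m, hm⟩ := Int.eq_nat_or_neg k
  have hm0 : m ≠ 0 := by
    rintro rfl
    simp at hm
    exact hk hm
  obtain ⟨n, rfl⟩ := Nat.exists_eq_succ_of_ne_zero hm0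
  rcases hm with hm | hm
  · exact ⟨n, w, Or.inl rfl, by rw [hm, _root_.zpow_natCast]⟩
  · exact ⟨n, w⁻¹, Or.inr rfl, by rw [hm, _root_.zpow_neg, _root_.zpow_natCast, inv_pow]⟩

theorem Geo.flip [Nonempty ι] (h : Geo P ρ G₀ X) {w w' : G} (hw : P.Hyp ρ w)
    (hw' : P.Hyp ρ w') {g : G} (hg : im (ρ g) (P.E ρ w) = P.E ρ w') :
    im (ρ g) (P.E ρ w⁻¹) = P.E ρ w'⁻¹ := by
  obtain ⟨c, hc, hord⟩ := h.stab hw'
  have h1 : w' ∈ Subgroup.zpowers c := (hc w').1 (SysEx_self rfl)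
  have h2 : g * w * g⁻¹ ∈ Subgroup.zpowers c := by
    refine (hc _).1 ?_
    rw [map_mul, map_mul, im_mul, im_mul, SysEx_im_inv hg, SysEx_self (rfl : w * w = w * w), hg]
  obtain ⟨q, hq⟩ := Subgroup.mem_zpowers_iff.1 h1
  obtain ⟨p, hp⟩ := Subgroup.mem_zpowers_iff.1 h2
  have hq0 : q ≠ 0 := by
    rintro rfl
    rw [_root_.zpow_zero] at hq
    exact SysEx_ne_one h hw' hq.symm
  have hp0 : p ≠ 0 := by
    rintro rfl
    rw [_root_.zpow_zero] at hp
    refine SysEx_ne_one h hw ?_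
    have h3 : w = g⁻¹ * (g * w * g⁻¹) * g := by group
    rw [h3, ← hp]
    group
  have h3 : g * w ^ q * g⁻¹ = w' ^ p := by
    rw [← conj_zpow, ← hp, ← hq, ← _root_.zpow_mul, ← _root_.zpow_mul, mul_comm]
  obtain ⟨n, a, ha, hna⟩ := SysEx_sgn (w := w) hq0
  obtain ⟨m, b, hb, hmb⟩ := SysEx_sgn (w := w') hp0
  have hai : P.Hyp ρ a := by
    rcases ha with rfl | rfl
    · exact hw
    · exact h.hyp_inv hw
  have hbi : P.Hyp ρ b := by
    rcases hb with rfl | rfl
    · exact hw'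
    · exact h.hyp_inv hw'
  rw [hna, hmb] at h3
  have h4 := h.E_conj_pow hai hbi n m h3
  have h3' : g * a⁻¹ ^ (n + 1) * g⁻¹ = b⁻¹ ^ (m + 1) := by
    rw [inv_pow, inv_pow, ← h3]
    group
  have h5 := h.E_conj_pow (h.hyp_inv hai) (h.hyp_inv hbi) n m h3'
  rcases ha with rfl | rfl
  · rcases hb with rfl | rfl
    · exact h5
    · exact absurd (hg.symm.trans h4) (SysEx_ne h hw')
  · rcases hb with rfl | rfl
    · rw [inv_inv] at h5
      exact absurd (hg.symm.trans h5) (SysEx_ne h hw')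
    · exact h4

/-- the relation: same orbit up to inversion -/
private def SysExR (P : Place K L Γ) (ρ : G →* Matrix ι ι L) (w w' : {w : G // P.Hyp ρ w}) : Prop :=
  ∃ g, im (ρ g) (P.E ρ w.1) = P.E ρ w'.1 ∨ im (ρ g) (P.E ρ w.1) = P.E ρ w'.1⁻¹

private theorem SysExR_equiv [Nonempty ι] (h : Geo P ρ G₀ X) : Equivalence (SysExR P ρ) where
  refl w := ⟨1, Or.inl (by rw [map_one, im_one])⟩
  symm := by
    rintro ⟨w, hw⟩ ⟨w', hw'⟩ ⟨g, hg | hg⟩
    · exact ⟨g⁻¹, Or.inl (SysEx_im_inv hg)⟩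
    · have h1 := h.flip hw (h.hyp_inv hw') hg
      rw [inv_inv] at h1
      exact ⟨g⁻¹, Or.inr (SysEx_im_inv h1)⟩
  trans := by
    rintro ⟨w, hw⟩ ⟨w', hw'⟩ ⟨w'', hw''⟩ ⟨g, hg⟩ ⟨k, hk⟩
    refine ⟨k * g, ?_⟩
    simp only at hg hk ⊢
    rw [map_mul, im_mul]
    rcases hg with hg | hg
    · rw [hg]
      exact hk
    · rw [hg]
      rcases hk with hk | hk
      · exact Or.inr (h.flip hw' hw'' hk)
      · have h1 := h.flip hw' (h.hyp_inv hw'') hk
        rw [inv_inv] at h1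
        exact Or.inl h1

/-- the subspace attached to a sign -/
private noncomputable def SysExW (P : Place K L Γ) (ρ : G →* Matrix ι ι L) (w : G) (e : Bool) :
    Submodule L (ι → L) := P.E ρ (if e then w else w⁻¹)

private theorem SysEx_sep [Nonempty ι] (h : Geo P ρ G₀ X) {w c : G} (hw : P.Hyp ρ w)
    (hc : ∀ y, im (ρ y) (P.E ρ w) = P.E ρ w ↔ y ∈ Subgroup.zpowers c)
    (hord : ∀ k : ℤ, c ^ k = 1 → k = 0) {g : G} {e e' : Bool}
    (hg : im (ρ g) (SysExW P ρ w e') = SysExW P ρ w e) : e = e' ∧ g ∈ Subgroup.zpowers c := by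
  have key : im (ρ g) (P.E ρ w) = P.E ρ w⁻¹ → im (ρ g) (P.E ρ w⁻¹) = P.E ρ w → False := by
    intro k1 k2
    have m1 : g * g ∈ Subgroup.zpowers c := by
      refine (hc _).1 ?_
      rw [map_mul, im_mul, k1, k2]
    have hcc : im (ρ c) (P.E ρ w) = P.E ρ w := (hc c).2 (Subgroup.mem_zpowers c)
    have hcc' : im (ρ c) (P.E ρ w⁻¹) = P.E ρ w⁻¹ := h.flip hw hw hcc
    have m2 : g * c * g⁻¹ ∈ Subgroup.zpowers c := by
      refine (hc _).1 ?_
      rw [map_mul, map_mul, im_mul, im_mul, SysEx_im_inv k2, hcc', k2]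
    have m3 : g⁻¹ * c * g ∈ Subgroup.zpowers c := by
      refine (hc _).1 ?_
      rw [map_mul, map_mul, im_mul, im_mul, k1, hcc', SysEx_im_inv k1]
    obtain ⟨m, hm⟩ := Subgroup.mem_zpowers_iff.1 m1
    obtain ⟨k, hk⟩ := Subgroup.mem_zpowers_iff.1 m2
    obtain ⟨k', hk'⟩ := Subgroup.mem_zpowers_iff.1 m3
    have h4 : c ^ (k * k' - 1) = 1 := by
      have h5 : c = g⁻¹ * (g * c * g⁻¹) * g := by group
      have h6 : c = c ^ (k * k') := by
        calc c = g⁻¹ * (g * c * g⁻¹) * g := h5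
          _ = g⁻¹ * c ^ k * g := by rw [← hk]
          _ = (g⁻¹ * c * g) ^ k := by
            have h7 := conj_zpow (i := k) (a := g⁻¹) (b := c)
            rw [inv_inv] at h7
            exact h7.symm
          _ = c ^ (k * k') := by rw [← hk', ← _root_.zpow_mul, mul_comm]
      rw [_root_.zpow_sub, _root_.zpow_one, ← h6, mul_inv_cancel]
    have h5 : k * k' = 1 := by
      have h6 := hord _ h4
      omega
    rcases Int.eq_one_or_neg_one_of_mul_eq_one h5 with hk1 | hk1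
    · -- g commutes with c
      rw [hk1, _root_.zpow_one] at hk
      have h6 : g * c = c * g := by
        rw [eq_mul_inv_iff_mul_eq] at hk
        exact hk.symm
      have h7 : w ∈ Subgroup.zpowers c := (hc w).1 (SysEx_self rfl)
      obtain ⟨j, hj⟩ := Subgroup.mem_zpowers_iff.1 h7
      have h8 : g * w = w * g := by
        rw [← hj]
        exact ((show Commute g c from h6).zpow_right j).eq
      have h9 : im (ρ g) (P.E ρ w) = P.E ρ w := SysEx_self h8
      exact SysEx_ne h hw (h9.symm.trans k1)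
    · rw [hk1] at hk
      have h6 : g * c ^ m * g⁻¹ = c ^ (-m) := by
        rw [← conj_zpow, ← hk, ← _root_.zpow_mul]
        congr 1
        ring
      have h7 : g * c ^ m * g⁻¹ = c ^ m := by
        rw [hm]
        group
      have h8 : c ^ (m + m) = 1 := by
        rw [_root_.zpow_add]
        nth_rewrite 1 [← h7]
        rw [h6, _root_.zpow_neg, inv_mul_cancel]
      have h9 : m = 0 := by
        have := hord _ h8
        omega
      rw [h9, _root_.zpow_zero] at hm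
      have h10 := h.two_free hm.symm
      rw [h10, map_one, im_one] at k1
      exact SysEx_ne h hw k1
  rcases e with _ | _ <;> rcases e' with _ | _
  · refine ⟨rfl, (hc g).1 ?_⟩
    have h1 := h.flip (h.hyp_inv hw) (h.hyp_inv hw) (g := g) hg
    rw [inv_inv] at h1
    exact h1
  · exfalso
    have k1 : im (ρ g) (P.E ρ w) = P.E ρ w⁻¹ := hg
    have k2 := h.flip hw (h.hyp_inv hw) k1
    rw [inv_inv] at k2
    exact key k1 k2
  · exfalso
    have k2 : im (ρ g) (P.E ρ w⁻¹) = P.E ρ w := hg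
    have k1 := h.flip (h.hyp_inv hw) hw k2
    rw [inv_inv] at k1
    exact key k1 k2
  · exact ⟨rfl, (hc g).1 hg⟩

theorem Geo.sys [Nonempty ι] (h : Geo P ρ G₀ X) :
    ∃ (I : Type u) (c : I → G) (W : I → Bool → Submodule L (ι → L)), Sys ρ c W ∧
      (∀ w, P.Hyp ρ w → ∃ g i, g * w * g⁻¹ ∈ Subgroup.zpowers (c i)) ∧
      ∀ i, ∃ w, P.Hyp ρ w ∧ ∃ m : ℤ, m ≠ 0 ∧ c i ^ m = w := by
  let S : Setoid {w : G // P.Hyp ρ w} := ⟨SysExR P ρ, SysExR_equiv h⟩
  let r : Quotient S → {w : G // P.Hyp ρ w} := Quotient.out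
  have hst : ∀ i : Quotient S, ∃ c : G, (∀ y, im (ρ y) (P.E ρ (r i).1) = P.E ρ (r i).1 ↔
      y ∈ Subgroup.zpowers c) ∧ ∀ k : ℤ, c ^ k = 1 → k = 0 := fun i => h.stab (r i).2
  choose c hc hord using hst
  have hsgn : ∀ (w : G) (e : Bool), P.Hyp ρ w → P.Hyp ρ (if e then w else w⁻¹) := by
    intro w e hw
    rcases e with _ | _
    · exact h.hyp_inv hw
    · exact hw
  have heq : ∀ i j g e e', im (ρ g) (SysExW P ρ (r j).1 e') = SysExW P ρ (r i).1 e → i = j := by
    intro i j g e e' hg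
    have h1 : SysExR P ρ (r j) (r i) := by
      rcases e' with _ | _
      · rcases e with _ | _
        · have h2 := h.flip (h.hyp_inv (r j).2) (h.hyp_inv (r i).2) hg
          rw [inv_inv, inv_inv] at h2
          exact ⟨g, Or.inl h2⟩
        · have h2 := h.flip (h.hyp_inv (r j).2) (r i).2 hg
          rw [inv_inv] at h2
          exact ⟨g, Or.inr h2⟩
      · rcases e with _ | _
        · exact ⟨g, Or.inr hg⟩
        · exact ⟨g, Or.inl hg⟩
    have h2 : (Quotient.mk S (r j)) = Quotient.mk S (r i) := Quotient.sound h1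
    rw [Quotient.out_eq, Quotient.out_eq] at h2
    exact h2.symm
  have hstab : ∀ i e, im (ρ (c i)) (SysExW P ρ (r i).1 e) = SysExW P ρ (r i).1 e := by
    intro i e
    have h1 : im (ρ (c i)) (P.E ρ (r i).1) = P.E ρ (r i).1 :=
      (hc i _).2 (Subgroup.mem_zpowers _)
    rcases e with _ | _
    · exact h.flip (r i).2 (r i).2 h1
    · exact h1
  have hsep : ∀ i j e e' g, im (ρ g) (SysExW P ρ (r j).1 e') = SysExW P ρ (r i).1 e →
      i = j ∧ e = e' ∧ g ∈ Subgroup.zpowers (c i) := by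
    intro i j e e' g hg
    have h1 := heq i j g e e' hg
    subst h1
    exact ⟨rfl, SysEx_sep h (r i).2 (hc i) (hord i) hg⟩
  have hpow : ∀ i, ∃ m : ℤ, m ≠ 0 ∧ c i ^ m = (r i).1 := by
    intro i
    have h1 : (r i).1 ∈ Subgroup.zpowers (c i) := (hc i _).1 (SysEx_self rfl)
    obtain ⟨m, hm⟩ := Subgroup.mem_zpowers_iff.1 h1
    refine ⟨m, ?_, hm⟩
    rintro rfl
    rw [_root_.zpow_zero] at hm
    exact SysEx_ne_one h (r i).2 hm.symm
  refine ⟨Quotient S, c, fun i e => SysExW P ρ (r i).1 e, ?_, ?_, ?_⟩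
  · refine ⟨?_, ?_, ?_, ?_, hord⟩
    · intro i e u hu
      have h1 : ρ (c i) *ᵥ u ∈ im (ρ (c i)) (SysExW P ρ (r i).1 e) := (mem_im _ _ _).2 ⟨u, hu, rfl⟩
      rw [hstab] at h1
      exact h1
    · intro i e
      exact h.E_rank (hsgn _ e (r i).2)
    · intro i j e e' g u hu0 hu hgu
      exact hsep i j e e' g (h.L3 (hsgn _ e' (r j).2) (hsgn _ e (r i).2) g hu0 hu hgu)
    · intro i j g k l hk hg
      obtain ⟨m, hm0, hm⟩ := hpow j
      obtain ⟨m', hm0', hm'⟩ := hpow i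
      have hl : l ≠ 0 := by
        rintro rfl
        rw [_root_.zpow_zero] at hg
        refine hk (hord j k ?_)
        have h1 : c j ^ k = g⁻¹ * (g * c j ^ k * g⁻¹) * g := by group
        rw [h1, hg]
        group
      have h1 : g * (r j).1 ^ (k * m') * g⁻¹ = (r i).1 ^ (l * m) := by
        rw [← hm, ← hm', ← _root_.zpow_mul, ← _root_.zpow_mul]
        have h2 : c j ^ (m * (k * m')) = (c j ^ k) ^ (m * m') := by
          rw [← _root_.zpow_mul]
          congr 1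
          ring
        rw [h2, ← conj_zpow, hg, ← _root_.zpow_mul]
        congr 1
        ring
      obtain ⟨n, a, ha, hna⟩ := SysEx_sgn (w := (r j).1) (mul_ne_zero hk hm0')
      obtain ⟨n', b, hb, hnb⟩ := SysEx_sgn (w := (r i).1) (mul_ne_zero hl hm0)
      rw [hna, hnb] at h1
      have hA : ∃ e' : Bool, a = if e' then (r j).1 else (r j).1⁻¹ := by
        rcases ha with rfl | rfl
        · exact ⟨true, rfl⟩
        · exact ⟨false, rfl⟩
      have hB : ∃ e : Bool, b = if e then (r i).1 else (r i).1⁻¹ := by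
        rcases hb with rfl | rfl
        · exact ⟨true, rfl⟩
        · exact ⟨false, rfl⟩
      obtain ⟨e', rfl⟩ := hA
      obtain ⟨e, rfl⟩ := hB
      have h2 := h.E_conj_pow (hsgn _ e' (r j).2) (hsgn _ e (r i).2) n n' h1
      obtain ⟨k1, -, k3⟩ := hsep i j e e' g h2
      exact ⟨k1, k3⟩
  · intro w hw
    obtain ⟨g, hg⟩ : SysExR P ρ ⟨w, hw⟩ (r (Quotient.mk S ⟨w, hw⟩)) :=
      Quotient.exact (Quotient.out_eq (Quotient.mk S ⟨w, hw⟩)).symm
    refine ⟨g, Quotient.mk S ⟨w, hw⟩, (hc _ _).1 ?_⟩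
    have hg' : im (ρ g) (P.E ρ w) = P.E ρ (r (Quotient.mk S ⟨w, hw⟩)).1 ∨
        im (ρ g) (P.E ρ w⁻¹) = P.E ρ (r (Quotient.mk S ⟨w, hw⟩)).1 := by
      rcases hg with hg | hg
      · exact Or.inl hg
      · have h1 := h.flip hw (h.hyp_inv (r (Quotient.mk S ⟨w, hw⟩)).2) hg
        rw [inv_inv] at h1
        exact Or.inr h1
    rcases hg' with hg' | hg'
    · rw [map_mul, map_mul, im_mul, im_mul, SysEx_im_inv hg',
        SysEx_self (rfl : w * w = w * w), hg']
    · have h2 : im (ρ w) (P.E ρ w⁻¹) = P.E ρ w⁻¹ := SysEx_self (by group)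
      rw [map_mul, map_mul, im_mul, im_mul, SysEx_im_inv hg', h2, hg']
  · intro i
    obtain ⟨m, hm0, hm⟩ := hpow i
    exact ⟨(r i).1, (r i).2, m, hm0, hm⟩

end RLin
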