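import Pool.Agent.RLin.Geo
import Pool.Agent.RLin.Hyp
import Pool.Agent.RLin.SysEx

set_option autoImplicit false

/-!
# RLin/Base: the free group

Let `Y` be a set, `t : Y ⊕ Y → K` injective, `s = T⁻¹`.  For `y ∈ Y` let `Q_y` be the matrix with
columns `(1, t (inl y))` and `(1, t (inr y))`, invertible over `K`.  Let
`ρ' (of y) = Q_y diag(s, T) Q_y⁻¹` (`FreeGroup.lift` to the unit group of the matrix ring, composed with
`Units.coeHom`; the inverse is `Q_y diag(T, s) Q_y⁻¹`).

`G₀ = ⊥`, the letters are `of y` and `(of y)⁻¹`.  `T • ρ' (of y) = Q_y diag(1, T²) Q_y⁻¹` reduces to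
`Q_y diag(1, 0) Q_y⁻¹`, with range the line through `(1, t (inl y))` and kernel the line through
`(1, t (inr y))`; `T • ρ' (of y)⁻¹` reduces to `Q_y diag(0, 1) Q_y⁻¹`, with range the line through
`(1, t (inr y))` and kernel the line through `(1, t (inl y))`.  So with `len_eq` all letters have length
one, and the direction of a letter is the line through `(1, r)` where `r` is a value of `t`; different
letters have different values of `t`, hence different directions; two different lines are disjoint.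
All fields of `PP` follow: `merge`: `D y = D x⁻¹` gives `y = x⁻¹`, `x * y = 1 ∈ G₀`; `fix`, `two` are
vacuous since `G₀ = ⊥`; `two'`: `x ≠ x⁻¹` so `D x ≠ D x⁻¹`; `rank`: `2 * 1 = card (Fin 2)`.
(`of y ≠ (of y)⁻¹` for instance because their directions are different.)

`base_tow`: let `Geo` be given by `PP.geo`, `I, c, W` by `Geo.sys`, `J = PEmpty`.
`ρ_inj`: if `ρ' x = 1` then `l x = 0`, so `x ∈ ⊥`.  `cover`: by `classify` `x ≠ 1` is conjugate to an
element of `⊥` (impossible), to a letter `y` with `D y = D y⁻¹` (impossible), or to a hyperbolic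
element, for which `Geo.sys` gives a power of some `c i`.
-/

universe u

namespace RLin

open Matrix

/-- the letters of a free group -/
def fletters (Y : Type u) : Set (FreeGroup Y) :=
  {x | ∃ y, x = FreeGroup.of y ∨ x = (FreeGroup.of y)⁻¹}

variable {K L Γ : Type u} [Field K] [Field L] [LinearOrderedCommGroupWithZero Γ]

section Helpers

omit [Field L] [LinearOrderedCommGroupWithZero Γ]

/-- the projection to the line through `(1, a)` along the line through `(1, b)` -/
private def Nn (a b : K) : Matrix (Fin 2) (Fin 2) K := (b - a)⁻¹ • !![b, -1; a * b, -a]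

private theorem Nn_sq {a b : K} (h : a ≠ b) : Nn a b * Nn a b = Nn a b := by
  have h1 : b - a ≠ 0 := sub_ne_zero.mpr h.symm
  ext j k
  fin_cases j <;> fin_cases k <;>
    simp [Nn, Matrix.mul_apply, Fin.sum_univ_two] <;> field_simp <;> ring

private theorem Nn_mul {a b : K} : Nn a b * Nn b a = 0 := by
  ext j k
  fin_cases j <;> fin_cases k <;>
    simp [Nn, Matrix.mul_apply, Fin.sum_univ_two] <;> ring

private theorem Nn_add {a b : K} (h : a ≠ b) : Nn a b + Nn b a = 1 := by
  have h1 : b - a ≠ 0 := sub_ne_zero.mpr h.symm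
  have h2 : (a - b)⁻¹ = -(b - a)⁻¹ := by rw [← inv_neg, neg_sub]
  ext j k
  fin_cases j <;> fin_cases k <;>
    simp [Nn, h2] <;> field_simp <;> ring

/-- the line through `(1, a)` -/
private def Ln (a : K) : Submodule K (Fin 2 → K) := Submodule.span K {![1, a]}

private theorem mem_Ln {a : K} {v : Fin 2 → K} : v ∈ Ln a ↔ v 1 = a * v 0 := by
  unfold Ln
  rw [Submodule.mem_span_singleton]
  constructor
  · rintro ⟨c, rfl⟩
    simp [mul_comm]
  · intro h
    refine ⟨v 0, ?_⟩
    ext k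
    fin_cases k
    · simp
    · simp [h, mul_comm]

private theorem Ln_inj {a b : K} (h : Ln a = Ln b) : a = b := by
  have h1 : (![1, a] : Fin 2 → K) ∈ Ln a := by rw [mem_Ln]; simp
  rw [h, mem_Ln] at h1
  simpa using h1

private theorem Ln_disj {a b : K} (h : a ≠ b) : Disjoint (Ln a) (Ln b) := by
  rw [Submodule.disjoint_def]
  intro v h1 h2
  rw [mem_Ln] at h1 h2
  have h3 : (a - b) * v 0 = 0 := by rw [sub_mul, ← h1, ← h2, sub_self]
  have h4 : v 0 = 0 := (mul_eq_zero.mp h3).resolve_left (sub_ne_zero.mpr h)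
  ext k
  fin_cases k
  · exact h4
  · change v 1 = 0
    rw [h1, h4, mul_zero]

private theorem finrank_Ln (a : K) : Module.finrank K (Ln a) = 1 := by
  unfold Ln
  apply finrank_span_singleton
  intro h
  have := congrFun h 0
  simp at this

private theorem Nn_mulVec {a b : K} (v : Fin 2 → K) :
    Nn a b *ᵥ v = ((b - a)⁻¹ * (b * v 0 - v 1)) • ![1, a] := by
  ext j
  fin_cases j
  · simp [Nn, Matrix.mulVec, dotProduct, Fin.sum_univ_two]
    ring
  · simp [Nn, Matrix.mulVec, dotProduct, Fin.sum_univ_two]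
    ring

private theorem rg_Nn {a b : K} (h : a ≠ b) : rg (Nn a b) = Ln a := by
  have h1 : b - a ≠ 0 := sub_ne_zero.mpr h.symm
  apply le_antisymm
  · rintro _ ⟨v, rfl⟩
    rw [Matrix.mulVecLin_apply, Nn_mulVec]
    exact Submodule.smul_mem _ _ (Submodule.subset_span rfl)
  · unfold Ln
    rw [Submodule.span_le, Set.singleton_subset_iff]
    refine ⟨![1, a], ?_⟩
    rw [Matrix.mulVecLin_apply, Nn_mulVec]
    simp [h1]

private theorem kr_Nn {a b : K} (h : a ≠ b) : kr (Nn a b) = Ln b := by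
  have h1 : b - a ≠ 0 := sub_ne_zero.mpr h.symm
  ext v
  unfold kr
  rw [LinearMap.mem_ker, Matrix.mulVecLin_apply, Nn_mulVec, mem_Ln]
  constructor
  · intro h2
    have h3 := congrFun h2 0
    simp [h1] at h3
    rw [sub_eq_zero] at h3
    exact h3.symm
  · intro h2
    rw [h2, sub_self, mul_zero, zero_smul]

private theorem Nn_ne {a b : K} (h : a ≠ b) : Nn a b ≠ 0 := by
  intro h0
  have h1 := finrank_Ln a
  rw [← rg_Nn h, h0] at h1
  unfold rg at h1
  rw [Matrix.mulVecLin_zero, LinearMap.range_zero, finrank_bot] at h1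
  exact zero_ne_one h1

end Helpers

/-- the matrix of a letter -/
private def Rr (P : Place K L Γ) (a b : K) : Matrix (Fin 2) (Fin 2) L :=
  P.T⁻¹ • (Nn a b).map P.i + P.T • (Nn b a).map P.i

private theorem Rr_mul (P : Place K L Γ) {a b : K} (h : a ≠ b) : Rr P a b * Rr P b a = 1 := by
  have e1 : (Nn a b).map P.i * (Nn a b).map P.i = (Nn a b).map P.i := by
    rw [← Matrix.map_mul, Nn_sq h]
  have e2 : (Nn b a).map P.i * (Nn b a).map P.i = (Nn b a).map P.i := by
    rw [← Matrix.map_mul, Nn_sq h.symm]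
  have e3 : (Nn a b).map P.i * (Nn b a).map P.i = 0 := by
    rw [← Matrix.map_mul, Nn_mul, Matrix.map_zero _ (map_zero P.i)]
  have e4 : (Nn b a).map P.i * (Nn a b).map P.i = 0 := by
    rw [← Matrix.map_mul, Nn_mul, Matrix.map_zero _ (map_zero P.i)]
  have e5 : (Nn a b).map P.i + (Nn b a).map P.i = 1 := by
    rw [← Matrix.map_add _ (map_add P.i), Nn_add h, Matrix.map_one P.i (map_zero _) (map_one _)]
  unfold Rr
  simp only [add_mul, mul_add, Matrix.smul_mul, Matrix.mul_smul, e1, e2, e3, e4, smul_zero,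
    add_zero, zero_add, smul_smul, inv_mul_cancel₀ P.T_ne, mul_inv_cancel₀ P.T_ne, one_smul]
  rw [← e5, add_comm]

private theorem Rr_Rm (P : Place K L Γ) (a b : K) : P.Rm (P.T ^ 1 • Rr P a b) (Nn a b) := by
  intro j k
  have e : (P.T ^ 1 • Rr P a b) j k - P.i (Nn a b j k) = P.T * (P.T * P.i (Nn b a j k)) := by
    unfold Rr
    rw [Matrix.smul_apply, Matrix.add_apply, Matrix.smul_apply, Matrix.smul_apply,
      Matrix.map_apply, Matrix.map_apply, smul_eq_mul, smul_eq_mul, smul_eq_mul, pow_one,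
      mul_add, mul_inv_cancel_left₀ P.T_ne]
    ring
  rw [e, map_mul, map_mul]
  have h1 : P.v P.T * P.v (P.i (Nn b a j k)) ≤ 1 := mul_le_one' P.T_lt.le (P.v_i _)
  calc P.v P.T * (P.v P.T * P.v (P.i (Nn b a j k))) ≤ P.v P.T * 1 := mul_le_mul_right h1 _
    _ < 1 := by rw [mul_one]; exact P.T_lt

/-- the letters -/
private def Lt {Y : Type u} : Y ⊕ Y → FreeGroup Y
  | Sum.inl y => FreeGroup.of y
  | Sum.inr y => (FreeGroup.of y)⁻¹

private theorem Lt_swap {Y : Type u} (p : Y ⊕ Y) : (Lt p.swap : FreeGroup Y) = (Lt p)⁻¹ := by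
  rcases p with y | y
  · rfl
  · simp [Lt]

private theorem Lt_mem {Y : Type u} (x : FreeGroup Y) : x ∈ fletters Y ↔ ∃ p, x = Lt p := by
  constructor
  · rintro ⟨y, h | h⟩
    · exact ⟨Sum.inl y, h⟩
    · exact ⟨Sum.inr y, h⟩
  · rintro ⟨y | y, h⟩
    · exact ⟨y, Or.inl h⟩
    · exact ⟨y, Or.inr h⟩

private theorem swap_ne {Y : Type u} (p : Y ⊕ Y) : p ≠ p.swap := by
  rcases p with y | y <;> simp

private theorem exists_rho (P : Place K L Γ) {Y : Type u} (t : Y ⊕ Y → K)
    (ht : Function.Injective t) :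
    ∃ ρ' : FreeGroup Y →* Matrix (Fin 2) (Fin 2) L, ∀ p, ρ' (Lt p) = Rr P (t p) (t p.swap) := by
  have hne : ∀ y, t (Sum.inl y) ≠ t (Sum.inr y) := fun y h => by
    have := ht h
    simp at this
  let f : Y → (Matrix (Fin 2) (Fin 2) L)ˣ := fun y =>
    ⟨Rr P (t (Sum.inl y)) (t (Sum.inr y)), Rr P (t (Sum.inr y)) (t (Sum.inl y)),
      Rr_mul P (hne y), Rr_mul P (hne y).symm⟩
  refine ⟨(Units.coeHom _).comp (FreeGroup.lift f), ?_⟩
  rintro (y | y)
  · rw [MonoidHom.comp_apply]
    change Units.coeHom _ (FreeGroup.lift f (FreeGroup.of y)) = _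
    rw [FreeGroup.lift_apply_of]
    rfl
  · rw [MonoidHom.comp_apply]
    change Units.coeHom _ (FreeGroup.lift f (FreeGroup.of y)⁻¹) = _
    rw [map_inv, FreeGroup.lift_apply_of]
    rfl

theorem base_pp (P : Place K L Γ) {Y : Type u} (t : Y ⊕ Y → K) (ht : Function.Injective t) :
    ∃ ρ' : FreeGroup Y →* Matrix (Fin 2) (Fin 2) L, PP P ρ' ⊥ (fletters Y) ∧
      ∀ x ∈ fletters Y, P.D ρ' x ≠ P.D ρ' x⁻¹ := by
  obtain ⟨ρ', hρ⟩ := exists_rho P t ht
  have hne : ∀ p : Y ⊕ Y, t p ≠ t p.swap := fun p h => swap_ne p (ht h)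
  have hlen : ∀ p : Y ⊕ Y, P.l ρ' (Lt p) = 1 ∧ P.Om ρ' (Lt p) = Nn (t p) (t p.swap) := by
    intro p
    change P.len (ρ' (Lt p)) = 1 ∧ P.lc (ρ' (Lt p)) = _
    rw [hρ p]
    exact len_eq P (Rr_Rm P (t p) (t p.swap)) (Nn_ne (hne p))
  have hD : ∀ p : Y ⊕ Y, P.D ρ' (Lt p) = Ln (t p) := by
    intro p
    unfold Place.D
    rw [(hlen p).2, rg_Nn (hne p)]
  have hD' : ∀ p : Y ⊕ Y, P.D ρ' (Lt p)⁻¹ = Ln (t p.swap) := by
    intro p
    rw [← Lt_swap, hD]
  have hDne : ∀ x ∈ fletters Y, P.D ρ' x ≠ P.D ρ' x⁻¹ := by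
    intro x hx
    obtain ⟨p, rfl⟩ := (Lt_mem x).1 hx
    rw [hD, hD']
    exact fun h => hne p (Ln_inj h)
  have hbot : ∀ g : FreeGroup Y, g ∈ (⊥ : Subgroup (FreeGroup Y)) → g = 1 := fun g hg =>
    Subgroup.mem_bot.1 hg
  refine ⟨ρ', ?_, hDne⟩
  constructor
  · intro g hg
    refine ⟨1, ?_⟩
    rw [hbot g hg, map_one, Matrix.map_one P.i (map_zero _) (map_one _)]
  · intro g hg _
    exact hbot g hg
  · intro x hx
    obtain ⟨p, rfl⟩ := (Lt_mem x).1 hx
    exact (Lt_mem _).2 ⟨p.swap, (Lt_swap p).symm⟩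
  · intro g hg x hx
    rw [hbot g hg, one_mul]
    exact hx
  · rw [eq_top_iff, ← FreeGroup.closure_range_of Y]
    apply Subgroup.closure_mono
    rintro _ ⟨y, rfl⟩
    exact Or.inr ⟨y, Or.inl rfl⟩
  · intro x hx
    obtain ⟨p, rfl⟩ := (Lt_mem x).1 hx
    exact (hlen p).1
  · intro x hx
    obtain ⟨p, rfl⟩ := (Lt_mem x).1 hx
    rw [(hlen p).2, kr_Nn (hne p), hD']
  · intro x hx
    obtain ⟨p, rfl⟩ := (Lt_mem x).1 hx
    rw [hD, finrank_Ln]
    rfl
  · intro x hx y hy
    obtain ⟨p, rfl⟩ := (Lt_mem x).1 hx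
    obtain ⟨q, rfl⟩ := (Lt_mem y).1 hy
    rw [hD, hD]
    by_cases h : t p = t q
    · exact Or.inl (by rw [h])
    · exact Or.inr (Ln_disj h)
  · intro x hx y hy h
    obtain ⟨p, rfl⟩ := (Lt_mem x).1 hx
    obtain ⟨q, rfl⟩ := (Lt_mem y).1 hy
    rw [hD, hD'] at h
    have h1 : q = p.swap := ht (Ln_inj h)
    left
    rw [h1, Lt_swap, mul_inv_cancel]
    exact Subgroup.one_mem _
  · intro g hg hg1
    exact absurd (hbot g hg) hg1
  · intro g hg _
    exact hbot g hg
  · intro x hx h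
    exact absurd h (hDne x hx)

theorem base_tow [IsAlgClosed L] (P : Place K L Γ) {Y : Type u} (t : Y ⊕ Y → K)
    (ht : Function.Injective t) (A : Type u) [Ring A] (β : PEmpty.{u + 1} → A → FreeGroup Y) :
    ∃ (ρ' : FreeGroup Y →* Matrix (Fin 2) (Fin 2) L) (I : Type u) (c : I → FreeGroup Y)
      (W : I → Bool → Submodule L (Fin 2 → L)), IsTow ρ' c W β := by
  obtain ⟨ρ', hPP, hD⟩ := base_pp P t ht
  have hG := hPP.geo
  obtain ⟨I, c, W, hS, h1, -⟩ := hG.sys
  refine ⟨ρ', I, c, W, { toSys := hS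
                         ρ_inj := ?_
                         β_add := fun j => j.elim
                         β_inj := fun j => j.elim
                         mal := fun j => j.elim
                         mix := fun j => j.elim
                         cover := ?_ }⟩
  · rw [injective_iff_map_eq_one]
    intro x hx
    have h2 : P.l ρ' x = 0 := by
      change P.len (ρ' x) = 0
      have h3 := (len_map P (1 : Matrix (Fin 2) (Fin 2) K)).1
      rwa [Matrix.map_one P.i (map_zero _) (map_one _), ← hx] at h3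
    exact Subgroup.mem_bot.1 ((hG.len_zero x).1 h2)
  · intro y hy
    obtain ⟨g, hg | ⟨hg, hg'⟩ | hg⟩ := hG.classify y
    · exfalso
      apply hy
      exact conj_eq_one_iff.1 (Subgroup.mem_bot.1 hg)
    · exact absurd hg' (hD _ hg)
    · obtain ⟨g', i, k, hk⟩ := h1 _ hg
      refine ⟨g' * g, Or.inr ⟨i, k, ?_⟩⟩
      change c i ^ k = _ at hk
      rw [hk]
      group

end RLin
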