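import Mathlib

set_option autoImplicit false

/-!
# RLin/Root: an additive group acts by powers of a matrix

Let `K` be algebraically closed of characteristic zero, `M` an invertible matrix, `A` an additive
group without torsion and `e ∈ A`, `e ≠ 0`.  There is a homomorphism `b` from `A` to the unit group of the
commutative algebra `K[M]` with `b e = M`.

Proof.
(1) `R = Algebra.adjoin K {M}` is a commutative finite dimensional `K`-algebra (use
`Polynomial.aeval M` and that every element of `R` is `aeval M p`; `R` is a commutative ring by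
`Algebra.adjoinCommRingOfComm` or `Algebra.elemental`).  `M` is a unit of `R` (Cayley-Hamilton: the
inverse of `M` is a polynomial in `M`; or: in a finite dimensional algebra an element which is a unit
in the matrix ring is a unit in `R` because multiplication by it is injective on `R`).

(2) The unit group of `R` is divisible.  Let `x` be a unit of `R` and `n ≥ 1`.  `x` is integral
over `K`; let `m` be its minimal polynomial, `c_1, ..., c_r` its distinct roots.  `0` is not a root
since `x` is a unit.  By Lagrange interpolation (`Lagrange.interpolate`) choose `g ∈ K[X]` with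
`g(c_j) ^ n = c_j` for all `j` (`K` is algebraically closed).  Then every root of `m` is a root of
`g ^ n - X`, so `m` divides a power of `g ^ n - X` and `y = g(x)` satisfies that `y ^ n - x` is
nilpotent.  So `y ^ n` is a unit and `y` is a unit and `n y ^ (n - 1)` is a unit.  By
`Polynomial.existsUnique_nilpotent_sub_and_aeval_eq_zero` (Hensel for nilpotent ideals) applied to the
polynomial `Y ^ n - x` over `R` there is `z ∈ R` with `z ^ n = x`.

(3) `Additive Rˣ` is a divisible commutative group, hence injective (`Module.Baer.of_divisible`,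
`Module.Baer.extension_property`, or `AddCommGroup.injective_of_divisible`, with `ℤ`-modules; take care
of the universes, for instance by stating the extension property through
`Module.Baer.extension_property`).  The map `ℤ → A`, `k ↦ k • e` is injective since `A` is
torsion-free; extend the map `ℤ → Additive Rˣ`, `k ↦ M ^ k` along it.
-/

universe u

namespace RLin

open Matrix

private theorem prod_dvd_pow {K : Type u} [Field K] (h : Polynomial K) (s : Multiset K)
    (hs : ∀ a ∈ s, h.IsRoot a) :
    (s.map fun a => (Polynomial.X - Polynomial.C a)).prod ∣ h ^ Multiset.card s := by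
  induction s using Multiset.induction_on with
  | empty => simp
  | cons a s ih =>
    rw [Multiset.map_cons, Multiset.prod_cons, Multiset.card_cons, pow_succ']
    exact mul_dvd_mul (Polynomial.dvd_iff_isRoot.2 (hs a (Multiset.mem_cons_self a s)))
      (ih fun b hb => hs b (Multiset.mem_cons_of_mem hb))

private theorem exists_root_unit {K : Type u} [Field K] [IsAlgClosed K] [CharZero K]
    (f : Polynomial K) (hf : f ≠ 0) (x : (Polynomial K ⧸ Ideal.span {f})ˣ) (n : ℕ) (hn : n ≠ 0) :
    ∃ z : (Polynomial K ⧸ Ideal.span {f})ˣ, z ^ n = x := by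
  classical
  obtain ⟨q, hq⟩ := Ideal.Quotient.mk_surjective (I := Ideal.span {f}) (x : Polynomial K ⧸ Ideal.span {f})
  have hex : ∀ a : K, ∃ c : K, c ^ n = q.eval a := fun a =>
    IsAlgClosed.exists_pow_nat_eq _ (Nat.pos_of_ne_zero hn)
  choose c hc using hex
  obtain ⟨g, hg⟩ : ∃ g : Polynomial K, ∀ a ∈ f.roots, g.eval a = c a := by
    refine ⟨Lagrange.interpolate f.roots.toFinset id c, fun a ha => ?_⟩
    exact Lagrange.eval_interpolate_at_node c (Set.injOn_id _) (Multiset.mem_toFinset.2 ha)
  have hroot : ∀ a ∈ f.roots, (g ^ n - q).IsRoot a := by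
    intro a ha
    rw [Polynomial.IsRoot.def, Polynomial.eval_sub, Polynomial.eval_pow, hg a ha, hc a, sub_self]
  have hdvd : f ∣ (g ^ n - q) ^ Multiset.card f.roots := by
    have h1 := prod_dvd_pow (g ^ n - q) f.roots hroot
    have h2 := (IsAlgClosed.splits f).eq_prod_roots
    have h3 : IsUnit (Polynomial.C f.leadingCoeff) :=
      Polynomial.isUnit_C.2 (isUnit_iff_ne_zero.2 (Polynomial.leadingCoeff_ne_zero.2 hf))
    obtain ⟨u, hu⟩ := h3
    have h4 : f = (u : Polynomial K) * (f.roots.map fun a => (Polynomial.X - Polynomial.C a)).prod := by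
      rw [hu]
      exact h2
    have h5 : (u : Polynomial K) * (f.roots.map fun a => (Polynomial.X - Polynomial.C a)).prod ∣
        (g ^ n - q) ^ Multiset.card f.roots := (Units.mul_left_dvd).2 h1
    exact (dvd_of_eq h4).trans h5
  obtain ⟨y, hy⟩ : ∃ y, y = Ideal.Quotient.mk (Ideal.span {f}) g := ⟨_, rfl⟩
  have hnil : IsNilpotent (y ^ n - (x : Polynomial K ⧸ Ideal.span {f})) := by
    refine ⟨Multiset.card f.roots, ?_⟩
    rw [hy, ← hq, ← map_pow, ← map_sub, ← map_pow, Ideal.Quotient.eq_zero_iff_mem,
      Ideal.mem_span_singleton]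
    exact hdvd
  have hyn : IsUnit (y ^ n) := by
    have h1 := IsNilpotent.isUnit_add_left_of_commute hnil x.isUnit (Commute.all _ _)
    rwa [add_sub_cancel] at h1
  have hyu : IsUnit y := (isUnit_pow_iff hn).1 hyn
  obtain ⟨P, hP⟩ : ∃ P : Polynomial (Polynomial K ⧸ Ideal.span {f}),
      P = Polynomial.X ^ n - Polynomial.C (x : Polynomial K ⧸ Ideal.span {f}) := ⟨_, rfl⟩
  have haev : ∀ z : Polynomial K ⧸ Ideal.span {f}, Polynomial.aeval z P = z ^ n - x := by
    intro z
    rw [hP, Polynomial.coe_aeval_eq_eval, Polynomial.eval_sub, Polynomial.eval_pow,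
      Polynomial.eval_X, Polynomial.eval_C]
  have hder : IsUnit (Polynomial.aeval y (Polynomial.derivative P)) := by
    have e : Polynomial.aeval y (Polynomial.derivative P) =
        (n : Polynomial K ⧸ Ideal.span {f}) * y ^ (n - 1) := by
      rw [hP, Polynomial.derivative_sub, Polynomial.derivative_C, sub_zero,
        Polynomial.derivative_X_pow, Polynomial.coe_aeval_eq_eval, Polynomial.eval_mul,
        Polynomial.eval_C, Polynomial.eval_pow, Polynomial.eval_X]
    rw [e]
    refine IsUnit.mul ?_ (hyu.pow _)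
    have h1 : IsUnit ((n : K)) := isUnit_iff_ne_zero.2 (by exact_mod_cast hn)
    have h2 := h1.map (algebraMap K (Polynomial K ⧸ Ideal.span {f}))
    rwa [map_natCast] at h2
  obtain ⟨z, ⟨-, hz⟩, -⟩ := Polynomial.existsUnique_nilpotent_sub_and_aeval_eq_zero (P := P)
    (x := y) (by rw [haev]; exact hnil) hder
  rw [haev] at hz
  have hz' : z ^ n = x := sub_eq_zero.1 hz
  have hzu : IsUnit z := (isUnit_pow_iff hn).1 (by rw [hz']; exact x.isUnit)
  obtain ⟨v, hv⟩ := hzu
  refine ⟨v, Units.ext ?_⟩
  rw [Units.val_pow_eq_pow_val, hv, hz']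

theorem exists_root_hom {K : Type u} [Field K] [IsAlgClosed K] [CharZero K] {ι : Type} [Fintype ι]
    [DecidableEq ι] {A : Type u} [AddCommGroup A]
    (htf : ∀ (n : ℕ) (a : A), n ≠ 0 → n • a = 0 → a = 0) (e : A) (he : e ≠ 0)
    (M M' : Matrix ι ι K) (hM : M * M' = 1) :
    ∃ b : A → Matrix ι ι K, b e = M ∧ b 0 = 1 ∧ (∀ x y, b (x + y) = b x * b y) ∧
      ∀ x, ∃ p : Polynomial K, b x = Polynomial.aeval M p := by
  classical
  obtain ⟨f, hf⟩ : ∃ f : Polynomial K, f = M.charpoly := ⟨_, rfl⟩
  have hf0 : f ≠ 0 := by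
    rw [hf]
    exact (Matrix.charpoly_monic M).ne_zero
  have hfM : Polynomial.aeval M f = 0 := by
    rw [hf]
    exact Matrix.aeval_self_charpoly M
  have hker : ∀ a : Polynomial K, a ∈ Ideal.span {f} → Polynomial.aeval M a = 0 := by
    intro a ha
    obtain ⟨c, rfl⟩ := Ideal.mem_span_singleton.1 ha
    rw [map_mul, hfM, zero_mul]
  obtain ⟨φ, hφ⟩ : ∃ φ : (Polynomial K ⧸ Ideal.span {f}) →ₐ[K] Matrix ι ι K,
      ∀ p, φ (Ideal.Quotient.mk _ p) = Polynomial.aeval M p :=
    ⟨Ideal.Quotient.liftₐ (Ideal.span {f}) (Polynomial.aeval M) hker, fun p => rfl⟩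
  -- the class of `X` is a unit
  have hcop : IsCoprime (Polynomial.X : Polynomial K) f := by
    rw [Polynomial.irreducible_X.coprime_iff_not_dvd, Polynomial.X_dvd_iff]
    intro h0
    have h1 : M.det = 0 := by
      rw [Matrix.det_eq_sign_charpoly_coeff, ← hf, h0, mul_zero]
    have h2 : M.det * M'.det = 1 := by
      rw [← Matrix.det_mul, hM, Matrix.det_one]
    rw [h1, zero_mul] at h2
    exact zero_ne_one h2
  obtain ⟨a, b, hab⟩ := hcop
  have hmul : Ideal.Quotient.mk (Ideal.span {f}) Polynomial.X *
      Ideal.Quotient.mk (Ideal.span {f}) a = 1 := by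
    rw [← map_mul, ← map_one (Ideal.Quotient.mk (Ideal.span {f})), Ideal.Quotient.eq,
      Ideal.mem_span_singleton]
    refine ⟨-b, ?_⟩
    linear_combination hab
  obtain ⟨U, hU⟩ : ∃ U : (Polynomial K ⧸ Ideal.span {f})ˣ,
      (U : Polynomial K ⧸ Ideal.span {f}) = Ideal.Quotient.mk (Ideal.span {f}) Polynomial.X :=
    ⟨⟨_, _, hmul, by rw [mul_comm]; exact hmul⟩, rfl⟩
  -- divisibility
  let hdiv : DivisibleBy (Additive (Polynomial K ⧸ Ideal.span {f})ˣ) ℤ :=
    divisibleByOfSMulRightSurj _ _ (fun {n} hn x => by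
      obtain ⟨k, hk⟩ := Int.eq_nat_or_neg n
      have hk0 : k ≠ 0 := by
        rintro rfl
        apply hn
        rcases hk with h | h <;> rw [h] <;> rfl
      rcases hk with h | h
      · obtain ⟨z, hz⟩ := exists_root_unit f hf0 x.toMul k hk0
        refine ⟨Additive.ofMul z, ?_⟩
        change n • Additive.ofMul z = x
        rw [← ofMul_zpow, h, _root_.zpow_natCast, hz]
        rfl
      · obtain ⟨z, hz⟩ := exists_root_unit f hf0 (x.toMul)⁻¹ k hk0
        refine ⟨Additive.ofMul z, ?_⟩
        change n • Additive.ofMul z = x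
        rw [← ofMul_zpow, h, _root_.zpow_neg, _root_.zpow_natCast, hz, inv_inv]
        rfl)
  have hinj : Function.Injective (zmultiplesHom A e) := by
    rw [injective_iff_map_eq_zero]
    intro k hk
    rw [zmultiplesHom_apply] at hk
    by_contra hk0
    obtain ⟨m, hm⟩ := Int.eq_nat_or_neg k
    have hm0 : m ≠ 0 := by
      rintro rfl
      apply hk0
      rcases hm with h | h <;> rw [h] <;> rfl
    apply he
    refine htf m e hm0 ?_
    rcases hm with h | h
    · rwa [h, natCast_zsmul] at hk
    · rw [h, neg_smul, natCast_zsmul, neg_eq_zero] at hk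
      exact hk
  obtain ⟨h, hh⟩ := (Module.Baer.of_divisible
    (Additive (Polynomial K ⧸ Ideal.span {f})ˣ)).extension_property_addMonoidHom
      (zmultiplesHom A e) hinj (zmultiplesHom _ (Additive.ofMul U))
  have he1 : h e = Additive.ofMul U := by
    have h1 := DFunLike.congr_fun hh 1
    rw [AddMonoidHom.comp_apply, zmultiplesHom_apply, zmultiplesHom_apply, one_zsmul,
      one_zsmul] at h1
    exact h1
  refine ⟨fun x => φ ((h x).toMul : (Polynomial K ⧸ Ideal.span {f})ˣ), ?_, ?_, ?_, ?_⟩
  · change φ ((h e).toMul : (Polynomial K ⧸ Ideal.span {f})ˣ) = M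
    rw [he1, toMul_ofMul, hU, hφ, Polynomial.aeval_X]
  · change φ ((h 0).toMul : (Polynomial K ⧸ Ideal.span {f})ˣ) = 1
    rw [map_zero, toMul_zero, Units.val_one, map_one]
  · intro x y
    change φ ((h (x + y)).toMul : (Polynomial K ⧸ Ideal.span {f})ˣ) =
      φ ((h x).toMul : (Polynomial K ⧸ Ideal.span {f})ˣ) *
        φ ((h y).toMul : (Polynomial K ⧸ Ideal.span {f})ˣ)
    rw [map_add, toMul_add, Units.val_mul, map_mul]
  · intro x
    obtain ⟨p, hp⟩ := Ideal.Quotient.mk_surjective (I := Ideal.span {f})
      ((h x).toMul : (Polynomial K ⧸ Ideal.span {f})ˣ).val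
    exact ⟨p, by rw [← hφ, hp]⟩

end RLin
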