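import Pool.Agent.RLin.Vec
import Pool.Agent.RLin.Root

set_option autoImplicit false

/-!
# RLin/Blk: the block matrices of the step

`exists_B`.  Let `U ⊕ V = K ^ ι`, `M` invertible with `M U ≤ U`, `M V ≤ V`, `p, q` the projections on
`U` along `V` and on `V` along `U` (`exists_proj`), `β : A → K[M]` a homomorphism into the units with
`β 1 = M` (`exists_root_hom` with `e = 1`), `χ : A → K` with `χ (x + y) = χ x * χ y`, `χ 1 = 1`.
All `β a` are polynomials in `M`, so they commute with `p, q` and preserve `U, V`.  Put `s = T⁻¹` and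
`b a = (dg (β a)).map i * [[p + χ q, s (χ - 1) p], [s (χ - 1) q, χ p + q]]` (`χ = χ a`, constant
matrices are mapped to `L` by `i`).

* `b (x + y) = b x * b y`: `dg (β y)` commutes with the second factor, `p p = p`, `q q = q`,
  `p q = q p = 0`.  For instance the upper left block of the product of the second factors is
  `(p + χ q)(p + χ' q) + s² (χ - 1)(χ' - 1) p q = p + χ χ' q`, the upper right block is
  `(p + χ q) s (χ' - 1) p + s (χ - 1) p (χ' p + q) = s (χ χ' - 1) p`.
* `b 0 = 1` and `b 1 = (dg M).map i` since `χ 0 = χ 1 = 1` and `p + q = 1`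
  (`χ 0 = 1` because `χ 0 * χ 1 = χ 1`).
* If `χ a ≠ 1`: `T • b a` reduces to `N = dg (β a) * [[0, (χ - 1) p], [(χ - 1) q, 0]]`.  The range of
  the second factor is `rg p × rg q = U × V = Hs U V`, its kernel is `kr q × kr p = U × V` (in this
  order: `(x, y)` is in the kernel iff `p y = 0` and `q x = 0`, that is `y ∈ V`, `x ∈ U`).  `dg (β a)`
  is invertible and preserves `Hs U V`.
-/

universe u

namespace RLin

open Matrix

section

variable {K : Type u} [Field K] {ι : Type} [Fintype ι] [DecidableEq ι]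

/-- the subspace `U × V` -/
def Hs (U V : Submodule K (ι → K)) : Submodule K (ι ⊕ ι → K) where
  carrier := {u | (fun k => u (Sum.inl k)) ∈ U ∧ (fun k => u (Sum.inr k)) ∈ V}
  add_mem' := fun ha hb => ⟨U.add_mem ha.1 hb.1, V.add_mem ha.2 hb.2⟩
  zero_mem' := ⟨U.zero_mem, V.zero_mem⟩
  smul_mem' := fun c _ hu => ⟨U.smul_mem c hu.1, V.smul_mem c hu.2⟩

/-- the diagonal block matrix -/
def dg (M : Matrix ι ι K) : Matrix (ι ⊕ ι) (ι ⊕ ι) K := Matrix.fromBlocks M 0 0 M

theorem mem_Hs (U V : Submodule K (ι → K)) (u : ι ⊕ ι → K) :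
    u ∈ Hs U V ↔ (fun k => u (Sum.inl k)) ∈ U ∧ (fun k => u (Sum.inr k)) ∈ V := Iff.rfl

theorem Hs_finrank (U V : Submodule K (ι → K)) :
    Module.finrank K (Hs U V) = Module.finrank K U + Module.finrank K V := by
  let e : Hs U V ≃ₗ[K] U × V :=
    { toFun := fun u => (⟨fun k => u.1 (Sum.inl k), u.2.1⟩, ⟨fun k => u.1 (Sum.inr k), u.2.2⟩)
      map_add' := fun u w => rfl
      map_smul' := fun c u => rfl
      invFun := fun w => ⟨Sum.elim w.1.1 w.2.1, ⟨w.1.2, w.2.2⟩⟩
      left_inv := by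
        intro u
        apply Subtype.ext
        funext k
        cases k <;> rfl
      right_inv := by
        intro w
        rfl }
  rw [e.finrank_eq, Module.finrank_prod]

theorem dg_mul (M N : Matrix ι ι K) : dg (M * N) = dg M * dg N := by
  unfold dg
  rw [Matrix.fromBlocks_multiply]
  simp

theorem dg_one : dg (1 : Matrix ι ι K) = 1 := by
  unfold dg
  exact Matrix.fromBlocks_one

theorem dg_inj {M N : Matrix ι ι K} (h : dg M = dg N) : M = N := by
  unfold dg at h
  exact (Matrix.fromBlocks_inj.1 h).1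

/-- a block matrix applied to a vector -/
theorem blk_mulVec (A B C D : Matrix ι ι K) (u : ι ⊕ ι → K) :
    (fun k => (Matrix.fromBlocks A B C D *ᵥ u) (Sum.inl k)) =
        A *ᵥ (fun k => u (Sum.inl k)) + B *ᵥ (fun k => u (Sum.inr k)) ∧
      (fun k => (Matrix.fromBlocks A B C D *ᵥ u) (Sum.inr k)) =
        C *ᵥ (fun k => u (Sum.inl k)) + D *ᵥ (fun k => u (Sum.inr k)) := by
  rw [Matrix.fromBlocks_mulVec]
  exact ⟨rfl, rfl⟩

theorem dg_mulVec (M : Matrix ι ι K) (u : ι ⊕ ι → K) :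
    (fun k => (dg M *ᵥ u) (Sum.inl k)) = M *ᵥ (fun k => u (Sum.inl k)) ∧
      (fun k => (dg M *ᵥ u) (Sum.inr k)) = M *ᵥ (fun k => u (Sum.inr k)) := by
  have h := blk_mulVec M 0 0 M u
  rw [Matrix.zero_mulVec, Matrix.zero_mulVec, add_zero, zero_add] at h
  exact h

theorem exists_proj {U V : Submodule K (ι → K)} (h : IsCompl U V) :
    ∃ p q : Matrix ι ι K, p + q = 1 ∧ p * p = p ∧ q * q = q ∧ p * q = 0 ∧ q * p = 0 ∧
      rg p = U ∧ rg q = V ∧ kr p = V ∧ kr q = U ∧
      ∀ M : Matrix ι ι K, (∀ u ∈ U, M *ᵥ u ∈ U) → (∀ u ∈ V, M *ᵥ u ∈ V) →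
        M * p = p * M ∧ M * q = q * M := by
  have main : ∀ (U V : Submodule K (ι → K)) (h : IsCompl U V),
      ∃ p : Matrix ι ι K, p.mulVecLin = U.projection V h := by
    intro U V h
    exact ⟨LinearMap.toMatrix' (U.projection V h), by
      rw [← Matrix.toLin'_apply', Matrix.toLin'_toMatrix']⟩
  obtain ⟨p, hp⟩ := main U V h
  obtain ⟨q, hq⟩ := main V U h.symm
  have hpv : ∀ x, p *ᵥ x = U.projection V h x := by
    intro x
    rw [← hp]
    rfl
  have hqv : ∀ x, q *ᵥ x = V.projection U h.symm x := by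
    intro x
    rw [← hq]
    rfl
  have hext : ∀ A B : Matrix ι ι K, (∀ x, A *ᵥ x = B *ᵥ x) → A = B := by
    intro A B hAB
    apply Matrix.toLin'.injective
    apply LinearMap.ext
    intro x
    rw [Matrix.toLin'_apply, Matrix.toLin'_apply]
    exact hAB x
  have hU : ∀ x, p *ᵥ x ∈ U := fun x => by
    rw [hpv]
    exact Submodule.projection_apply_mem h x
  have hV : ∀ x, q *ᵥ x ∈ V := fun x => by
    rw [hqv]
    exact Submodule.projection_apply_mem h.symm x
  have hpU : ∀ x ∈ U, p *ᵥ x = x := fun x hx => by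
    rw [hpv]
    exact Submodule.projection_apply_of_mem_left h hx
  have hqV : ∀ x ∈ V, q *ᵥ x = x := fun x hx => by
    rw [hqv]
    exact Submodule.projection_apply_of_mem_left h.symm hx
  have hpV : ∀ x, p *ᵥ x = 0 ↔ x ∈ V := fun x => by
    rw [hpv]
    exact Submodule.projection_apply_eq_zero_iff h
  have hqU : ∀ x, q *ᵥ x = 0 ↔ x ∈ U := fun x => by
    rw [hqv]
    exact Submodule.projection_apply_eq_zero_iff h.symm
  have hsum : ∀ x, p *ᵥ x + q *ᵥ x = x := fun x => by
    rw [hpv, hqv]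
    exact Submodule.projection_add_projection_eq_self h x
  refine ⟨p, q, ?_, ?_, ?_, ?_, ?_, ?_, ?_, ?_, ?_, ?_⟩
  · refine hext _ _ fun x => ?_
    rw [Matrix.add_mulVec, Matrix.one_mulVec, hsum]
  · refine hext _ _ fun x => ?_
    rw [← Matrix.mulVec_mulVec, hpU _ (hU x)]
  · refine hext _ _ fun x => ?_
    rw [← Matrix.mulVec_mulVec, hqV _ (hV x)]
  · refine hext _ _ fun x => ?_
    rw [← Matrix.mulVec_mulVec, Matrix.zero_mulVec]
    exact (hpV _).2 (hV x)
  · refine hext _ _ fun x => ?_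
    rw [← Matrix.mulVec_mulVec, Matrix.zero_mulVec]
    exact (hqU _).2 (hU x)
  · unfold rg
    rw [hp]
    exact Submodule.range_projection h
  · unfold rg
    rw [hq]
    exact Submodule.range_projection h.symm
  · unfold kr
    rw [hp]
    exact Submodule.ker_projection h
  · unfold kr
    rw [hq]
    exact Submodule.ker_projection h.symm
  · intro M hMU hMV
    have key : ∀ x, M *ᵥ (p *ᵥ x) = p *ᵥ (M *ᵥ x) := by
      intro x
      have h1 : M *ᵥ x = M *ᵥ (p *ᵥ x) + M *ᵥ (q *ᵥ x) := by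
        rw [← Matrix.mulVec_add, hsum]
      rw [h1, Matrix.mulVec_add, hpU _ (hMU _ (hU x)), (hpV _).2 (hMV _ (hV x)), add_zero]
    have h2 : M * p = p * M := by
      refine hext _ _ fun x => ?_
      rw [← Matrix.mulVec_mulVec, ← Matrix.mulVec_mulVec]
      exact key x
    refine ⟨h2, ?_⟩
    have h3 : q = 1 - p := by
      refine hext _ _ fun x => ?_
      rw [Matrix.sub_mulVec, Matrix.one_mulVec]
      exact eq_sub_of_add_eq' (hsum x)
    rw [h3, mul_sub, sub_mul, mul_one, one_mul, h2]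

/-- a matrix commuting with `M` commutes with the polynomials in `M` -/
theorem blk_comm_aeval {p M : Matrix ι ι K} (h : M * p = p * M) (f : Polynomial K) :
    Polynomial.aeval M f * p = p * Polynomial.aeval M f := by
  induction f using Polynomial.induction_on' with
  | add f g hf hg => rw [map_add, add_mul, mul_add, hf, hg]
  | monomial n c =>
    have h1 : M ^ n * p = p * M ^ n := (Commute.pow_left h n).eq
    rw [Polynomial.aeval_monomial, mul_assoc, h1, ← mul_assoc, ← mul_assoc,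
      Algebra.commutes c p]

/-- the constant part of the second factor -/
def blkC (p q : Matrix ι ι K) (c : K) : Matrix (ι ⊕ ι) (ι ⊕ ι) K :=
  Matrix.fromBlocks (p + c • q) 0 0 (c • p + q)

/-- the polar part of the second factor -/
def blkD (p q : Matrix ι ι K) (c : K) : Matrix (ι ⊕ ι) (ι ⊕ ι) K :=
  Matrix.fromBlocks 0 ((c - 1) • p) ((c - 1) • q) 0

theorem blkC_mul {p q : Matrix ι ι K} (hpp : p * p = p) (hqq : q * q = q) (hpq : p * q = 0)
    (hqp : q * p = 0) (c d : K) : blkC p q (c * d) = blkC p q c * blkC p q d := by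
  unfold blkC
  rw [Matrix.fromBlocks_multiply]
  simp only [mul_zero, zero_mul, add_zero, zero_add]
  congr 1
  · simp only [add_mul, mul_add, Matrix.smul_mul, Matrix.mul_smul, hpp, hqq, hpq, hqp, smul_zero,
      add_zero, zero_add, smul_smul, mul_comm c d]
  · simp only [add_mul, mul_add, Matrix.smul_mul, Matrix.mul_smul, hpp, hqq, hpq, hqp, smul_zero,
      add_zero, zero_add, smul_smul, mul_comm c d]

theorem blkD_mul {p q : Matrix ι ι K} (hpq : p * q = 0)
    (hqp : q * p = 0) (c d : K) : blkD p q c * blkD p q d = 0 := by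
  unfold blkD
  rw [Matrix.fromBlocks_multiply]
  simp only [mul_zero, zero_mul, add_zero, zero_add, Matrix.smul_mul, Matrix.mul_smul, hpq, hqp,
    smul_zero]
  exact Matrix.fromBlocks_zero

theorem blkCD_mul {p q : Matrix ι ι K} (hpp : p * p = p) (hqq : q * q = q) (hpq : p * q = 0)
    (hqp : q * p = 0) (c d : K) :
    blkC p q c * blkD p q d + blkD p q c * blkC p q d = blkD p q (c * d) := by
  unfold blkC blkD
  rw [Matrix.fromBlocks_multiply, Matrix.fromBlocks_multiply, Matrix.fromBlocks_add]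
  simp only [mul_zero, zero_mul, add_zero, zero_add]
  congr 1
  · simp only [add_mul, mul_add, Matrix.smul_mul, Matrix.mul_smul, hpp, hqq, hpq, hqp, smul_zero,
      add_zero, zero_add, smul_smul, ← add_smul]
    congr 1
    ring
  · simp only [add_mul, mul_add, Matrix.smul_mul, Matrix.mul_smul, hpp, hqq, hpq, hqp, smul_zero,
      add_zero, zero_add, smul_smul, ← add_smul]
    congr 1
    ring

theorem blkC_one {p q : Matrix ι ι K} (h : p + q = 1) : blkC p q 1 = 1 := by
  unfold blkC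
  rw [one_smul, one_smul, h]
  exact Matrix.fromBlocks_one

theorem blkD_one (p q : Matrix ι ι K) : blkD p q 1 = 0 := by
  unfold blkD
  rw [sub_self, zero_smul, zero_smul]
  exact Matrix.fromBlocks_zero

theorem blkC_comm {p q N : Matrix ι ι K} (hp : N * p = p * N) (hq : N * q = q * N) (c : K) :
    dg N * blkC p q c = blkC p q c * dg N := by
  unfold dg blkC
  rw [Matrix.fromBlocks_multiply, Matrix.fromBlocks_multiply]
  simp only [mul_zero, zero_mul, add_zero, zero_add, mul_add, add_mul, Matrix.smul_mul,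
    Matrix.mul_smul, hp, hq]

theorem blkD_comm {p q N : Matrix ι ι K} (hp : N * p = p * N) (hq : N * q = q * N) (c : K) :
    dg N * blkD p q c = blkD p q c * dg N := by
  unfold dg blkD
  rw [Matrix.fromBlocks_multiply, Matrix.fromBlocks_multiply]
  simp only [mul_zero, zero_mul, add_zero, zero_add, Matrix.smul_mul, Matrix.mul_smul, hp, hq]

/-- range and kernel of the polar part -/
theorem blkD_rg_kr {U V : Submodule K (ι → K)} {p q N N' : Matrix ι ι K}
    (hpp : p * p = p) (hqq : q * q = q)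
    (rp : rg p = U) (rq : rg q = V) (kp : kr p = V) (kq : kr q = U) (hp : N * p = p * N)
    (hq : N * q = q * N) (hN : N * N' = 1) {c : K} (hc : c ≠ 1) :
    rg (dg N * blkD p q c) = Hs U V ∧ kr (dg N * blkD p q c) = Hs U V := by
  have hc' : c - 1 ≠ 0 := sub_ne_zero.2 hc
  have hN' : N' * N = 1 := mul_eq_one_comm.1 hN
  have mU : ∀ x, x ∈ U ↔ p *ᵥ x = x := by
    intro x
    rw [← rp]
    constructor
    · rintro ⟨y, rfl⟩
      show p *ᵥ (p *ᵥ y) = p *ᵥ y
      rw [Matrix.mulVec_mulVec, hpp]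
    · intro hx
      exact ⟨x, hx⟩
  have mV : ∀ x, x ∈ V ↔ q *ᵥ x = x := by
    intro x
    rw [← rq]
    constructor
    · rintro ⟨y, rfl⟩
      show q *ᵥ (q *ᵥ y) = q *ᵥ y
      rw [Matrix.mulVec_mulVec, hqq]
    · intro hx
      exact ⟨x, hx⟩
  have mV' : ∀ x, x ∈ V ↔ p *ᵥ x = 0 := by
    intro x
    rw [← kp]
    exact Iff.rfl
  have mU' : ∀ x, x ∈ U ↔ q *ᵥ x = 0 := by
    intro x
    rw [← kq]
    exact Iff.rfl
  have hval : ∀ u : ι ⊕ ι → K,
      (fun k => ((dg N * blkD p q c) *ᵥ u) (Sum.inl k)) =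
        (c - 1) • (N *ᵥ (p *ᵥ fun k => u (Sum.inr k))) ∧
      (fun k => ((dg N * blkD p q c) *ᵥ u) (Sum.inr k)) =
        (c - 1) • (N *ᵥ (q *ᵥ fun k => u (Sum.inl k))) := by
    intro u
    have h1 : dg N * blkD p q c =
        Matrix.fromBlocks 0 ((c - 1) • (N * p)) ((c - 1) • (N * q)) 0 := by
      unfold dg blkD
      rw [Matrix.fromBlocks_multiply]
      simp only [mul_zero, zero_mul, add_zero, zero_add, Matrix.mul_smul]
    have h2 := blk_mulVec 0 ((c - 1) • (N * p)) ((c - 1) • (N * q)) 0 u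
    rw [← h1, Matrix.zero_mulVec, Matrix.zero_mulVec, zero_add, add_zero, Matrix.smul_mulVec,
      Matrix.smul_mulVec] at h2
    rw [Matrix.mulVec_mulVec, Matrix.mulVec_mulVec]
    exact h2
  constructor
  · ext w
    rw [mem_Hs]
    constructor
    · rintro ⟨u, rfl⟩
      obtain ⟨h1, h2⟩ := hval u
      constructor
      · show (fun k => ((dg N * blkD p q c) *ᵥ u) (Sum.inl k)) ∈ U
        rw [h1]
        refine U.smul_mem _ ((mU _).2 ?_)
        rw [Matrix.mulVec_mulVec, ← hp, ← Matrix.mulVec_mulVec, Matrix.mulVec_mulVec _ p p, hpp]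
      · show (fun k => ((dg N * blkD p q c) *ᵥ u) (Sum.inr k)) ∈ V
        rw [h2]
        refine V.smul_mem _ ((mV _).2 ?_)
        rw [Matrix.mulVec_mulVec, ← hq, ← Matrix.mulVec_mulVec, Matrix.mulVec_mulVec _ q q, hqq]
    · rintro ⟨h1, h2⟩
      refine ⟨Sum.elim ((c - 1)⁻¹ • (N' *ᵥ fun k => w (Sum.inr k)))
        ((c - 1)⁻¹ • (N' *ᵥ fun k => w (Sum.inl k))), ?_⟩
      obtain ⟨h3, h4⟩ := hval (Sum.elim ((c - 1)⁻¹ • (N' *ᵥ fun k => w (Sum.inr k)))
        ((c - 1)⁻¹ • (N' *ᵥ fun k => w (Sum.inl k))))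
      have h5 : (fun k => (Sum.elim ((c - 1)⁻¹ • (N' *ᵥ fun k => w (Sum.inr k)))
          ((c - 1)⁻¹ • (N' *ᵥ fun k => w (Sum.inl k))) : ι ⊕ ι → K) (Sum.inr k)) =
          (c - 1)⁻¹ • (N' *ᵥ fun k => w (Sum.inl k)) := rfl
      have h6 : (fun k => (Sum.elim ((c - 1)⁻¹ • (N' *ᵥ fun k => w (Sum.inr k)))
          ((c - 1)⁻¹ • (N' *ᵥ fun k => w (Sum.inl k))) : ι ⊕ ι → K) (Sum.inl k)) =
          (c - 1)⁻¹ • (N' *ᵥ fun k => w (Sum.inr k)) := rfl
      rw [h5, Matrix.mulVec_smul, Matrix.mulVec_smul, smul_smul, mul_inv_cancel₀ hc', one_smul,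
        Matrix.mulVec_mulVec, Matrix.mulVec_mulVec, hp, mul_assoc, hN, mul_one,
        (mU _).1 h1] at h3
      rw [h6, Matrix.mulVec_smul, Matrix.mulVec_smul, smul_smul, mul_inv_cancel₀ hc', one_smul,
        Matrix.mulVec_mulVec, Matrix.mulVec_mulVec, hq, mul_assoc, hN, mul_one,
        (mV _).1 h2] at h4
      funext k
      cases k with
      | inl k => exact congrFun h3 k
      | inr k => exact congrFun h4 k
  · ext u
    rw [mem_Hs]
    obtain ⟨h1, h2⟩ := hval u
    have hNinj : ∀ x, N *ᵥ x = 0 → x = 0 := by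
      intro x hx
      have h3 : N' *ᵥ (N *ᵥ x) = 0 := by rw [hx, Matrix.mulVec_zero]
      rwa [Matrix.mulVec_mulVec, hN', Matrix.one_mulVec] at h3
    constructor
    · intro hu
      have hu' : (dg N * blkD p q c) *ᵥ u = 0 := hu
      constructor
      · have h3 : (c - 1) • (N *ᵥ (q *ᵥ fun k => u (Sum.inl k))) = 0 := by
          rw [← h2, hu']
          rfl
        exact (mU' _).2 (hNinj _ ((smul_eq_zero.1 h3).resolve_left hc'))
      · have h3 : (c - 1) • (N *ᵥ (p *ᵥ fun k => u (Sum.inr k))) = 0 := by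
          rw [← h1, hu']
          rfl
        exact (mV' _).2 (hNinj _ ((smul_eq_zero.1 h3).resolve_left hc'))
    · rintro ⟨h3, h4⟩
      rw [(mV' _).1 h4, Matrix.mulVec_zero, smul_zero] at h1
      rw [(mU' _).1 h3, Matrix.mulVec_zero, smul_zero] at h2
      show (dg N * blkD p q c) *ᵥ u = 0
      funext k
      cases k with
      | inl k => exact congrFun h1 k
      | inr k => exact congrFun h2 k

end

variable {K L Γ : Type u} [Field K] [Field L] [LinearOrderedCommGroupWithZero Γ]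
variable {ι : Type} [Fintype ι] [DecidableEq ι]

theorem exists_B [IsAlgClosed K] [CharZero K] (P : Place K L Γ) {A : Type u} [Ring A]
    [Nontrivial A] (htf : ∀ (n : ℕ) (a : A), n ≠ 0 → n • a = 0 → a = 0) (χ : A → K)
    (hχ : ∀ x y, χ (x + y) = χ x * χ y) (hχ1 : χ 1 = 1) {U V : Submodule K (ι → K)}
    (hUV : IsCompl U V) {M M' : Matrix ι ι K} (hM : M * M' = 1) (hU : ∀ u ∈ U, M *ᵥ u ∈ U)
    (hV : ∀ u ∈ V, M *ᵥ u ∈ V) :
    ∃ b : A → Matrix (ι ⊕ ι) (ι ⊕ ι) L, (∀ x y, b (x + y) = b x * b y) ∧ b 0 = 1 ∧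
      b 1 = (dg M).map P.i ∧
      ∀ a, χ a ≠ 1 → ∃ N : Matrix (ι ⊕ ι) (ι ⊕ ι) K, P.Rm (P.T • b a) N ∧
        rg N = Hs U V ∧ kr N = Hs U V := by
  obtain ⟨p, q, hpq1, hpp, hqq, hpq, hqp, rp, rq, kp, kq, hcomm⟩ := exists_proj hUV
  obtain ⟨hMp, hMq⟩ := hcomm M hU hV
  obtain ⟨β, hβ1, hβ0, hβ, hβp⟩ := exists_root_hom htf (1 : A) one_ne_zero M M' hM
  have hχ0 : χ 0 = 1 := by
    have h1 := hχ 0 1
    rw [zero_add, hχ1, mul_one] at h1
    exact h1.symm
  have hp : ∀ a, β a * p = p * β a := by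
    intro a
    obtain ⟨f, hf⟩ := hβp a
    rw [hf]
    exact blk_comm_aeval hMp f
  have hq : ∀ a, β a * q = q * β a := by
    intro a
    obtain ⟨f, hf⟩ := hβp a
    rw [hf]
    exact blk_comm_aeval hMq f
  set φ : Matrix (ι ⊕ ι) (ι ⊕ ι) K →+* Matrix (ι ⊕ ι) (ι ⊕ ι) L := P.i.mapMatrix with hφ
  have hφa : ∀ N, φ N = N.map P.i := fun N => rfl
  set s : L := P.T⁻¹ with hs
  have hTs : P.T * s = 1 := mul_inv_cancel₀ P.T_ne
  refine ⟨fun a => φ (dg (β a)) * (φ (blkC p q (χ a)) + s • φ (blkD p q (χ a))), ?_, ?_, ?_, ?_⟩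
  · intro x y
    have h1 : φ (blkC p q (χ x)) * φ (blkC p q (χ y)) = φ (blkC p q (χ (x + y))) := by
      rw [← map_mul, ← blkC_mul hpp hqq hpq hqp, hχ]
    have h2 : φ (blkC p q (χ x)) * φ (blkD p q (χ y)) + φ (blkD p q (χ x)) * φ (blkC p q (χ y)) =
        φ (blkD p q (χ (x + y))) := by
      rw [← map_mul, ← map_mul, ← map_add, blkCD_mul hpp hqq hpq hqp, hχ]
    have h3 : φ (blkD p q (χ x)) * φ (blkD p q (χ y)) = 0 := by
      rw [← map_mul, blkD_mul hpq hqp, map_zero]
    have h4 : (φ (blkC p q (χ x)) + s • φ (blkD p q (χ x))) *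
        (φ (blkC p q (χ y)) + s • φ (blkD p q (χ y))) =
        φ (blkC p q (χ (x + y))) + s • φ (blkD p q (χ (x + y))) := by
      rw [← h1, ← h2, add_mul, mul_add, mul_add, Matrix.smul_mul, Matrix.mul_smul,
        Matrix.smul_mul, Matrix.mul_smul, h3, smul_zero, smul_zero, add_zero, smul_add]
      abel
    have h5 : (φ (blkC p q (χ x)) + s • φ (blkD p q (χ x))) * φ (dg (β y)) =
        φ (dg (β y)) * (φ (blkC p q (χ x)) + s • φ (blkD p q (χ x))) := by
      rw [add_mul, mul_add, Matrix.smul_mul, Matrix.mul_smul, ← map_mul, ← map_mul, ← map_mul,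
        ← map_mul, blkC_comm (hp y) (hq y), blkD_comm (hp y) (hq y)]
    show φ (dg (β (x + y))) * (φ (blkC p q (χ (x + y))) + s • φ (blkD p q (χ (x + y)))) = _
    rw [← h4, hβ, dg_mul, map_mul, mul_assoc, mul_assoc, ← mul_assoc (φ (dg (β y))), ← h5,
      mul_assoc]
  · show φ (dg (β 0)) * (φ (blkC p q (χ 0)) + s • φ (blkD p q (χ 0))) = 1
    rw [hβ0, hχ0, dg_one, blkC_one hpq1, blkD_one, map_one, map_zero, smul_zero, add_zero, mul_one]
  · show φ (dg (β 1)) * (φ (blkC p q (χ 1)) + s • φ (blkD p q (χ 1))) = _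
    rw [hβ1, hχ1, blkC_one hpq1, blkD_one, map_one, map_zero, smul_zero, add_zero, mul_one]
    rfl
  · intro a ha
    have hNN : β a * β (-a) = 1 := by rw [← hβ, add_neg_cancel, hβ0]
    refine ⟨dg (β a) * blkD p q (χ a), ?_, ?_⟩
    · have h1 : P.T • (φ (dg (β a)) * (φ (blkC p q (χ a)) + s • φ (blkD p q (χ a)))) =
          (dg (β a)).map P.i * (P.T • φ (blkC p q (χ a)) + φ (blkD p q (χ a))) := by
        rw [← Matrix.mul_smul, smul_add, smul_smul, hTs, one_smul]
        rfl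
      show P.Rm (P.T • (φ (dg (β a)) * (φ (blkC p q (χ a)) + s • φ (blkD p q (χ a))))) _
      rw [h1]
      refine Rm_mul P (Rm_map P (dg (β a))) ?_
      intro j k
      have h2 : (P.T • φ (blkC p q (χ a)) + φ (blkD p q (χ a))) j k -
          P.i (blkD p q (χ a) j k) = P.T * P.i (blkC p q (χ a) j k) := by
        rw [Matrix.add_apply, Matrix.smul_apply, smul_eq_mul, hφa, hφa, Matrix.map_apply,
          Matrix.map_apply, add_sub_cancel_right]
      rw [h2, map_mul]
      calc P.v P.T * P.v (P.i (blkC p q (χ a) j k)) ≤ P.v P.T * 1 := by gcongr; exact P.v_i _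
        _ < 1 := by rw [mul_one]; exact P.T_lt
    · exact blkD_rg_kr hpp hqq rp rq kp kq (hp a) (hq a) hNN ha

end RLin
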