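import Mathlib

set_option autoImplicit false

/-!
# RLin/Chi: a character of `A` with kernel `ℤ e`

Let `A` be a torsion-free commutative group, `e ∈ A`, `e ≠ 0`.  There are an algebraically closed field
`K` of characteristic zero and a map `χ : A → K` with `χ (x + y) = χ x * χ y` and
`χ x = 1` iff `x ∈ ℤ e`.

Proof.  Let `V` be a divisible torsion-free group (a vector space over `ℚ`) containing `A`, for
instance `V = ℚ ⊗ A` (the map `A → ℚ ⊗ A` is injective since `A` is torsion-free;
`Module.Flat` / `IsLocalizedModule` / or use the localization of the `ℤ`-module `A` at the nonzero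
integers).  Extend `e` to a basis of `V` over `ℚ`; let `B` be the set of the other basis vectors, so
that every `x ∈ V` is uniquely `r(x) • e + ∑_{b ∈ B} r_b(x) • b` with rational coefficients.

Let `K = AlgebraicClosure (FractionRing (MvPolynomial B ℂ))` (put `ULift ℂ` if the universe
requires it), `t_b ∈ K` the variables.  The group `Kˣ` is divisible, hence injective as a `ℤ`-module
(`Module.Baer.of_divisible`, `Module.Baer.extension_property`).  So the homomorphism from the free
abelian group on `B` to `Kˣ` which sends `b` to `t_b` extends to a homomorphism `θ : W → Kˣ`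
from the `ℚ`-vector space `W` with basis `B` (for instance `B →₀ ℚ`).  Define
`χ(x) = exp(2 π i r(x)) * θ(∑ r_b(x) b)`.

It is multiplicative.  `χ(k e) = exp(2 π i k) = 1`.  Conversely let `χ(x) = 1`.  Choose `n ≥ 1` such that
`n r(x)` and all `n r_b(x)` are integers (finitely many are not zero).  Then
`1 = χ(n x) = ∏ t_b ^ (n r_b(x))`.  The monomials in the variables are different, so
`n r_b(x) = 0` and `r_b(x) = 0` for all `b`.  So `χ(x) = exp(2 π i r(x)) = 1` and `r(x)` is an
integer, `x = r(x) e ∈ ℤ e`.

We also need infinitely many elements of `K`: given a set `Y` we want `K` to contain a family of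
different elements indexed by `Y`; replace `ℂ[B]` by `ℂ[B ⊕ Y]`, the elements are the variables.
-/

universe u

namespace RLin

theorem exists_chi {A : Type u} [AddCommGroup A]
    (htf : ∀ (n : ℕ) (a : A), n ≠ 0 → n • a = 0 → a = 0) (e : A) (he : e ≠ 0) (Y : Type u) :
    ∃ (K : Type u) (_ : Field K) (_ : IsAlgClosed K) (_ : CharZero K) (χ : A → K) (t : Y → K),
      (∀ x y, χ (x + y) = χ x * χ y) ∧ (∀ x, χ x = 1 ↔ ∃ k : ℤ, x = k • e) ∧
      Function.Injective t := by
  classical
  have : IsAddTorsionFree A := by
    refine ⟨fun n hn x y hxy => ?_⟩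
    have h1 : n • (x - y) = 0 := by
      rw [smul_sub]
      exact sub_eq_zero.2 hxy
    exact sub_eq_zero.1 (htf n _ hn h1)
  let V := DivisibleHull A
  let ι : A →+ V := DivisibleHull.coeAddMonoidHom A
  have hι : Function.Injective ι := DivisibleHull.coe_injective
  have hιe : ι e ≠ 0 := by
    intro h
    apply he
    apply hι
    rw [h, map_zero]
  obtain ⟨φ, hφ⟩ : ∃ φ : Module.Dual ℚ V, φ (ι e) ≠ 0 := by
    by_contra hcon
    push Not at hcon
    exact hιe ((Module.forall_dual_apply_eq_zero_iff ℚ (ι e)).1 hcon)
  let r : V →ₗ[ℚ] ℚ := (φ (ι e))⁻¹ • φ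
  have hr : r (ι e) = 1 := by
    show (φ (ι e))⁻¹ * φ (ι e) = 1
    exact inv_mul_cancel₀ hφ
  let W := V × (Y →₀ ℚ)
  let R := AddMonoidAlgebra ℂ W
  have : IsDomain R := NoZeroDivisors.to_isDomain R
  let F := FractionRing R
  let K := AlgebraicClosure F
  let f : R →+* K := (algebraMap F K).comp (algebraMap R F)
  have hf : Function.Injective f := by
    intro x y hxy
    have h1 : algebraMap R F x = algebraMap R F y := (algebraMap F K).injective hxy
    exact IsFractionRing.injective R F h1
  have hchar : CharZero K := by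
    have g : ℂ →+* K := f.comp (algebraMap ℂ R)
    exact charZero_of_injective_ringHom g.injective
  let pr : A → V := fun x => ι x - r (ι x) • ι e
  have hpr : ∀ x y, pr (x + y) = pr x + pr y := by
    intro x y
    show ι (x + y) - r (ι (x + y)) • ι e = (ι x - r (ι x) • ι e) + (ι y - r (ι y) • ι e)
    rw [map_add, map_add, add_smul]
    abel
  refine ⟨K, inferInstance, inferInstance, hchar,
    fun x => f (AddMonoidAlgebra.single ((pr x, 0) : W)
      (Complex.exp (2 * Real.pi * Complex.I * ((r (ι x) : ℚ) : ℂ)))),
    fun y => f (AddMonoidAlgebra.single ((0, Finsupp.single y 1) : W) (1 : ℂ)), ?_, ?_, ?_⟩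
  · intro x y
    show f _ = f _ * f _
    rw [← map_mul, AddMonoidAlgebra.single_mul_single]
    congr 2
    · refine Prod.ext (hpr x y) ?_
      exact (add_zero (0 : Y →₀ ℚ)).symm
    · rw [← Complex.exp_add]
      congr 1
      rw [map_add, map_add]
      push_cast
      ring
  · intro x
    have h1 : (1 : R) = AddMonoidAlgebra.single (0 : W) (1 : ℂ) := AddMonoidAlgebra.one_def
    constructor
    · intro hx
      have h2 : (AddMonoidAlgebra.single ((pr x, 0) : W)
          (Complex.exp (2 * Real.pi * Complex.I * ((r (ι x) : ℚ) : ℂ))) : R) = 1 := by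
        apply hf
        rw [map_one]
        exact hx
      rw [h1] at h2
      have h3 := AddMonoidAlgebra.single_inj.1 h2
      rcases h3 with ⟨h3, h4⟩ | ⟨h3, h4⟩
      · have h5 : pr x = 0 := congrArg Prod.fst h3
        obtain ⟨k, hk⟩ := Complex.exp_eq_one_iff.1 h4
        have h6 : ((r (ι x) : ℚ) : ℂ) = k := by
          have hpi : (2 * Real.pi * Complex.I : ℂ) ≠ 0 := Complex.two_pi_I_ne_zero
          apply mul_left_cancel₀ hpi
          rw [hk]
          ring
        have h7 : r (ι x) = (k : ℚ) := by exact_mod_cast h6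
        refine ⟨k, ?_⟩
        apply hι
        have h8 : ι x = r (ι x) • ι e := sub_eq_zero.1 h5
        rw [h8, h7, map_zsmul, Int.cast_smul_eq_zsmul]
      · exact absurd h3 (Complex.exp_ne_zero _)
    · rintro ⟨k, rfl⟩
      have h2 : ι (k • e) = (k : ℚ) • ι e := by
        rw [map_zsmul, Int.cast_smul_eq_zsmul]
      have h3 : r (ι (k • e)) = k := by
        rw [h2, map_smul, hr]
        simp
      have h4 : pr (k • e) = 0 := by
        show ι (k • e) - r (ι (k • e)) • ι e = 0
        rw [h3, h2, sub_self]
      have h5 : Complex.exp (2 * Real.pi * Complex.I * ((r (ι (k • e)) : ℚ) : ℂ)) = 1 := by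
        rw [h3, Complex.exp_eq_one_iff]
        exact ⟨k, by push_cast; ring⟩
      show f _ = 1
      rw [h4, h5, ← map_one f, h1]
      rfl
  · intro y y' hy
    have h1 := hf hy
    have h2 := AddMonoidAlgebra.single_inj.1 h1
    rcases h2 with ⟨h2, -⟩ | ⟨h2, -⟩
    · have h3 : (Finsupp.single y (1 : ℚ)) = Finsupp.single y' 1 := congrArg Prod.snd h2
      rcases (Finsupp.single_eq_single_iff _ _ _ _).1 h3 with ⟨h4, -⟩ | ⟨h4, -⟩
      · exact h4
      · exact absurd h4 one_ne_zero
    · exact absurd h2 one_ne_zero

end RLin
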