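import Mathlib

set_option autoImplicit false

/-!
# RLin/Colim: the union of a sequence of groups

The direct limit of a sequence of injective homomorphisms `f n : G n → G (n+1)`.  One can use
`DirectLimit` (`Mathlib/Algebra/Colimit/DirectLimit.lean`) with the maps `Nat.leRecOn`, or define `H` as
a quotient of `Σ n, G n`, or realise `H` inside `∏ n, G n` modulo eventual equality (germs at infinity
of sequences `(x_m)` which are eventually given by the maps `f`).
-/

universe u

namespace RLin

/-- The transition maps of the direct system. -/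
def colimTr (G : ℕ → Type u) [∀ n, Group (G n)] (f : ∀ n, G n →* G (n + 1)) (n m : ℕ)
    (h : n ≤ m) : G n →* G m where
  toFun := Nat.leRecOn h (fun {k} => f k)
  map_one' := by
    induction m, h using Nat.le_induction with
    | base => exact Nat.leRecOn_self _
    | succ m hm ih => rw [Nat.leRecOn_succ hm, ih, map_one]
  map_mul' := by
    intro x y
    induction m, h using Nat.le_induction with
    | base => simp only [Nat.leRecOn_self]
    | succ m hm ih =>
      rw [Nat.leRecOn_succ hm, Nat.leRecOn_succ hm, Nat.leRecOn_succ hm, ih, map_mul]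

theorem exists_colim (G : ℕ → Type u) [∀ n, Group (G n)] (f : ∀ n, G n →* G (n + 1))
    (hf : ∀ n, Function.Injective (f n)) :
    ∃ (H : Type u) (_ : Group H) (e : ∀ n, G n →* H), (∀ n x, e (n + 1) (f n x) = e n x) ∧
      (∀ n, Function.Injective (e n)) ∧ ∀ h : H, ∃ n x, e n x = h := by
  have hsys : DirectedSystem G (fun i j h => (colimTr G f i j h : G i → G j)) :=
    { map_self := fun i x => Nat.leRecOn_self x
      map_map := fun k j i hij hjk x => (Nat.leRecOn_trans hij hjk x).symm }
  refine ⟨DirectLimit G (fun i j h => colimTr G f i j h), inferInstance,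
    fun n => MonoidHom.mk' (fun x => ⟦⟨n, x⟩⟧) (fun x y => (DirectLimit.mul_def n x y).symm), ?_, ?_, ?_⟩
  · intro n x
    have h := DirectLimit.mk_apply (F := G) (f := fun i j h => colimTr G f i j h) n (n + 1) x
      (Nat.le_succ n)
    refine Eq.trans ?_ h
    show (⟦⟨n + 1, f n x⟩⟧ : DirectLimit G (fun i j h => colimTr G f i j h)) = _
    have h2 : colimTr G f n (n + 1) (Nat.le_succ n) x = f n x := Nat.leRecOn_succ' x
    rw [h2]
  · intro n
    exact DirectLimit.mk_injective (F := G) (fun i j h => colimTr G f i j h)
      (fun i j hij => Nat.leRecOn_injective hij (fun {k} => f k) hf) n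
  · intro h
    obtain ⟨n, x, hx⟩ := DirectLimit.exists_eq_mk (fun i j h => colimTr G f i j h) h
    exact ⟨n, x, hx.symm⟩

end RLin
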