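import Mathlib

set_option autoImplicit false

/-!
# Linearity of the levels of free exponential groups: definitions

`A` is an associative ring with torsion-free additive group.  The free `A`-group is the union of
the levels `L_0 = <X>`, `L_(d+1) = <g ^ a : g in L_d, a in A>`, and every level `L_d` is linear of
degree `2 ^ (d + 1)` over a field of characteristic zero.  This file contains the definitions.
-/

universe u

namespace RLin

open Matrix

/-- A place of the field `L` with residue field the subfield `K`, with a distinguished element `T`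
of value `< 1` which is small enough to be cofinal in the value group. -/
structure Place (K L Γ : Type u) [Field K] [Field L] [LinearOrderedCommGroupWithZero Γ] where
  /-- the inclusion of the residue field -/
  i : K →+* L
  /-- the valuation -/
  v : Valuation L Γ
  v_i : ∀ a, v (i a) ≤ 1
  res : ∀ x, v x ≤ 1 → ∃ a, v (x - i a) < 1
  /-- the small element -/
  T : L
  T_ne : T ≠ 0
  T_lt : v T < 1
  arch : ∀ y, y ≠ 0 → ∃ M : ℕ, v T ^ M ≤ v y

section Mat

variable {K : Type u} [Field K] {ι : Type} [Fintype ι] [DecidableEq ι]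

/-- the range of a square matrix -/
def rg (M : Matrix ι ι K) : Submodule K (ι → K) := LinearMap.range M.mulVecLin

/-- the kernel of a square matrix -/
def kr (M : Matrix ι ι K) : Submodule K (ι → K) := LinearMap.ker M.mulVecLin

/-- the image of a subspace under a matrix -/
def im (M : Matrix ι ι K) (E : Submodule K (ι → K)) : Submodule K (ι → K) := E.map M.mulVecLin

end Mat

section Pl

variable {K L Γ : Type u} [Field K] [Field L] [LinearOrderedCommGroupWithZero Γ]
variable {ι : Type} [Fintype ι] [DecidableEq ι]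

/-- the norm of a vector -/
def Place.N (P : Place K L Γ) (u : ι → L) : Γ := Finset.univ.sup fun k => P.v (u k)

/-- the vector `u` reduces to `a` -/
def Place.Rv (P : Place K L Γ) (u : ι → L) (a : ι → K) : Prop := ∀ k, P.v (u k - P.i (a k)) < 1

/-- the matrix `M` reduces to `N` -/
def Place.Rm (P : Place K L Γ) (M : Matrix ι ι L) (N : Matrix ι ι K) : Prop :=
  ∀ j k, P.v (M j k - P.i (N j k)) < 1

/-- the matrix `M` is integral -/
def Place.Int (P : Place K L Γ) (M : Matrix ι ι L) : Prop := ∀ j k, P.v (M j k) ≤ 1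

open Classical in
/-- the reduction of a matrix -/
noncomputable def Place.red (P : Place K L Γ) (M : Matrix ι ι L) : Matrix ι ι K :=
  fun j k => if h : P.v (M j k) ≤ 1 then (P.res _ h).choose else 0

/-- the least `n` for which `T ^ n • M` is integral -/
noncomputable def Place.len (P : Place K L Γ) (M : Matrix ι ι L) : ℕ :=
  sInf {n : ℕ | P.Int (P.T ^ n • M)}

/-- the leading coefficient of a matrix: the reduction of `T ^ len M • M` -/
noncomputable def Place.lc (P : Place K L Γ) (M : Matrix ι ι L) : Matrix ι ι K :=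
  P.red (P.T ^ P.len M • M)

/-- all reductions of integral vectors of `E` are in `D` -/
def Place.Over (P : Place K L Γ) (E : Submodule L (ι → L)) (D : Submodule K (ι → K)) : Prop :=
  ∀ u ∈ E, ∀ a, P.Rv u a → a ∈ D

/-- the part of the characteristic polynomial of `M` which belongs to the eigenvalues which are
units -/
noncomputable def Place.up (P : Place K L Γ) (M : Matrix ι ι L) : Polynomial L :=
  open Classical in
  ((M.charpoly.roots.filter fun x => P.v x = 1).map fun x => Polynomial.X - Polynomial.C x).prod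

/-- the sum of the generalised eigenspaces of `M` for the eigenvalues which are units -/
noncomputable def Place.Ep (P : Place K L Γ) (M : Matrix ι ι L) : Submodule L (ι → L) :=
  kr (Polynomial.aeval M (P.up M))

variable {G : Type u} [Group G]

/-- the length of a group element -/
noncomputable def Place.l (P : Place K L Γ) (ρ : G →* Matrix ι ι L) (x : G) : ℕ := P.len (ρ x)

/-- the leading coefficient of a group element -/
noncomputable def Place.Om (P : Place K L Γ) (ρ : G →* Matrix ι ι L) (x : G) : Matrix ι ι K :=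
  P.lc (ρ x)

/-- the direction of a group element -/
noncomputable def Place.D (P : Place K L Γ) (ρ : G →* Matrix ι ι L) (x : G) :
    Submodule K (ι → K) := rg (P.Om ρ x)

/-- Ping-pong data: a representation `ρ` of `G`, a subgroup `G₀` on which it is constant, and a set
`X` of letters of length one. -/
structure PP (P : Place K L Γ) (ρ : G →* Matrix ι ι L) (G₀ : Subgroup G) (X : Set G) : Prop where
  const : ∀ g ∈ G₀, ∃ N : Matrix ι ι K, ρ g = N.map P.i
  inj₀ : ∀ g ∈ G₀, ρ g = 1 → g = 1
  X_inv : ∀ x ∈ X, x⁻¹ ∈ X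
  X_mul : ∀ g ∈ G₀, ∀ x ∈ X, g * x ∈ X
  gen : Subgroup.closure ((G₀ : Set G) ∪ X) = ⊤
  X_len : ∀ x ∈ X, P.l ρ x = 1
  ker_eq : ∀ x ∈ X, kr (P.Om ρ x) = P.D ρ x⁻¹
  rank : ∀ x ∈ X, 2 * Module.finrank K (P.D ρ x) = Fintype.card ι
  dich : ∀ x ∈ X, ∀ y ∈ X, P.D ρ x = P.D ρ y ∨ Disjoint (P.D ρ x) (P.D ρ y)
  merge : ∀ x ∈ X, ∀ y ∈ X, P.D ρ y = P.D ρ x⁻¹ →
    x * y ∈ G₀ ∨ (x * y ∈ X ∧ P.D ρ (x * y) = P.D ρ x)
  fix : ∀ g ∈ G₀, g ≠ 1 → ∀ x ∈ X, ∀ y ∈ X, P.D ρ (g * x) = P.D ρ x → P.D ρ (g * y) = P.D ρ y →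
    P.D ρ x = P.D ρ y
  two : ∀ g ∈ G₀, g * g = 1 → g = 1
  two' : ∀ x ∈ X, P.D ρ x = P.D ρ x⁻¹ → x * x ≠ 1

/-- The geometry of a group with ping-pong data: every element has a length and a leading
coefficient whose range and kernel are directions. -/
structure Geo (P : Place K L Γ) (ρ : G →* Matrix ι ι L) (G₀ : Subgroup G) (X : Set G) : Prop
    extends PP P ρ G₀ X where
  len_zero : ∀ x, P.l ρ x = 0 ↔ x ∈ G₀
  len_inv : ∀ x, P.l ρ x⁻¹ = P.l ρ x
  om_ne : ∀ x, P.Om ρ x ≠ 0
  om_inv : ∀ x, P.l ρ x = 0 → P.Om ρ x * P.Om ρ x⁻¹ = 1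
  ker_all : ∀ x, P.l ρ x ≠ 0 → kr (P.Om ρ x) = P.D ρ x⁻¹
  dir : ∀ x, P.l ρ x ≠ 0 → ∃ y ∈ X, ∃ z, x = y * z ∧ P.l ρ x = P.l ρ z + 1 ∧ P.D ρ x = P.D ρ y

/-- an element is hyperbolic if its direction differs from the direction of its inverse -/
def Place.Hyp (P : Place K L Γ) (ρ : G →* Matrix ι ι L) (x : G) : Prop :=
  P.l ρ x ≠ 0 ∧ P.D ρ x ≠ P.D ρ x⁻¹

/-- the attracting subspace of a hyperbolic element -/
noncomputable def Place.E (P : Place K L Γ) (ρ : G →* Matrix ι ι L) (w : G) :
    Submodule L (ι → L) := P.Ep (P.T ^ P.l ρ w • ρ w)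

end Pl

section Tow

variable {K : Type u} [Field K] {ι : Type} [Fintype ι] [DecidableEq ι] {G : Type u} [Group G]

/-- A system of cyclic subgroups `<c i>` with pairs `W i true`, `W i false` of half dimensional
subspaces. -/
structure Sys (ρ : G →* Matrix ι ι K) {I : Type u} (c : I → G)
    (W : I → Bool → Submodule K (ι → K)) : Prop where
  inv : ∀ i e, ∀ u ∈ W i e, ρ (c i) *ᵥ u ∈ W i e
  rank : ∀ i e, 2 * Module.finrank K (W i e) = Fintype.card ι
  sep : ∀ i j e e' g u, u ≠ 0 → u ∈ W j e' → ρ g *ᵥ u ∈ W i e →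
    i = j ∧ e = e' ∧ g ∈ Subgroup.zpowers (c i)
  comm : ∀ i j g (k l : ℤ), k ≠ 0 → g * c j ^ k * g⁻¹ = c i ^ l →
    i = j ∧ g ∈ Subgroup.zpowers (c i)
  ord : ∀ i (k : ℤ), c i ^ k = 1 → k = 0

/-- The induction hypothesis: `G` is a linear group in which every maximal abelian subgroup is, up
to conjugation, either an `A`-module `β j` or one of the cyclic groups `<c i>`. -/
structure IsTow {A : Type u} [Ring A] (ρ : G →* Matrix ι ι K) {I J : Type u} (c : I → G)
    (W : I → Bool → Submodule K (ι → K)) (β : J → A → G) : Prop extends Sys ρ c W where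
  ρ_inj : Function.Injective ρ
  β_add : ∀ j a b, β j (a + b) = β j a * β j b
  β_inj : ∀ j a, β j a = 1 → a = 0
  mal : ∀ j j' g a a', a ≠ 0 → g * β j a * g⁻¹ = β j' a' → j = j' ∧ ∃ b, g = β j b
  mix : ∀ j i g a (k : ℤ), g * β j a * g⁻¹ = c i ^ k → a = 0
  cover : ∀ g, g ≠ 1 → ∃ h, (∃ j a, h * g * h⁻¹ = β j a) ∨ ∃ i, ∃ k : ℤ, h * g * h⁻¹ = c i ^ k

/-- the relations `c i = 1_i` of the step group -/
def stepRel (A : Type u) [Ring A] {I : Type u} (c : I → G) :
    Set (Monoid.Coprod G (Monoid.CoprodI fun _ : I => Multiplicative A)) :=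
  {x | ∃ i, x = Monoid.Coprod.inl (c i) *
    (Monoid.Coprod.inr (Monoid.CoprodI.of (i := i) (Multiplicative.ofAdd (1 : A))))⁻¹}

/-- The step group: the copy number `i` of `A` is glued to `G` along `c i = 1`. -/
def Step (A : Type u) [Ring A] {I : Type u} (c : I → G) : Type u :=
  (Monoid.Coprod G (Monoid.CoprodI fun _ : I => Multiplicative A)) ⧸
    Subgroup.normalClosure (stepRel A c)

noncomputable instance (A : Type u) [Ring A] {I : Type u} (c : I → G) : Group (Step A c) :=
  inferInstanceAs (Group ((Monoid.Coprod G (Monoid.CoprodI fun _ : I => Multiplicative A)) ⧸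
    Subgroup.normalClosure (stepRel A c)))

/-- the inclusion of `G` in the step group -/
noncomputable def inG (A : Type u) [Ring A] {I : Type u} (c : I → G) : G →* Step A c :=
  (QuotientGroup.mk' (Subgroup.normalClosure (stepRel A c))).comp Monoid.Coprod.inl

/-- the inclusion of the copy number `i` of `A` in the step group -/
noncomputable def inB {A : Type u} [Ring A] {I : Type u} (c : I → G) (i : I) (a : A) : Step A c :=
  (QuotientGroup.mk' (Subgroup.normalClosure (stepRel A c)))
    (Monoid.Coprod.inr (Monoid.CoprodI.of (i := i) (Multiplicative.ofAdd a)))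

end Tow

end RLin
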