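import Pool.Agent.RLin.Vec

set_option autoImplicit false

/-!
# RLin/Split: the unit part of an integral matrix

`L` is algebraically closed, `M` an integral matrix over `L` with reduction `N` such that
`rg N ⊓ kr N = 0`.  `P.Ep M = kr (f(M))` where `f = P.up M` is the product of `X - x` over the roots
`x` of the characteristic polynomial with `v x = 1`.  Let `h` be the product over the other roots, so
that `M.charpoly = f * h` (`IsAlgClosed`, monic), `f` and `h` are monic and coprime.

(0) The roots of the characteristic polynomial of an integral matrix satisfy `v x ≤ 1`: if `M u = x u`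
with `u ≠ 0` then `v x * N u = N (M u) ≤ N u`.  So the roots of `h` satisfy `v x < 1`.  The
coefficients of `f` are integral, the constant coefficient of `f` is a product of units so it has value
`1`; the coefficients of `h` except the leading one have value `< 1` (induction on the multiset: let
`Q` be a set of roots with values `< 1`; the product of `X - x` is `X ^ r` plus a polynomial with
coefficients of value `< 1`).

(1) `Ep_over`.  Let `u ∈ Ep M` be integral with reduction `a`.  From `f(M) u = 0`,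
`f = f_0 + X * g`, we get `u = M (- f_0⁻¹ • g(M) u)` where `- f_0⁻¹ • g(M) u` is integral, so it
has a reduction `b` and `a = N b ∈ rg N`.  (If `f = 1` then `u = 0`; this case is also covered by
`f_0 = 1`, `g = 0`.)

(2) The same for the other part: if `h(M) u = 0` and `u` reduces to `a` then, reducing, `N ^ r a = 0`
(`r` the degree of `h`), hence `N a = 0` because `rg N ⊓ kr N = 0`.  So `kr (h(M))` is over `kr N`
and by `Over_finrank_le` its dimension is at most the dimension of `kr N`, which is
`card ι - finrank (rg N)`.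

(3) `Ep_finrank`.  By coprimality and Cayley-Hamilton (`Matrix.aeval_self_charpoly`)
`kr (f(M)) ⊔ kr (h(M)) = ⊤`, so `card ι ≤ finrank (Ep M) + finrank (kr (h(M)))`
and `finrank (Ep M) ≥ finrank (rg N)`.  The other inequality is (1) and `Over_finrank_le`.

(4) `Ep_max`.  Let `S` be invariant under `M` and `N (M u) = N u` on `S`.  If `u ∈ S` and
`h(M) u = 0`, `h = X ^ r + ∑_{k < r} h_k X ^ k` with `v h_k < 1`, then
`N u = N (M ^ r u) ≤ max_k v h_k * N (M ^ k u) = (max_k v h_k) * N u`, so `u = 0`.
For `u ∈ S` put `u' = f(M) u ∈ S`; then `h(M) u' = charpoly(M) u = 0`, so `u' = 0` and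
`u ∈ Ep M`.

(5) `Ep_pow`: `Ep M` is invariant under `M ^ (k+1)` and `M ^ (k+1)` preserves the norm on it by
`Ep_N`; the matrix `M ^ (k+1)` reduces to `N ^ (k+1)` which has the same range and the same kernel as
`N`.  So `Ep M ≤ Ep (M ^ (k+1))` by (4) and both have the same dimension by (3).

(6) `Ep_conj`: `g * M * g'` has the same characteristic polynomial, hence the same `f`, and
`f(g * M * g') = g * f(M) * g'`.
-/

universe u

namespace RLin

open Matrix

variable {K L Γ : Type u} [Field K] [Field L] [LinearOrderedCommGroupWithZero Γ]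
variable {ι : Type} [Fintype ι] [DecidableEq ι] (P : Place K L Γ)

section aux

/-- a polynomial which does not increase norms when evaluated at integral matrices -/
private def Gd (P : Place K L Γ) (ι : Type) [Fintype ι] [DecidableEq ι] (p : Polynomial L) : Prop :=
  ∀ M : Matrix ι ι L, P.Int M → ∀ u : ι → L, P.N (Polynomial.aeval M p *ᵥ u) ≤ P.N u

/-- a polynomial which contracts norms when evaluated at integral matrices -/
private def Sm (P : Place K L Γ) (ι : Type) [Fintype ι] [DecidableEq ι] (p : Polynomial L) : Prop :=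
  ∃ c : Γ, c < 1 ∧ ∀ M : Matrix ι ι L, P.Int M → ∀ u : ι → L,
    P.N (Polynomial.aeval M p *ᵥ u) ≤ c * P.N u

private lemma Gd_add {p q : Polynomial L} (hp : Gd P ι p) (hq : Gd P ι q) : Gd P ι (p + q) := by
  intro M hM u
  rw [map_add, Matrix.add_mulVec]
  exact (N_add_le P _ _).trans (max_le (hp M hM u) (hq M hM u))

private lemma Gd_mul {p q : Polynomial L} (hp : Gd P ι p) (hq : Gd P ι q) : Gd P ι (p * q) := by
  intro M hM u
  rw [map_mul, ← Matrix.mulVec_mulVec]
  exact (hp M hM _).trans (hq M hM u)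

private lemma Gd_C {c : L} (hc : P.v c ≤ 1) : Gd P ι (Polynomial.C c) := by
  intro M hM u
  rw [Polynomial.aeval_C, Algebra.algebraMap_eq_smul_one, Matrix.smul_mulVec, Matrix.one_mulVec,
    N_smul]
  exact mul_le_of_le_one_left' hc

private lemma Gd_X : Gd P ι Polynomial.X := by
  intro M hM u
  rw [Polynomial.aeval_X]
  exact N_mulVec_le P hM u

private lemma Gd_one : Gd P ι 1 := by
  have := Gd_C P (ι := ι) (c := (1 : L)) (by simp)
  simpa using this

private lemma Gd_neg {p : Polynomial L} (hp : Gd P ι p) : Gd P ι (-p) := by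
  intro M hM u
  rw [map_neg, Matrix.neg_mulVec, N_neg]
  exact hp M hM u

private lemma Gd_X_pow (n : ℕ) : Gd P ι (Polynomial.X ^ n) := by
  induction n with
  | zero => simpa using Gd_one P
  | succ n ih => rw [pow_succ]; exact Gd_mul P ih (Gd_X P)

private lemma Sm_add {p q : Polynomial L} (hp : Sm P ι p) (hq : Sm P ι q) : Sm P ι (p + q) := by
  obtain ⟨c, hc, hp⟩ := hp
  obtain ⟨d, hd, hq⟩ := hq
  refine ⟨max c d, max_lt hc hd, ?_⟩
  intro M hM u
  rw [map_add, Matrix.add_mulVec]
  refine (N_add_le P _ _).trans (max_le ?_ ?_)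
  · exact (hp M hM u).trans (mul_le_mul_left (le_max_left c d) _)
  · exact (hq M hM u).trans (mul_le_mul_left (le_max_right c d) _)

private lemma Sm_mul {p q : Polynomial L} (hp : Gd P ι p) (hq : Sm P ι q) : Sm P ι (p * q) := by
  obtain ⟨d, hd, hq⟩ := hq
  refine ⟨d, hd, ?_⟩
  intro M hM u
  rw [map_mul, ← Matrix.mulVec_mulVec]
  exact (hp M hM _).trans (hq M hM u)

private lemma Sm_neg {p : Polynomial L} (hp : Sm P ι p) : Sm P ι (-p) := by
  obtain ⟨c, hc, hp⟩ := hp
  refine ⟨c, hc, ?_⟩
  intro M hM u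
  rw [map_neg, Matrix.neg_mulVec, N_neg]
  exact hp M hM u

private lemma Sm_C {c : L} (hc : P.v c < 1) : Sm P ι (Polynomial.C c) := by
  refine ⟨P.v c, hc, ?_⟩
  intro M hM u
  rw [Polynomial.aeval_C, Algebra.algebraMap_eq_smul_one, Matrix.smul_mulVec, Matrix.one_mulVec,
    N_smul]

private lemma Sm_zero : Sm P ι 0 := by
  have := Sm_C P (ι := ι) (c := (0 : L)) (by simp)
  simpa using this

/-- products over unit roots -/
private lemma unit_prod (s : Multiset L) (hs : ∀ x ∈ s, P.v x = 1) :
    ∃ (c : L) (g : Polynomial L), P.v c = 1 ∧ Gd P ι g ∧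
      (s.map fun x => Polynomial.X - Polynomial.C x).prod = Polynomial.C c + Polynomial.X * g := by
  induction s using Multiset.induction_on with
  | empty => exact ⟨1, 0, by simp, by simpa using Gd_C P (ι := ι) (c := (0 : L)) (by simp), by simp⟩
  | cons x s ih =>
    obtain ⟨c, g, hc, hg, he⟩ := ih (fun y hy => hs y (Multiset.mem_cons_of_mem hy))
    have hx : P.v x = 1 := hs x (Multiset.mem_cons_self x s)
    refine ⟨-x * c, Polynomial.C c + Polynomial.X * g - Polynomial.C x * g, ?_, ?_, ?_⟩
    · rw [map_mul, Valuation.map_neg, hx, hc, one_mul]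
    · rw [sub_eq_add_neg]
      exact Gd_add P (Gd_add P (Gd_C P hc.le) (Gd_mul P (Gd_X P) hg))
        (Gd_neg P (Gd_mul P (Gd_C P hx.le) hg))
    · rw [Multiset.map_cons, Multiset.prod_cons, he]
      simp only [Polynomial.C_mul, Polynomial.C_neg]
      ring

/-- products over non-unit integral roots -/
private lemma small_prod (s : Multiset L) (hs : ∀ x ∈ s, P.v x < 1) :
    ∃ (r : ℕ) (q : Polynomial L), Sm P ι q ∧
      (s.map fun x => Polynomial.X - Polynomial.C x).prod = Polynomial.X ^ r + q := by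
  induction s using Multiset.induction_on with
  | empty => exact ⟨0, 0, Sm_zero P, by simp⟩
  | cons x s ih =>
    obtain ⟨r, q, hq, he⟩ := ih (fun y hy => hs y (Multiset.mem_cons_of_mem hy))
    have hx : P.v x < 1 := hs x (Multiset.mem_cons_self x s)
    refine ⟨r + 1, Polynomial.X * q + -(Polynomial.X ^ r * Polynomial.C x)
      + -(Polynomial.C x * q), ?_, ?_⟩
    · exact Sm_add P (Sm_add P (Sm_mul P (Gd_X P) hq)
        (Sm_neg P (Sm_mul P (Gd_X_pow P r) (Sm_C P hx)))) (Sm_neg P (Sm_mul P (Gd_C P hx.le) hq))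
    · rw [Multiset.map_cons, Multiset.prod_cons, he]
      ring

open Classical in
private noncomputable def dn (P : Place K L Γ) (M : Matrix ι ι L) : Polynomial L :=
  ((M.charpoly.roots.filter fun x => ¬ P.v x = 1).map fun x => Polynomial.X - Polynomial.C x).prod

private lemma charpoly_eq [IsAlgClosed L] (M : Matrix ι ι L) : M.charpoly = P.up M * dn P M := by
  classical
  have h := (IsAlgClosed.splits M.charpoly).eq_prod_roots_of_monic M.charpoly_monic
  unfold Place.up dn
  rw [← Multiset.prod_add, ← Multiset.map_add, Multiset.filter_add_not]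
  exact h

private lemma root_le {M : Matrix ι ι L} (hM : P.Int M) {x : L} (hx : x ∈ M.charpoly.roots) :
    P.v x ≤ 1 := by
  have h0 : M.charpoly.eval x = 0 := (Polynomial.mem_roots'.1 hx).2
  rw [Matrix.eval_charpoly] at h0
  obtain ⟨u, hu0, hu⟩ := Matrix.exists_mulVec_eq_zero_iff.2 h0
  rw [Matrix.sub_mulVec, sub_eq_zero] at hu
  have h1 : (Matrix.scalar ι x) *ᵥ u = x • u := by
    rw [Matrix.scalar_apply]
    funext k
    simp [Matrix.mulVec_diagonal]
  rw [h1] at hu
  have h2 := N_mulVec_le P hM u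
  rw [← hu, N_smul] at h2
  have h3 : P.N u ≠ 0 := fun h => hu0 ((N_eq_zero P u).1 h)
  by_contra hcon
  push Not at hcon
  have h4 : P.N u < P.v x * P.N u := by
    calc P.N u = 1 * P.N u := (one_mul _).symm
      _ < P.v x * P.N u := mul_lt_mul_of_pos_right hcon (zero_lt_iff.2 h3)
  exact absurd h2 (not_le.2 h4)

private lemma up_form (M : Matrix ι ι L) :
    ∃ (c : L) (g : Polynomial L), P.v c = 1 ∧ Gd P ι g ∧
      P.up M = Polynomial.C c + Polynomial.X * g := by
  classical
  apply unit_prod P
  intro x hx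
  exact (Multiset.mem_filter.1 hx).2

private lemma dn_form {M : Matrix ι ι L} (hM : P.Int M) :
    ∃ (r : ℕ) (q : Polynomial L), Sm P ι q ∧ dn P M = Polynomial.X ^ r + q := by
  classical
  apply small_prod P
  intro x hx
  have h := Multiset.mem_filter.1 hx
  exact lt_of_le_of_ne (root_le P hM h.1) h.2

private lemma mem_kr {F : Type u} [Field F] (M : Matrix ι ι F) (u : ι → F) :
    u ∈ kr M ↔ M *ᵥ u = 0 := by
  unfold kr
  rw [LinearMap.mem_ker, Matrix.mulVecLin_apply]

private lemma mem_rg {F : Type u} [Field F] (M : Matrix ι ι F) (u : ι → F) :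
    u ∈ rg M ↔ ∃ w, M *ᵥ w = u := by
  unfold rg
  rw [LinearMap.mem_range]
  rfl

private lemma aeval_mem {M : Matrix ι ι L} {S : Submodule L (ι → L)}
    (hS : ∀ u ∈ S, M *ᵥ u ∈ S) (p : Polynomial L) : ∀ u ∈ S, Polynomial.aeval M p *ᵥ u ∈ S := by
  induction p using Polynomial.induction_on' with
  | add p q hp hq =>
    intro u hu
    rw [map_add, Matrix.add_mulVec]
    exact S.add_mem (hp u hu) (hq u hu)
  | monomial n a =>
    intro u hu
    rw [Polynomial.aeval_monomial, Algebra.algebraMap_eq_smul_one, smul_mul_assoc, one_mul,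
      Matrix.smul_mulVec]
    apply S.smul_mem
    induction n with
    | zero => simpa using hu
    | succ n ih =>
      rw [pow_succ', ← Matrix.mulVec_mulVec]
      exact hS _ ih

/-- iterated norm -/
private lemma N_pow {M : Matrix ι ι L} {S : Submodule L (ι → L)}
    (hS : ∀ u ∈ S, M *ᵥ u ∈ S) (hN : ∀ u ∈ S, P.N (M *ᵥ u) = P.N u) (n : ℕ) :
    ∀ u ∈ S, (M ^ n) *ᵥ u ∈ S ∧ P.N ((M ^ n) *ᵥ u) = P.N u := by
  induction n with
  | zero => intro u hu; simpa using hu
  | succ n ih =>
    intro u hu
    obtain ⟨h1, h2⟩ := ih u hu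
    rw [pow_succ', ← Matrix.mulVec_mulVec]
    exact ⟨hS _ h1, (hN _ h1).trans h2⟩

private lemma kr_pow {F : Type u} [Field F] {N : Matrix ι ι F} (hN : Disjoint (rg N) (kr N))
    (r : ℕ) (a : ι → F) (h : (N ^ r) *ᵥ a = 0) : a ∈ kr N := by
  cases r with
  | zero =>
    rw [pow_zero, Matrix.one_mulVec] at h
    rw [h]; exact (kr N).zero_mem
  | succ r =>
    induction r with
    | zero =>
      rw [zero_add, pow_one] at h
      exact (mem_kr N a).2 h
    | succ r ih =>
      apply ih
      have h1 : (N ^ (r + 1)) *ᵥ a ∈ rg N := by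
        rw [mem_rg]
        exact ⟨(N ^ r) *ᵥ a, by rw [Matrix.mulVec_mulVec, ← pow_succ']⟩
      have h2 : (N ^ (r + 1)) *ᵥ a ∈ kr N := by
        rw [mem_kr, Matrix.mulVec_mulVec, ← pow_succ']
        exact h
      exact Submodule.disjoint_def.1 hN _ h1 h2

end aux

/-- a matrix which commutes with `M` preserves `Ep M` -/
theorem Ep_comm {M g : Matrix ι ι L} (hg : g * M = M * g) {u : ι → L} (hu : u ∈ P.Ep M) :
    g *ᵥ u ∈ P.Ep M := by
  unfold Place.Ep at hu ⊢
  rw [mem_kr] at hu ⊢
  have hc : ∀ p : Polynomial L, g * Polynomial.aeval M p = Polynomial.aeval M p * g := by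
    intro p
    induction p using Polynomial.induction_on' with
    | add p q hp hq => rw [map_add, mul_add, add_mul, hp, hq]
    | monomial n a =>
      rw [Polynomial.aeval_monomial, Algebra.algebraMap_eq_smul_one, smul_mul_assoc, one_mul,
        mul_smul_comm, smul_mul_assoc]
      congr 1
      have : Commute g M := hg
      exact this.pow_right n
  rw [Matrix.mulVec_mulVec, ← hc, ← Matrix.mulVec_mulVec, hu, Matrix.mulVec_zero]

theorem Ep_conj {M g g' : Matrix ι ι L} (h : g * g' = 1) : P.Ep (g * M * g') = im g (P.Ep M) := by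
  have h' : g' * g = 1 := mul_eq_one_comm.1 h
  have hch : (g * M * g').charpoly = M.charpoly := by
    rw [Matrix.charpoly_mul_comm, ← mul_assoc, h', one_mul]
  have hup : P.up (g * M * g') = P.up M := by
    unfold Place.up
    rw [hch]
  let φ : Matrix ι ι L →ₐ[L] Matrix ι ι L :=
    { toFun := fun X => g * X * g'
      map_one' := by rw [mul_one, h]
      map_mul' := by
        intro X Y
        calc g * (X * Y) * g' = g * X * (1 * (Y * g')) := by rw [one_mul]; simp only [mul_assoc]
          _ = g * X * ((g' * g) * (Y * g')) := by rw [h']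
          _ = g * X * g' * (g * Y * g') := by simp only [mul_assoc]
      map_zero' := by rw [mul_zero, zero_mul]
      map_add' := by intro X Y; rw [mul_add, add_mul]
      commutes' := by
        intro c
        rw [Algebra.algebraMap_eq_smul_one, mul_smul_comm, smul_mul_assoc, mul_one, h] }
  have hev : Polynomial.aeval (g * M * g') (P.up M) = g * Polynomial.aeval M (P.up M) * g' :=
    Polynomial.aeval_algHom_apply φ M (P.up M)
  ext u
  unfold Place.Ep im
  rw [hup, hev, mem_kr, Submodule.mem_map]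
  constructor
  · intro hu
    refine ⟨g' *ᵥ u, ?_, ?_⟩
    · rw [mem_kr]
      have h1 : g' *ᵥ ((g * Polynomial.aeval M (P.up M) * g') *ᵥ u) = 0 := by
        rw [hu, Matrix.mulVec_zero]
      rw [Matrix.mulVec_mulVec] at h1
      rw [Matrix.mulVec_mulVec]
      rw [← h1]
      congr 1
      calc Polynomial.aeval M (P.up M) * g' = 1 * (Polynomial.aeval M (P.up M) * g') := by
            rw [one_mul]
        _ = (g' * g) * (Polynomial.aeval M (P.up M) * g') := by rw [h']
        _ = _ := by simp only [mul_assoc]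
    · rw [Matrix.mulVecLin_apply, Matrix.mulVec_mulVec, h, Matrix.one_mulVec]
  · rintro ⟨w, hw, rfl⟩
    rw [mem_kr] at hw
    rw [Matrix.mulVecLin_apply, Matrix.mulVec_mulVec]
    have : g * Polynomial.aeval M (P.up M) * g' * g = g * Polynomial.aeval M (P.up M) := by
      rw [mul_assoc _ g' g, h', mul_one]
    rw [this, ← Matrix.mulVec_mulVec, hw, Matrix.mulVec_zero]

variable [IsAlgClosed L]

theorem Ep_over {M : Matrix ι ι L} {N : Matrix ι ι K} (h : P.Rm M N) :
    P.Over (P.Ep M) (rg N) := by
  intro u hu a ha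
  unfold Place.Ep at hu
  rw [mem_kr] at hu
  obtain ⟨c, g, hc, hg, he⟩ := up_form P M
  have hM := Rm_int P h
  have hc0 : c ≠ 0 := by
    intro h0
    rw [h0, map_zero] at hc
    exact zero_ne_one hc
  set w : ι → L := (-c⁻¹) • (Polynomial.aeval M g *ᵥ u) with hw
  have hMw : M *ᵥ w = u := by
    rw [he, map_add, map_mul, Polynomial.aeval_C, Polynomial.aeval_X,
      Algebra.algebraMap_eq_smul_one, Matrix.add_mulVec, Matrix.smul_mulVec, Matrix.one_mulVec,
      ← Matrix.mulVec_mulVec] at hu
    rw [hw, Matrix.mulVec_smul]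
    have h1 : M *ᵥ (Polynomial.aeval M g *ᵥ u) = -(c • u) := by
      rw [add_comm] at hu
      exact eq_neg_of_add_eq_zero_left hu
    rw [h1, smul_neg, neg_smul, neg_neg, smul_smul, inv_mul_cancel₀ hc0, one_smul]
  have hNw : P.N w ≤ 1 := by
    rw [hw, N_smul, Valuation.map_neg, map_inv₀, hc, inv_one, one_mul]
    exact (hg M hM u).trans (Rv_le P ha)
  obtain ⟨b, hb⟩ := exists_Rv P hNw
  have h2 := Rv_mulVec P h hb
  rw [hMw] at h2
  rw [mem_rg]
  exact ⟨b, (Rv_uniq P ha h2).symm⟩

/-- the other part reduces to the kernel -/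
private lemma dn_over {M : Matrix ι ι L} {N : Matrix ι ι K} (h : P.Rm M N)
    (hN : Disjoint (rg N) (kr N)) : P.Over (kr (Polynomial.aeval M (dn P M))) (kr N) := by
  intro u hu a ha
  rw [mem_kr] at hu
  have hM := Rm_int P h
  obtain ⟨r, q, ⟨c, hc, hq⟩, he⟩ := dn_form P hM
  rw [he, map_add, map_pow, Polynomial.aeval_X, Matrix.add_mulVec] at hu
  have h1 : (M ^ r) *ᵥ u = -(Polynomial.aeval M q *ᵥ u) := eq_neg_of_add_eq_zero_left hu
  have h2 : P.N ((M ^ r) *ᵥ u) < 1 := by
    rw [h1, N_neg]
    calc P.N (Polynomial.aeval M q *ᵥ u) ≤ c * P.N u := hq M hM u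
      _ ≤ c * 1 := mul_le_mul_right (Rv_le P ha) c
      _ = c := mul_one c
      _ < 1 := hc
  have h3 := Rv_zero_of_lt P h2
  have h4 := Rv_mulVec P (Rm_pow P h r) ha
  exact kr_pow hN r a (Rv_uniq P h4 h3)

theorem Ep_finrank {M : Matrix ι ι L} {N : Matrix ι ι K} (h : P.Rm M N)
    (hN : Disjoint (rg N) (kr N)) : Module.finrank L (P.Ep M) = Module.finrank K (rg N) := by
  apply le_antisymm (Over_finrank_le P (Ep_over P h))
  have h1 := Over_finrank_le P (dn_over P h hN)
  have h2 : Module.finrank K (rg N) + Module.finrank K (kr N) = Fintype.card ι := by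
    have := LinearMap.finrank_range_add_finrank_ker N.mulVecLin
    rw [Module.finrank_pi] at this
    exact this
  have h3 : Module.finrank L (rg (Polynomial.aeval M (dn P M)))
      + Module.finrank L (kr (Polynomial.aeval M (dn P M))) = Fintype.card ι := by
    have := LinearMap.finrank_range_add_finrank_ker (Polynomial.aeval M (dn P M)).mulVecLin
    rw [Module.finrank_pi] at this
    exact this
  have h4 : rg (Polynomial.aeval M (dn P M)) ≤ P.Ep M := by
    intro u hu
    obtain ⟨w, rfl⟩ := (mem_rg _ _).1 hu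
    unfold Place.Ep
    rw [mem_kr, Matrix.mulVec_mulVec, ← map_mul, ← charpoly_eq, Matrix.aeval_self_charpoly,
      Matrix.zero_mulVec]
  have h5 := Submodule.finrank_mono h4
  omega

theorem Ep_N {M : Matrix ι ι L} {N : Matrix ι ι K} (h : P.Rm M N)
    (hN : Disjoint (rg N) (kr N)) {u : ι → L} (hu : u ∈ P.Ep M) : P.N (M *ᵥ u) = P.N u :=
  Over_N_mulVec P (Ep_over P h) h hN hu

theorem Ep_max {M : Matrix ι ι L} (h : P.Int M) {S : Submodule L (ι → L)}
    (hS : ∀ u ∈ S, M *ᵥ u ∈ S) (hN : ∀ u ∈ S, P.N (M *ᵥ u) = P.N u) : S ≤ P.Ep M := by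
  intro u hu
  obtain ⟨r, q, ⟨c, hc, hq⟩, he⟩ := dn_form P h
  set u' : ι → L := Polynomial.aeval M (P.up M) *ᵥ u with hu'
  have hu'S : u' ∈ S := aeval_mem hS _ u hu
  have h0 : Polynomial.aeval M (dn P M) *ᵥ u' = 0 := by
    rw [hu', Matrix.mulVec_mulVec, ← map_mul, mul_comm, ← charpoly_eq,
      Matrix.aeval_self_charpoly, Matrix.zero_mulVec]
  rw [he, map_add, map_pow, Polynomial.aeval_X, Matrix.add_mulVec] at h0
  have h1 : (M ^ r) *ᵥ u' = -(Polynomial.aeval M q *ᵥ u') := eq_neg_of_add_eq_zero_left h0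
  have h2 : P.N u' ≤ c * P.N u' := by
    calc P.N u' = P.N ((M ^ r) *ᵥ u') := ((N_pow P hS hN r u' hu'S).2).symm
      _ = P.N (Polynomial.aeval M q *ᵥ u') := by rw [h1, N_neg]
      _ ≤ c * P.N u' := hq M h u'
  have h3 : P.N u' = 0 := by
    by_contra hne
    have h4 : c * P.N u' < P.N u' := by
      calc c * P.N u' < 1 * P.N u' := mul_lt_mul_of_pos_right hc (zero_lt_iff.2 hne)
        _ = P.N u' := one_mul _
    exact absurd h2 (not_le.2 h4)
  unfold Place.Ep
  rw [mem_kr]
  exact (N_eq_zero P u').1 h3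

theorem Ep_pow {M : Matrix ι ι L} {N : Matrix ι ι K} (h : P.Rm M N)
    (hN : Disjoint (rg N) (kr N)) (k : ℕ) : P.Ep (M ^ (k + 1)) = P.Ep M := by
  have hk := Rm_pow P h (k + 1)
  have hinv : ∀ u ∈ P.Ep M, M *ᵥ u ∈ P.Ep M := fun u hu => Ep_comm P rfl hu
  have hN' : ∀ u ∈ P.Ep M, P.N (M *ᵥ u) = P.N u := fun u hu => Ep_N P h hN hu
  have hle : P.Ep M ≤ P.Ep (M ^ (k + 1)) := by
    apply Ep_max P (Rm_int P hk)
    · intro u hu; exact (N_pow P hinv hN' (k + 1) u hu).1
    · intro u hu; exact (N_pow P hinv hN' (k + 1) u hu).2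
  have hker : kr (N ^ (k + 1)) = kr N := by
    apply le_antisymm
    · intro a ha
      exact kr_pow hN (k + 1) a ((mem_kr _ _).1 ha)
    · intro a ha
      rw [mem_kr] at ha ⊢
      rw [pow_succ, ← Matrix.mulVec_mulVec, ha, Matrix.mulVec_zero]
  have hrg : rg (N ^ (k + 1)) ≤ rg N := by
    intro a ha
    obtain ⟨w, rfl⟩ := (mem_rg _ _).1 ha
    rw [mem_rg]
    exact ⟨(N ^ k) *ᵥ w, by rw [Matrix.mulVec_mulVec, ← pow_succ']⟩
  have hdis : Disjoint (rg (N ^ (k + 1))) (kr (N ^ (k + 1))) := by
    rw [hker]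
    exact hN.mono_left hrg
  have hf1 : Module.finrank K (rg N) + Module.finrank K (kr N) = Fintype.card ι := by
    have := LinearMap.finrank_range_add_finrank_ker N.mulVecLin
    rw [Module.finrank_pi] at this
    exact this
  have hf2 : Module.finrank K (rg (N ^ (k + 1))) + Module.finrank K (kr (N ^ (k + 1)))
      = Fintype.card ι := by
    have := LinearMap.finrank_range_add_finrank_ker (N ^ (k + 1)).mulVecLin
    rw [Module.finrank_pi] at this
    exact this
  symm
  apply Submodule.eq_of_le_of_finrank_eq hle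
  rw [Ep_finrank P h hN, Ep_finrank P hk hdis]
  rw [hker] at hf2
  omega

end RLin
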