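import Pool.Agent.RLin.Hyp
import Pool.Agent.RLin.Split

set_option autoImplicit false

/-!
# RLin/EW: the attracting subspace of a hyperbolic element

`P.E ρ w = P.Ep (T ^ l w • ρ w)`, where `T ^ l w • ρ w` reduces to `Om w` (`Rm_lc`), whose range
`D w` and kernel `D w⁻¹` are disjoint for a hyperbolic element (`hyp_disj`).
-/

universe u

namespace RLin

open Matrix

section im

variable {K : Type u} [Field K] {ι : Type} [Fintype ι] [DecidableEq ι] {G : Type u} [Group G]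
variable (ρ : G →* Matrix ι ι K)

theorem mem_im (M : Matrix ι ι K) (E : Submodule K (ι → K)) (u : ι → K) :
    u ∈ im M E ↔ ∃ w ∈ E, M *ᵥ w = u := by
  unfold im
  rw [Submodule.mem_map]
  rfl

theorem im_mul (M N : Matrix ι ι K) (E : Submodule K (ι → K)) : im (M * N) E = im M (im N E) := by
  unfold im
  rw [Matrix.mulVecLin_mul, Submodule.map_comp]

theorem im_one (E : Submodule K (ι → K)) : im 1 E = E := by
  unfold im
  rw [Matrix.mulVecLin_one, Submodule.map_id]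

theorem im_rho_mem (g : G) (E : Submodule K (ι → K)) (u : ι → K) :
    u ∈ im (ρ g) E ↔ ρ g⁻¹ *ᵥ u ∈ E := by
  have h1 : ρ g⁻¹ * ρ g = 1 := by rw [← map_mul, inv_mul_cancel, map_one]
  have h2 : ρ g * ρ g⁻¹ = 1 := by rw [← map_mul, mul_inv_cancel, map_one]
  rw [mem_im]
  constructor
  · rintro ⟨w, hw, rfl⟩
    rw [Matrix.mulVec_mulVec, h1, Matrix.one_mulVec]
    exact hw
  · intro h
    exact ⟨_, h, by rw [Matrix.mulVec_mulVec, h2, Matrix.one_mulVec]⟩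

theorem im_rho_finrank (g : G) (E : Submodule K (ι → K)) :
    Module.finrank K (im (ρ g) E) = Module.finrank K E := by
  have h1 : ρ g⁻¹ * ρ g = 1 := by rw [← map_mul, inv_mul_cancel, map_one]
  have hinj : Function.Injective (ρ g).mulVecLin := by
    intro u w huw
    have h2 : ρ g *ᵥ u = ρ g *ᵥ w := huw
    have h3 := congrArg (fun t => ρ g⁻¹ *ᵥ t) h2
    simpa [Matrix.mulVec_mulVec, h1] using h3
  exact (Submodule.equivMapOfInjective (ρ g).mulVecLin hinj E).finrank_eq.symm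

end im

variable {K L Γ : Type u} [Field K] [Field L] [LinearOrderedCommGroupWithZero Γ]
variable {ι : Type} [Fintype ι] [DecidableEq ι] {P : Place K L Γ}
variable {G : Type u} [Group G] {ρ : G →* Matrix ι ι L} {G₀ : Subgroup G} {X : Set G}

/-- `N_mulVec_le` and `int_len` -/
theorem N_rho_le (P : Place K L Γ) (ρ : G →* Matrix ι ι L) (x : G) (u : ι → L) :
    P.v P.T ^ P.l ρ x * P.N (ρ x *ᵥ u) ≤ P.N u := by
  have h1 := N_mulVec_le P (int_len P (ρ x)) u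
  rw [Matrix.smul_mulVec, N_smul, map_pow] at h1
  exact h1

variable [IsAlgClosed L]

/-- `Ep_comm` -/
theorem E_comm {w g : G} (hg : g * w = w * g) {u : ι → L} (hu : u ∈ P.E ρ w) :
    ρ g *ᵥ u ∈ P.E ρ w := by
  unfold Place.E at hu ⊢
  refine Ep_comm P ?_ hu
  rw [mul_smul_comm, smul_mul_assoc, ← map_mul, ← map_mul, hg]

theorem Geo.E_over (_h : Geo P ρ G₀ X) (w : G) : P.Over (P.E ρ w) (P.D ρ w) := by
  unfold Place.E Place.D Place.Om Place.l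
  exact Ep_over P (Rm_lc P (ρ w))

theorem Geo.E_rank (h : Geo P ρ G₀ X) {w : G} (hw : P.Hyp ρ w) :
    2 * Module.finrank L (P.E ρ w) = Fintype.card ι := by
  rw [← h.rank_all hw.1]
  congr 1
  exact Ep_finrank P (Rm_lc P (ρ w)) (h.hyp_disj hw)

/-- `Ep_pow` for `(T ^ l w • ρ w) ^ (n+1) = T ^ l (w ^ (n+1)) • ρ (w ^ (n+1))` (`hyp_pow`) -/
theorem Geo.E_pow (h : Geo P ρ G₀ X) {w : G} (hw : P.Hyp ρ w) (n : ℕ) :
    P.E ρ (w ^ (n + 1)) = P.E ρ w := by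
  have h1 : P.Ep ((P.T ^ P.l ρ w • ρ w) ^ (n + 1)) = P.Ep (P.T ^ P.l ρ w • ρ w) :=
    Ep_pow P (Rm_lc P (ρ w)) (h.hyp_disj hw) n
  have h2 : (P.T ^ P.l ρ w • ρ w) ^ (n + 1) = P.T ^ P.l ρ (w ^ (n + 1)) • ρ (w ^ (n + 1)) := by
    rw [smul_pow, ← pow_mul, map_pow, (h.hyp_pow hw n).1, mul_comm (n + 1)]
  unfold Place.E
  rw [← h2, h1]

/-- `Ep_conj` and `hyp_conj_len` -/
theorem Geo.E_conj (h : Geo P ρ G₀ X) {w g : G} (hw : P.Hyp ρ w) (hw' : P.Hyp ρ (g * w * g⁻¹)) :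
    P.E ρ (g * w * g⁻¹) = im (ρ g) (P.E ρ w) := by
  have h2 : ρ g * ρ g⁻¹ = 1 := by rw [← map_mul, mul_inv_cancel, map_one]
  unfold Place.E
  rw [h.hyp_conj_len hw hw', ← Ep_conj P h2, map_mul, map_mul, mul_smul_comm, smul_mul_assoc]

private theorem EW_disj (h : Geo P ρ G₀ X) {w : G} (hw : P.Hyp ρ w) :
    Disjoint (P.D ρ w) (P.D ρ w⁻¹) := by
  have h1 : P.l ρ w⁻¹ ≠ 0 := by rw [h.len_inv]; exact hw.1
  rcases h.dich_all hw.1 h1 with h2 | h2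
  · exact absurd h2 hw.2
  · exact h2

/-- `Over_disjoint` with `D w`, `D w⁻¹` -/
theorem Geo.E_disj (h : Geo P ρ G₀ X) {w : G} (hw : P.Hyp ρ w) :
    Disjoint (P.E ρ w) (P.E ρ w⁻¹) :=
  Over_disjoint P (h.E_over w) (h.E_over w⁻¹) (EW_disj h hw)

/-- `E_disj` and `E_rank` for `w` and `w⁻¹` -/
theorem Geo.E_sup (h : Geo P ρ G₀ X) {w : G} (hw : P.Hyp ρ w) :
    P.E ρ w ⊔ P.E ρ w⁻¹ = ⊤ := by
  apply Submodule.eq_top_of_finrank_eq
  have h1 := Submodule.finrank_sup_add_finrank_inf_eq (P.E ρ w) (P.E ρ w⁻¹)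
  rw [(h.E_disj hw).eq_bot, finrank_bot, add_zero] at h1
  have h2 := h.E_rank hw
  have h3 := h.E_rank (h.hyp_inv hw)
  rw [Module.finrank_pi]
  omega

theorem Geo.E_ne_bot (h : Geo P ρ G₀ X) [Nonempty ι] {w : G} (hw : P.Hyp ρ w) :
    P.E ρ w ≠ ⊥ := by
  intro h0
  have h1 := h.E_rank hw
  rw [h0, finrank_bot, mul_zero] at h1
  exact Fintype.card_ne_zero h1.symm

/-- If `l x = 0`, or `l x ≠ 0` and `D x⁻¹ ≠ D w`, then `x` multiplies the norm on `E w` by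
`v T ^ (- l x)`: `kr (Om x)` is `0` (`om_inv`), respectively `D x⁻¹` which is disjoint from `D w`
(`dich_all`); use `Over_N_mulVec`. -/
theorem Geo.E_apply (h : Geo P ρ G₀ X) {w : G} (hw : P.Hyp ρ w) {x : G}
    (hx : P.l ρ x = 0 ∨ P.D ρ x⁻¹ ≠ P.D ρ w) {u : ι → L} (hu : u ∈ P.E ρ w) :
    P.v P.T ^ P.l ρ x * P.N (ρ x *ᵥ u) = P.N u := by
  have hd : Disjoint (P.D ρ w) (kr (P.Om ρ x)) := by
    by_cases h0 : P.l ρ x = 0
    · have h1 : P.Om ρ x⁻¹ * P.Om ρ x = 1 := mul_eq_one_comm.1 (h.om_inv x h0)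
      have h2 : kr (P.Om ρ x) = ⊥ := by
        rw [eq_bot_iff]
        intro a ha
        have h3 : P.Om ρ x *ᵥ a = 0 := ha
        have h4 : a = P.Om ρ x⁻¹ *ᵥ (P.Om ρ x *ᵥ a) := by
          rw [Matrix.mulVec_mulVec, h1, Matrix.one_mulVec]
        rw [h3, Matrix.mulVec_zero] at h4
        rw [Submodule.mem_bot]
        exact h4
      rw [h2]
      exact disjoint_bot_right
    · have h1 : P.D ρ x⁻¹ ≠ P.D ρ w := by
        rcases hx with h2 | h2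
        · exact absurd h2 h0
        · exact h2
      rw [h.ker_all x h0]
      have h3 : P.l ρ x⁻¹ ≠ 0 := by rw [h.len_inv]; exact h0
      rcases h.dich_all hw.1 h3 with h4 | h4
      · exact absurd h4.symm h1
      · exact h4
  have h5 := Over_N_mulVec P (h.E_over w) (Rm_lc P (ρ x)) hd hu
  rw [Matrix.smul_mulVec, N_smul, map_pow] at h5
  exact h5

/-- Conversely: if the norm of some `u ∈ E w` is not multiplied by `v T ^ (- l x)` and
`l x ≠ 0` then `D x⁻¹ = D w`. -/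
theorem Geo.E_apply' (h : Geo P ρ G₀ X) {w : G} (hw : P.Hyp ρ w) {x : G}
    {u : ι → L} (hu : u ∈ P.E ρ w) (hN : P.v P.T ^ P.l ρ x * P.N (ρ x *ᵥ u) ≠ P.N u) :
    P.l ρ x ≠ 0 ∧ P.D ρ x⁻¹ = P.D ρ w := by
  by_contra hcon
  apply hN
  apply h.E_apply hw _ hu
  by_cases h0 : P.l ρ x = 0
  · exact Or.inl h0
  · right
    intro h1
    exact hcon ⟨h0, h1⟩

/-- `E_apply` for `x = w ^ n` -/
theorem Geo.E_N_pow (h : Geo P ρ G₀ X) {w : G} (hw : P.Hyp ρ w) (n : ℕ) {u : ι → L}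
    (hu : u ∈ P.E ρ w) : P.v P.T ^ (n * P.l ρ w) * P.N (ρ (w ^ n) *ᵥ u) = P.N u := by
  cases n with
  | zero => simp
  | succ n =>
    obtain ⟨h1, -, h3, -⟩ := h.hyp_pow hw n
    rw [← h1]
    exact h.E_apply hw (Or.inr (by rw [h3]; exact hw.2.symm)) hu

/-- the previous statement for `ρ (w ^ n)⁻¹ u ∈ E w` -/
theorem Geo.E_N_pow_inv (h : Geo P ρ G₀ X) {w : G} (hw : P.Hyp ρ w) (n : ℕ) {u : ι → L}
    (hu : u ∈ P.E ρ w) :
    ρ (w ^ n)⁻¹ *ᵥ u ∈ P.E ρ w ∧ P.N (ρ (w ^ n)⁻¹ *ᵥ u) = P.v P.T ^ (n * P.l ρ w) * P.N u := by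
  have hc : (w ^ n)⁻¹ * w = w * (w ^ n)⁻¹ := by
    have : Commute (w ^ n)⁻¹ w := ((Commute.refl w).pow_left n).inv_left
    exact this
  have h1 : ρ (w ^ n)⁻¹ *ᵥ u ∈ P.E ρ w := E_comm hc hu
  refine ⟨h1, ?_⟩
  have h2 := h.E_N_pow hw n h1
  have h3 : ρ (w ^ n) * ρ (w ^ n)⁻¹ = 1 := by rw [← map_mul, mul_inv_cancel, map_one]
  rw [Matrix.mulVec_mulVec, h3, Matrix.one_mulVec] at h2
  exact h2.symm

/-- for `u ∈ E w`, `u' ∈ E w⁻¹`: the norm of `u + u'` is the maximum of the norms (`Over_orth`) -/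
theorem Geo.E_orth (h : Geo P ρ G₀ X) {w : G} (hw : P.Hyp ρ w) {u u' : ι → L}
    (hu : u ∈ P.E ρ w) (hu' : u' ∈ P.E ρ w⁻¹) : P.N (u + u') = max (P.N u) (P.N u') :=
  Over_orth P (h.E_over w) (h.E_over w⁻¹) (EW_disj h hw) hu hu'

/-- If `w` and `w'` are hyperbolic and `g * w ^ p * g⁻¹ = w' ^ q` with `p, q > 0` then
`E w' = g E w`: `E_conj` for `w ^ p` and `E_pow`. -/
theorem Geo.E_conj_pow (h : Geo P ρ G₀ X) {w w' g : G} (hw : P.Hyp ρ w) (hw' : P.Hyp ρ w')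
    (p q : ℕ) (hgw : g * w ^ (p + 1) * g⁻¹ = w' ^ (q + 1)) :
    im (ρ g) (P.E ρ w) = P.E ρ w' := by
  have h1 := (h.hyp_pow hw p).2.2.2
  have h2 := (h.hyp_pow hw' q).2.2.2
  have h3 : P.Hyp ρ (g * w ^ (p + 1) * g⁻¹) := by rw [hgw]; exact h2
  have h4 := h.E_conj h1 h3
  rw [hgw, h.E_pow hw' q, h.E_pow hw p] at h4
  exact h4.symm

end RLin
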