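import Pool.Agent.RLin.Vec

set_option autoImplicit false

/-!
# RLin/Geo: ping-pong

Notation: `l x = P.l ρ x`, `Om x = P.Om ρ x`, `D x = P.D ρ x = rg (Om x)`.  By `Rm_lc`,
`T ^ l x • ρ x` reduces to `Om x`.  By `len_eq`, if `T ^ n • ρ x` reduces to `M ≠ 0` then `l x = n`
and `Om x = M`.

(a) For `g ∈ G₀`: `l g = 0` and `ρ g = (Om g).map i` (`len_map`), and `Om g * Om g⁻¹ = 1` since the
map `N ↦ N.map i` is injective and multiplicative.  For `x ∈ X`: `Om x ≠ 0` since
`2 * finrank (D x) = card ι > 0`.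

(b) For `g ∈ G₀`, `x ∈ X`: `Om (g * x) = Om g * Om x` and `Om (x * g) = Om x * Om g` (`x * g ∈ X` since
`x * g = (g⁻¹ * x⁻¹)⁻¹`), so `D (x * g) = D x` and `D ((g * x)⁻¹) = D x⁻¹`.

(c) A reduced list is a list `[x_1, ..., x_n]`, `n ≥ 1`, of letters `x_j ∈ X` with
`D x_(j+1) ≠ D x_j⁻¹` (`List.IsChain` or a recursive definition).  Let `x = x_1 * ... * x_n` and
`M = Om x_1 * ... * Om x_n`.  Then `T ^ n • ρ x` reduces to `M`.
Claim: `rg M = D x_1` and `kr M = D x_n⁻¹`; in particular `M ≠ 0`.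
Induction on `n`: `n = 1` is `ker_eq`.  `M = Om x_1 * M'` with `rg M' = D x_2`, `kr M' = D x_n⁻¹`.
`kr (Om x_1) = D x_1⁻¹` is disjoint from `D x_2` by `dich`, so `kr M = kr M'`.  `rg M ≤ D x_1` and the
dimensions agree: both are half of `card ι` (rank-nullity for `M`: the dimension of `kr M = D x_n⁻¹` is
half of `card ι`).
So `l x = n`, `Om x = M`, `D x = D x_1`, `kr (Om x) = D x_n⁻¹`.  The list `[x_n⁻¹, ..., x_1⁻¹]` is
reduced too, its product is `x⁻¹`; so `l x⁻¹ = n` and `D x⁻¹ = D x_n⁻¹ = kr (Om x)`.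

(d) If `x, y ∈ X`, `D y = D x⁻¹` and `x * y ∈ X` (second case of `merge`) then `D (x * y) = D x` and
`D ((x * y)⁻¹) = D y⁻¹`: apply `merge` to `y⁻¹, x⁻¹`; `y⁻¹ * x⁻¹ ∈ G₀` is impossible since then
`x * y ∈ G₀` has length `0` and not `1`.

(e) Every `x ∈ G` is in `G₀` or the product of a reduced list: the set of these elements contains `1` and
it is closed under left multiplication by `G₀` and `X` (and `G₀ ∪ X` is closed under inverses, so
`Subgroup.closure_induction_left` or similar applies).  For `g ∈ G₀`: replace `x_1` by `g * x_1` (by (b)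
the list stays reduced); `x ∈ X` times `g ∈ G₀` is in `X`.  For `x ∈ X` and a reduced list: if
`D x_1 ≠ D x⁻¹` put `x` in front.  Otherwise use `merge`: if `x * x_1 ∈ G₀` then the product is
`(x * x_1) * x_2 ... x_n`, covered by the previous case (or an element of `G₀` if `n = 1`); if
`x * x_1 ∈ X` replace `x_1` by `x * x_1`, reduced by (d).

Now all fields of `Geo` follow: `dir` with `y = x_1`, `z = x_2 * ... * x_n` (`z = 1` if `n = 1`).
-/

universe u

namespace RLin

open Matrix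

variable {K L Γ : Type u} [Field K] [Field L] [LinearOrderedCommGroupWithZero Γ]
variable {ι : Type} [Fintype ι] [DecidableEq ι] {P : Place K L Γ}
variable {G : Type u} [Group G] {ρ : G →* Matrix ι ι L} {G₀ : Subgroup G} {X : Set G}

/-- words: `Wd P ρ X n x a b` means that `x` is the product of a reduced list of `n` letters with first
letter `a` and last letter `b` -/
private inductive Wd (P : Place K L Γ) (ρ : G →* Matrix ι ι L) (X : Set G) : ℕ → G → G → G → Prop
  | one (a : G) : a ∈ X → Wd P ρ X 1 a a a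
  | cons (n : ℕ) (a x b c : G) : a ∈ X → Wd P ρ X n x b c → P.D ρ b ≠ P.D ρ a⁻¹ →
      Wd P ρ X (n + 1) (a * x) a c

private theorem Wd.pos {n : ℕ} {x a b : G} (h : Wd P ρ X n x a b) : n ≠ 0 := by
  cases h <;> omega

private theorem Wd.first {n : ℕ} {x a b : G} (h : Wd P ρ X n x a b) : a ∈ X := by
  cases h <;> assumption

private theorem Wd.last {n : ℕ} {x a b : G} (h : Wd P ρ X n x a b) : b ∈ X := by
  induction h with
  | one a ha => exact ha
  | cons n a x b c _ _ _ ih => exact ih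

private theorem Wd.snoc {n : ℕ} {x a b c : G} (h : Wd P ρ X n x a b) (hc : c ∈ X)
    (hd : P.D ρ c ≠ P.D ρ b⁻¹) : Wd P ρ X (n + 1) (x * c) a c := by
  induction h with
  | one a ha => exact Wd.cons 1 a c c c ha (Wd.one c hc) hd
  | cons n a x b b' ha _ hb ih =>
    rw [mul_assoc]
    exact Wd.cons (n + 1) a (x * c) b c ha (ih hd) hb

private theorem Wd.inv (hX : ∀ x ∈ X, x⁻¹ ∈ X) {n : ℕ} {x a b : G} (h : Wd P ρ X n x a b) :
    Wd P ρ X n x⁻¹ b⁻¹ a⁻¹ := by
  induction h with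
  | one a ha => exact Wd.one a⁻¹ (hX a ha)
  | cons n a x b c ha hw hb ih =>
    rw [_root_.mul_inv_rev]
    refine ih.snoc (hX a ha) ?_
    rw [inv_inv]
    exact Ne.symm hb

/-- lengths and leading coefficients of products -/
private theorem om_mul {x y : G} (h : P.Om ρ x * P.Om ρ y ≠ 0) :
    P.l ρ (x * y) = P.l ρ x + P.l ρ y ∧ P.Om ρ (x * y) = P.Om ρ x * P.Om ρ y := by
  have h1 : P.Rm (P.T ^ P.len (ρ x) • ρ x) (P.lc (ρ x)) := Rm_lc P (ρ x)
  have h2 : P.Rm (P.T ^ P.len (ρ y) • ρ y) (P.lc (ρ y)) := Rm_lc P (ρ y)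
  have h3 := Rm_mul P h1 h2
  have e : (P.T ^ P.len (ρ x) • ρ x) * (P.T ^ P.len (ρ y) • ρ y) =
      P.T ^ (P.len (ρ x) + P.len (ρ y)) • ρ (x * y) := by
    rw [map_mul, Matrix.smul_mul, Matrix.mul_smul, smul_smul, pow_add]
  rw [e] at h3
  exact len_eq P h3 h

private theorem const_om {g : G} (h : ∃ N : Matrix ι ι K, ρ g = N.map P.i) :
    P.l ρ g = 0 ∧ ρ g = (P.Om ρ g).map P.i := by
  obtain ⟨N, hN⟩ := h
  have h1 := len_map P N
  constructor
  · show P.len (ρ g) = 0
    rw [hN]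
    exact h1.1
  · show ρ g = (P.lc (ρ g)).map P.i
    rw [hN, h1.2]

omit [Fintype ι] [DecidableEq ι] in
private theorem map_inj {N N' : Matrix ι ι K} (h : N.map P.i = N'.map P.i) : N = N' :=
  Matrix.map_injective P.i.injective h

private theorem om_one : P.Om ρ (1 : G) = 1 := by
  have h1 : ρ (1 : G) = (1 : Matrix ι ι K).map P.i := by
    rw [map_one, Matrix.map_one P.i (map_zero _) (map_one _)]
  have h2 := (const_om (P := P) ⟨1, h1⟩).2
  rw [h1] at h2
  exact (map_inj h2).symm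

private theorem om_mul_inv (h : PP P ρ G₀ X) {g : G} (hg : g ∈ G₀) :
    P.Om ρ g * P.Om ρ g⁻¹ = 1 := by
  have h1 := (const_om (h.const g hg)).2
  have h2 := (const_om (h.const g⁻¹ (G₀.inv_mem hg))).2
  have h3 : ρ g * ρ g⁻¹ = 1 := by rw [← map_mul, mul_inv_cancel, map_one]
  rw [h1, h2] at h3
  apply map_inj (P := P)
  rw [Matrix.map_one P.i (map_zero _) (map_one _), ← h3]
  exact Matrix.map_mul

private theorem om_inv_mul (h : PP P ρ G₀ X) {g : G} (hg : g ∈ G₀) :
    P.Om ρ g⁻¹ * P.Om ρ g = 1 := by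
  have h1 := om_mul_inv h (G₀.inv_mem hg)
  rwa [inv_inv] at h1

private theorem om_left (h : PP P ρ G₀ X) {g x : G} (hg : g ∈ G₀) (hx : P.Om ρ x ≠ 0) :
    P.l ρ (g * x) = P.l ρ x ∧ P.Om ρ (g * x) = P.Om ρ g * P.Om ρ x := by
  have h1 : P.Om ρ g * P.Om ρ x ≠ 0 := by
    intro h2
    apply hx
    have h3 : P.Om ρ g⁻¹ * (P.Om ρ g * P.Om ρ x) = 0 := by rw [h2, Matrix.mul_zero]
    rwa [← Matrix.mul_assoc, om_inv_mul h hg, Matrix.one_mul] at h3
  have h4 := om_mul h1
  rw [(const_om (h.const g hg)).1, zero_add] at h4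
  exact h4

private theorem om_right (h : PP P ρ G₀ X) {g x : G} (hg : g ∈ G₀) (hx : P.Om ρ x ≠ 0) :
    P.l ρ (x * g) = P.l ρ x ∧ P.Om ρ (x * g) = P.Om ρ x * P.Om ρ g := by
  have h1 : P.Om ρ x * P.Om ρ g ≠ 0 := by
    intro h2
    apply hx
    have h3 : (P.Om ρ x * P.Om ρ g) * P.Om ρ g⁻¹ = 0 := by rw [h2, Matrix.zero_mul]
    rwa [Matrix.mul_assoc, om_mul_inv h hg, Matrix.mul_one] at h3
  have h4 := om_mul h1
  rw [(const_om (h.const g hg)).1, add_zero] at h4
  exact h4

private theorem D_right (h : PP P ρ G₀ X) {g x : G} (hg : g ∈ G₀) (hx : P.Om ρ x ≠ 0) :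
    P.D ρ (x * g) = P.D ρ x := by
  show rg (P.Om ρ (x * g)) = rg (P.Om ρ x)
  rw [(om_right h hg hx).2]
  unfold rg
  rw [Matrix.mulVecLin_mul]
  refine LinearMap.range_comp_of_range_eq_top _ ?_
  rw [LinearMap.range_eq_top]
  intro v
  refine ⟨P.Om ρ g⁻¹ *ᵥ v, ?_⟩
  rw [Matrix.mulVecLin_apply, Matrix.mulVec_mulVec, om_mul_inv h hg, Matrix.one_mulVec]

private theorem om_X [Nonempty ι] (h : PP P ρ G₀ X) {x : G} (hx : x ∈ X) : P.Om ρ x ≠ 0 := by
  intro h0
  have h1 := h.rank x hx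
  have h2 : P.D ρ x = ⊥ := by
    show rg (P.Om ρ x) = ⊥
    unfold rg
    rw [h0, Matrix.mulVecLin_zero, LinearMap.range_zero]
  rw [h2, finrank_bot] at h1
  have h3 : 0 < Fintype.card ι := Fintype.card_pos
  omega

private theorem D_inv_left [Nonempty ι] (h : PP P ρ G₀ X) {g x : G} (hg : g ∈ G₀) (hx : x ∈ X) :
    P.D ρ (g * x)⁻¹ = P.D ρ x⁻¹ := by
  rw [_root_.mul_inv_rev]
  exact D_right h (G₀.inv_mem hg) (om_X h (h.X_inv x hx))

private theorem Wd.left [Nonempty ι] (h : PP P ρ G₀ X) {g : G} (hg : g ∈ G₀) {n : ℕ} {x a b : G}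
    (hw : Wd P ρ X n x a b) : ∃ b', Wd P ρ X n (g * x) (g * a) b' := by
  cases hw with
  | one _ ha => exact ⟨g * x, Wd.one (g * x) (h.X_mul g hg x ha)⟩
  | cons n _ x b' _ ha hw hb =>
    refine ⟨b, ?_⟩
    rw [← mul_assoc]
    refine Wd.cons n (g * a) x b' b (h.X_mul g hg a ha) hw ?_
    rw [D_inv_left h hg ha]
    exact hb

omit [DecidableEq ι] in
private theorem finrank_kr (M : Matrix ι ι K) :
    Module.finrank K (rg M) + Module.finrank K (kr M) = Fintype.card ι := by
  have h := LinearMap.finrank_range_add_finrank_ker M.mulVecLin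
  rw [Module.finrank_fintype_fun_eq_card] at h
  exact h

omit [DecidableEq ι] in
private theorem ne_zero_of_kr [Nonempty ι] {M : Matrix ι ι K}
    (h : 2 * Module.finrank K (kr M) = Fintype.card ι) : M ≠ 0 := by
  intro h0
  have h1 : kr M = ⊤ := by
    unfold kr
    rw [h0, Matrix.mulVecLin_zero, LinearMap.ker_zero]
  rw [h1, finrank_top, Module.finrank_fintype_fun_eq_card] at h
  have h3 : 0 < Fintype.card ι := Fintype.card_pos
  omega

private theorem Wd.main [Nonempty ι] (h : PP P ρ G₀ X) {n : ℕ} {x a b : G}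
    (hw : Wd P ρ X n x a b) : P.l ρ x = n ∧ P.D ρ x = P.D ρ a ∧ kr (P.Om ρ x) = P.D ρ b⁻¹ := by
  induction hw with
  | one a ha => exact ⟨h.X_len a ha, rfl, h.ker_eq a ha⟩
  | cons n a x b c ha hw hb ih =>
    obtain ⟨h1, h2, h3⟩ := ih
    have hcX : c⁻¹ ∈ X := h.X_inv c hw.last
    have hdis : Disjoint (rg (P.Om ρ x)) (kr (P.Om ρ a)) := by
      have e1 : rg (P.Om ρ x) = P.D ρ b := h2
      rw [e1, h.ker_eq a ha]
      rcases h.dich b hw.first a⁻¹ (h.X_inv a ha) with h4 | h4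
      · exact absurd h4 hb
      · exact h4
    have hkr : kr (P.Om ρ a * P.Om ρ x) = kr (P.Om ρ x) := by
      unfold kr
      rw [Matrix.mulVecLin_mul]
      apply le_antisymm
      · intro v hv
        rw [LinearMap.mem_ker, LinearMap.comp_apply] at hv
        rw [LinearMap.mem_ker]
        have h5 : (P.Om ρ x).mulVecLin v ∈ rg (P.Om ρ x) := LinearMap.mem_range_self _ v
        have h6 : (P.Om ρ x).mulVecLin v ∈ kr (P.Om ρ a) := by
          show (P.Om ρ x).mulVecLin v ∈ LinearMap.ker (P.Om ρ a).mulVecLin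
          rw [LinearMap.mem_ker]
          exact hv
        exact Submodule.disjoint_def.1 hdis _ h5 h6
      · exact LinearMap.ker_le_ker_comp _ _
    have hk2 : 2 * Module.finrank K (kr (P.Om ρ a * P.Om ρ x)) = Fintype.card ι := by
      rw [hkr, h3]
      exact h.rank c⁻¹ hcX
    have hne : P.Om ρ a * P.Om ρ x ≠ 0 := ne_zero_of_kr hk2
    obtain ⟨h7, h8⟩ := om_mul hne
    refine ⟨?_, ?_, ?_⟩
    · rw [h7, h1, h.X_len a ha]
      omega
    · show rg (P.Om ρ (a * x)) = rg (P.Om ρ a)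
      rw [h8]
      refine Submodule.eq_of_le_of_finrank_eq ?_ ?_
      · unfold rg
        rw [Matrix.mulVecLin_mul]
        exact LinearMap.range_comp_le_range _ _
      · have h9 := finrank_kr (P.Om ρ a * P.Om ρ x)
        have h10 : 2 * Module.finrank K (rg (P.Om ρ a)) = Fintype.card ι := h.rank a ha
        omega
    · rw [h8, hkr, h3]

private theorem merge_inv (h : PP P ρ G₀ X) {x y : G} (hx : x ∈ X) (hy : y ∈ X)
    (hd : P.D ρ y = P.D ρ x⁻¹) (hxy : x * y ∈ X) : P.D ρ (x * y)⁻¹ = P.D ρ y⁻¹ := by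
  have h1 := h.merge y⁻¹ (h.X_inv y hy) x⁻¹ (h.X_inv x hx) (by rw [inv_inv]; exact hd.symm)
  rw [← _root_.mul_inv_rev] at h1
  rcases h1 with h1 | h1
  · exfalso
    have h2 : x * y ∈ G₀ := by
      have := G₀.inv_mem h1
      rwa [inv_inv] at this
    have h3 := (const_om (h.const _ h2)).1
    have h4 := h.X_len _ hxy
    omega
  · exact h1.2

private theorem X_right (h : PP P ρ G₀ X) {g x : G} (hg : g ∈ G₀) (hx : x ∈ X) : x * g ∈ X := by
  have h1 := h.X_inv _ (h.X_mul g⁻¹ (G₀.inv_mem hg) x⁻¹ (h.X_inv x hx))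
  rwa [_root_.mul_inv_rev, inv_inv, inv_inv] at h1

private theorem all_words [Nonempty ι] (h : PP P ρ G₀ X) (x : G) :
    x ∈ G₀ ∨ ∃ n a b, Wd P ρ X n x a b := by
  have step : ∀ s ∈ (G₀ : Set G) ∪ X, ∀ y, (y ∈ G₀ ∨ ∃ n a b, Wd P ρ X n y a b) →
      (s * y ∈ G₀ ∨ ∃ n a b, Wd P ρ X n (s * y) a b) := by
    intro s hs y hy
    rcases hs with hs | hs
    · have hs' : s ∈ G₀ := hs
      rcases hy with hy | ⟨n, a, b, hw⟩
      · exact Or.inl (G₀.mul_mem hs' hy)
      · obtain ⟨b', hb'⟩ := hw.left h hs'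
        exact Or.inr ⟨n, _, _, hb'⟩
    · rcases hy with hy | ⟨n, a, b, hw⟩
      · exact Or.inr ⟨1, _, _, Wd.one _ (X_right h hy hs)⟩
      · by_cases hd : P.D ρ a = P.D ρ s⁻¹
        · cases hw with
          | one _ ha =>
            rcases h.merge s hs y ha hd with h1 | h1
            · exact Or.inl h1
            · exact Or.inr ⟨1, _, _, Wd.one _ h1.1⟩
          | cons n _ x b' c ha hw hb =>
            rcases h.merge s hs a ha hd with h1 | h1
            · obtain ⟨b1, hb1⟩ := hw.left h h1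
              rw [← mul_assoc]
              exact Or.inr ⟨n, _, _, hb1⟩
            · rw [← mul_assoc]
              refine Or.inr ⟨n + 1, _, _, Wd.cons n (s * a) x b' _ h1.1 hw ?_⟩
              rw [merge_inv h hs ha hd h1.1]
              exact hb
        · exact Or.inr ⟨n + 1, _, _, Wd.cons n s y a b hs hw hd⟩
  have hx : x ∈ Subgroup.closure ((G₀ : Set G) ∪ X) := by
    rw [h.gen]
    trivial
  refine Subgroup.closure_induction_left (p := fun y _ => y ∈ G₀ ∨ ∃ n a b, Wd P ρ X n y a b)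
    (Or.inl G₀.one_mem) (fun s hs y _ hy => step s hs y hy) (fun s hs y _ hy => step s⁻¹ ?_ y hy) hx
  rcases hs with hs | hs
  · exact Or.inl (G₀.inv_mem hs)
  · exact Or.inr (h.X_inv s hs)

theorem PP.geo [Nonempty ι] (h : PP P ρ G₀ X) : Geo P ρ G₀ X := by
  have hzero : ∀ x, P.l ρ x = 0 ↔ x ∈ G₀ := by
    intro x
    constructor
    · intro hx
      rcases all_words h x with h1 | ⟨n, a, b, hw⟩
      · exact h1
      · exfalso
        have h2 := (hw.main h).1
        exact hw.pos (by omega)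
    · intro hx
      exact (const_om (h.const x hx)).1
  refine { toPP := h
           len_zero := hzero
           len_inv := ?_
           om_ne := ?_
           om_inv := ?_
           ker_all := ?_
           dir := ?_ }
  · intro x
    rcases all_words h x with h1 | ⟨n, a, b, hw⟩
    · rw [(hzero x).2 h1, (hzero x⁻¹).2 (G₀.inv_mem h1)]
    · rw [(hw.main h).1, ((hw.inv h.X_inv).main h).1]
  · intro x
    rcases all_words h x with h1 | ⟨n, a, b, hw⟩
    · intro h2
      have h3 := om_mul_inv h h1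
      rw [h2, Matrix.zero_mul] at h3
      exact zero_ne_one h3
    · refine ne_zero_of_kr ?_
      rw [(hw.main h).2.2]
      exact h.rank _ (h.X_inv _ hw.last)
  · intro x hx
    exact om_mul_inv h ((hzero x).1 hx)
  · intro x hx
    rcases all_words h x with h1 | ⟨n, a, b, hw⟩
    · exact absurd ((hzero x).2 h1) hx
    · rw [(hw.main h).2.2, ((hw.inv h.X_inv).main h).2.1]
  · intro x hx
    rcases all_words h x with h1 | ⟨n, a, b, hw⟩
    · exact absurd ((hzero x).2 h1) hx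
    · have hm := hw.main h
      cases hw with
      | one _ ha =>
        refine ⟨x, ha, 1, (mul_one x).symm, ?_, rfl⟩
        rw [(hzero 1).2 G₀.one_mem, hm.1]
      | cons n _ z b' _ ha hw hb =>
        exact ⟨a, ha, z, rfl, by rw [hm.1, (hw.main h).1], hm.2.1⟩

end RLin
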