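import Pool.Agent.RLin.EW

set_option autoImplicit false

/-!
# RLin/L4: an isometric stabiliser is trivial

Let `w` be hyperbolic.  `S₀ w` is the set of all `y` with `ρ y (E w) = E w` and `N (ρ y u) = N u`
for `u ∈ E w`.  It is closed under inverses.  Claim: `y ∈ S₀ w` implies `y = 1`.

(*) If `y ∈ S₀ w` and `l y ≠ 0` then `D y⁻¹ = D w` and `D y = D w`: by `E_apply'` for `y` and some
`u ∈ E w`, `u ≠ 0` (`E_ne_bot`), since `t ^ l y * N (ρ y u) = t ^ l y * N u ≠ N u` (`t = v T < 1`);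
the same for `y⁻¹` (`l y⁻¹ = l y`).

(**) Let `x, z` be as in `rot`: `w = x * z`, `x ∈ X`, `D x = D w`, `w₁ = z * x = x⁻¹ * w * x` hyperbolic
with `D w₁ ≠ D x⁻¹`.  If `y ∈ S₀ w` then `y₁ = x⁻¹ * y * x ∈ S₀ w₁`: `E w₁ = im (ρ x⁻¹) (E w)` by
`E_conj`, and `ρ x` multiplies the norm on `E w₁` by `t⁻¹` (`E_apply`, since `D x⁻¹ ≠ D w₁`).

Induction on `l y` (for all `w`).  Let `x, z, w₁, y₁` be as in (**).

Case `l y ≠ 0`.  By (*) `D y = D y⁻¹ = D w = D x`.  Let `z₁ = x⁻¹ * y`, so `y₁ = z₁ * x` and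
`y₁⁻¹ = x⁻¹ * z₁⁻¹`.  Apply `step` to `x⁻¹, y` (`D y = D x = D (x⁻¹)⁻¹`).
* If `l z₁ + 1 = l y` and `l y = 1` then `z₁ ∈ G₀`, `y₁ = z₁ * x ∈ X` has `D y₁⁻¹ = D x⁻¹` (`right`),
  which contradicts (*) for `y₁`, `w₁`.
* Otherwise `l z₁ ≠ 0`, `l z₁ ≤ l y` and `D z₁⁻¹ = D y⁻¹ = D x`.  Apply `step` to `x⁻¹, z₁⁻¹`: either
  `l y₁⁻¹ + 1 = l z₁`, so `l y₁ < l y` and `y₁ = 1` by induction, `y = 1`; or `l y₁⁻¹ = l z₁ ≠ 0` and
  `D y₁⁻¹ = D x⁻¹ ≠ D w₁`, which contradicts (*).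

Case `l y = 0`, i.e. `y ∈ G₀`.
Claim A: `D (y * x) = D x` and `y₁ ∈ G₀`.  If `D (y * x) ≠ D x = D (x⁻¹)⁻¹` then by `far`
`l y₁ = 2` and `D y₁ = D x⁻¹ ≠ D w₁`, which contradicts (*).  So `D (y * x) = D x` and by `merge` for
`x⁻¹, y * x` either `y₁ ∈ G₀` or `y₁ ∈ X`, `D y₁ = D x⁻¹`, which contradicts (*) again.
Suppose `y ≠ 1`.  Then `y₁ ∈ G₀`, `y₁ ≠ 1`, `y₁ ∈ S₀ w₁` and `D (y₁ * x⁻¹) = D (x⁻¹ * y) = D x⁻¹`
(`right`).  Claim A for `w₁, y₁` gives a letter `x₁` with `D x₁ = D w₁` and `D (y₁ * x₁) = D x₁`.  By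
`fix` `D x⁻¹ = D x₁ = D w₁`, a contradiction.
-/

universe u

namespace RLin

open Matrix

variable {K L Γ : Type u} [Field K] [Field L] [LinearOrderedCommGroupWithZero Γ]
variable {ι : Type} [Fintype ι] [DecidableEq ι] {P : Place K L Γ}
variable {G : Type u} [Group G] {ρ : G →* Matrix ι ι L} {G₀ : Subgroup G} {X : Set G}
variable [IsAlgClosed L]

private theorem L4_star [Nonempty ι] (h : Geo P ρ G₀ X) {w : G} (hw : P.Hyp ρ w) {y : G}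
    (hN : ∀ u ∈ P.E ρ w, P.N (ρ y *ᵥ u) = P.N u) (hl : P.l ρ y ≠ 0) : P.D ρ y⁻¹ = P.D ρ w := by
  obtain ⟨u, hu, hu0⟩ := (Submodule.ne_bot_iff _).1 (h.E_ne_bot hw)
  have hne : P.v P.T ^ P.l ρ y * P.N (ρ y *ᵥ u) ≠ P.N u := by
    rw [hN u hu]
    have h1 : P.N u ≠ 0 := fun h0 => hu0 ((N_eq_zero P u).1 h0)
    have h2 : P.v P.T ^ P.l ρ y < 1 := pow_lt_one₀ zero_le P.T_lt hl
    have h3 : P.v P.T ^ P.l ρ y * P.N u < P.N u := by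
      calc P.v P.T ^ P.l ρ y * P.N u < 1 * P.N u :=
            mul_lt_mul_of_pos_right h2 (zero_lt_iff.2 h1)
        _ = P.N u := one_mul _
    exact h3.ne
  exact (h.E_apply' hw hu hne).2

/-- the isometric stabiliser -/
private def L4_S (P : Place K L Γ) (ρ : G →* Matrix ι ι L) (w y : G) : Prop :=
  im (ρ y) (P.E ρ w) = P.E ρ w ∧ ∀ u ∈ P.E ρ w, P.N (ρ y *ᵥ u) = P.N u

private theorem L4_rho_inv (ρ : G →* Matrix ι ι L) (g : G) (u : ι → L) :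
    ρ g *ᵥ (ρ g⁻¹ *ᵥ u) = u := by
  rw [Matrix.mulVec_mulVec, ← map_mul, mul_inv_cancel, map_one, Matrix.one_mulVec]

private theorem L4_S_inv {w y : G} (hs : L4_S P ρ w y) : L4_S P ρ w y⁻¹ := by
  obtain ⟨h1, h2⟩ := hs
  have h3 : im (ρ y⁻¹) (P.E ρ w) = P.E ρ w := by
    conv_lhs => rw [← h1]
    rw [← im_mul, ← map_mul, inv_mul_cancel, map_one, im_one]
  refine ⟨h3, ?_⟩
  intro u hu
  have h4 : ρ y⁻¹ *ᵥ u ∈ P.E ρ w := by
    rw [← h3, mem_im]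
    exact ⟨u, hu, rfl⟩
  have h5 := h2 _ h4
  rw [L4_rho_inv] at h5
  exact h5.symm

private theorem L4_star2 [Nonempty ι] (h : Geo P ρ G₀ X) {w : G} (hw : P.Hyp ρ w) {y : G}
    (hs : L4_S P ρ w y) (hl : P.l ρ y ≠ 0) : P.D ρ y⁻¹ = P.D ρ w ∧ P.D ρ y = P.D ρ w := by
  refine ⟨L4_star h hw hs.2 hl, ?_⟩
  have h1 := L4_star h hw (L4_S_inv hs).2 (by rw [h.len_inv]; exact hl)
  rwa [inv_inv] at h1

private theorem L4_conj (h : Geo P ρ G₀ X) {x z : G} (hw : P.Hyp ρ (x * z))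
    (hw1 : P.Hyp ρ (z * x)) (hne : P.D ρ (z * x) ≠ P.D ρ x⁻¹) {y : G}
    (hs : L4_S P ρ (x * z) y) : L4_S P ρ (z * x) (x⁻¹ * y * x) := by
  have he : x⁻¹ * (x * z) * (x⁻¹)⁻¹ = z * x := by group
  have hE : P.E ρ (z * x) = im (ρ x⁻¹) (P.E ρ (x * z)) := by
    have h1 := h.E_conj (w := x * z) (g := x⁻¹) hw (by rw [he]; exact hw1)
    rwa [he] at h1
  have him : im (ρ (x⁻¹ * y * x)) (P.E ρ (z * x)) = P.E ρ (z * x) := by
    rw [hE, ← im_mul, ← map_mul]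
    have h2 : x⁻¹ * y * x * x⁻¹ = x⁻¹ * y := by group
    rw [h2, map_mul, im_mul, hs.1]
  refine ⟨him, ?_⟩
  intro u hu
  have hx : P.l ρ x = 0 ∨ P.D ρ x⁻¹ ≠ P.D ρ (z * x) := Or.inr hne.symm
  have h3 := h.E_apply hw1 hx hu
  have hu' : ρ x *ᵥ u ∈ P.E ρ (x * z) := by
    rw [hE, mem_im] at hu
    obtain ⟨u'', hu'', rfl⟩ := hu
    rw [L4_rho_inv]
    exact hu''
  have hu1 : ρ (x⁻¹ * y * x) *ᵥ u ∈ P.E ρ (z * x) := by
    rw [← him, mem_im]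
    exact ⟨u, hu, rfl⟩
  have h4 := h.E_apply hw1 hx hu1
  have h5 : ρ x *ᵥ (ρ (x⁻¹ * y * x) *ᵥ u) = ρ y *ᵥ (ρ x *ᵥ u) := by
    rw [Matrix.mulVec_mulVec, Matrix.mulVec_mulVec, ← map_mul, ← map_mul]
    congr 2
    group
  rw [h5, hs.2 _ hu', h3] at h4
  exact h4.symm

private theorem L4_claim [Nonempty ι] (h : Geo P ρ G₀ X) {w : G} (hw : P.Hyp ρ w) {y : G}
    (hs : L4_S P ρ w y) (hy : y ∈ G₀) :
    ∃ x ∈ X, ∃ z, w = x * z ∧ P.D ρ x = P.D ρ w ∧ P.Hyp ρ (z * x) ∧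
      P.D ρ (z * x) ≠ P.D ρ x⁻¹ ∧ P.D ρ (y * x) = P.D ρ x ∧ x⁻¹ * y * x ∈ G₀ := by
  obtain ⟨x, hx, z, rfl, hDx, hw1, -, hne⟩ := h.rot hw
  have hs1 := L4_conj h hw hw1 hne hs
  have hxi := h.X_inv x hx
  have hyx := h.X_mul y hy x hx
  have hassoc : x⁻¹ * (y * x) = x⁻¹ * y * x := (mul_assoc _ _ _).symm
  have hlx : P.l ρ x⁻¹ ≠ 0 := by rw [h.X_len _ hxi]; exact one_ne_zero
  have hlyx : P.l ρ (y * x) ≠ 0 := by rw [h.X_len _ hyx]; exact one_ne_zero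
  have hD : P.D ρ (y * x) = P.D ρ x := by
    by_contra hcon
    obtain ⟨h1, h2, -⟩ := h.far hlx hlyx (by rw [inv_inv]; exact hcon)
    rw [hassoc] at h1 h2
    have h3 : P.l ρ (x⁻¹ * y * x) ≠ 0 := by omega
    have h4 := (L4_star2 h hw1 hs1 h3).2
    exact hne (by rw [← h4, h2])
  refine ⟨x, hx, z, rfl, hDx, hw1, hne, hD, ?_⟩
  rcases h.merge x⁻¹ hxi (y * x) hyx (by rw [inv_inv]; exact hD) with h1 | ⟨h1, h2⟩
  · rwa [hassoc] at h1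
  · rw [hassoc] at h1 h2
    have h3 : P.l ρ (x⁻¹ * y * x) ≠ 0 := by rw [h.X_len _ h1]; exact one_ne_zero
    have h4 := (L4_star2 h hw1 hs1 h3).2
    exact absurd (by rw [← h4, h2]) hne

private theorem L4_main [Nonempty ι] (h : Geo P ρ G₀ X) : ∀ (n : ℕ) (w y : G), P.Hyp ρ w →
    L4_S P ρ w y → P.l ρ y = n → y = 1 := by
  intro n
  induction n using Nat.strong_induction_on with
  | _ n ih =>
    intro w y hw hs hn
    by_cases hy : P.l ρ y = 0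
    · have hyG : y ∈ G₀ := (h.len_zero y).1 hy
      by_contra hy1
      obtain ⟨x, hx, z, rfl, hDx, hw1, hne, hD, hG⟩ := L4_claim h hw hs hyG
      have hs1 := L4_conj h hw hw1 hne hs
      have hy1' : x⁻¹ * y * x ≠ 1 := by
        intro h0
        apply hy1
        have : y = x * (x⁻¹ * y * x) * x⁻¹ := by group
        rw [this, h0]
        group
      obtain ⟨x₁, hx₁, z₁, -, hDx₁, -, -, hD₁, -⟩ := L4_claim h hw1 hs1 hG
      have h1 : P.D ρ (x⁻¹ * y * x * x⁻¹) = P.D ρ x⁻¹ := by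
        have h2 : x⁻¹ * y * x * x⁻¹ = x⁻¹ * y := by group
        rw [h2]
        exact (h.right hyG x⁻¹).2
      have h3 := h.fix _ hG hy1' x⁻¹ (h.X_inv x hx) x₁ hx₁ h1 hD₁
      exact hne (by rw [h3, hDx₁])
    · obtain ⟨x, hx, z, rfl, hDx, hw1, -, hne⟩ := h.rot hw
      have hs1 := L4_conj h hw hw1 hne hs
      obtain ⟨hD1, hD2⟩ := L4_star2 h hw hs hy
      have hxi := h.X_inv x hx
      have hyx : P.D ρ y = P.D ρ (x⁻¹)⁻¹ := by rw [inv_inv, hDx]; exact hD2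
      have hcontra : P.l ρ (x⁻¹ * y * x) ≠ 0 → P.D ρ (x⁻¹ * y * x)⁻¹ = P.D ρ x⁻¹ → y = 1 := by
        intro h1 h2
        have h3 := (L4_star2 h hw1 hs1 h1).1
        exact absurd (by rw [← h3, h2]) hne
      have hB : P.l ρ (x⁻¹ * y) ≠ 0 → P.l ρ (x⁻¹ * y) ≤ P.l ρ y →
          P.D ρ (x⁻¹ * y)⁻¹ = P.D ρ y⁻¹ → y = 1 := by
        intro h1 h2 h3
        have h4 : P.l ρ (x⁻¹ * y)⁻¹ ≠ 0 := by rw [h.len_inv]; exact h1
        have h5 : x⁻¹ * (x⁻¹ * y)⁻¹ = (x⁻¹ * y * x)⁻¹ := by group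
        have h6 := h.step hxi h4 (by rw [h3, hD1, inv_inv, hDx])
        rw [h5] at h6
        rcases h6 with ⟨h7, -⟩ | ⟨h7, h8, -⟩
        · rw [h.len_inv, h.len_inv] at h7
          have h9 := ih (P.l ρ (x⁻¹ * y * x)) (by omega) (z * x) (x⁻¹ * y * x) hw1 hs1 rfl
          have h10 : y = x * (x⁻¹ * y * x) * x⁻¹ := by group
          rw [h10, h9]
          group
        · rw [h.len_inv, h.len_inv] at h7
          exact hcontra (by omega) h8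
      rcases h.step hxi hy hyx with ⟨h1, h2⟩ | ⟨h1, h2, h3⟩
      · by_cases hone : P.l ρ y = 1
        · have hz1 : x⁻¹ * y ∈ G₀ := (h.len_zero _).1 (by omega)
          have hm := h.X_mul _ hz1 x hx
          apply hcontra
          · rw [h.X_len _ hm]; exact one_ne_zero
          · have h4 : (x⁻¹ * y * x)⁻¹ = x⁻¹ * (x⁻¹ * y)⁻¹ := by group
            rw [h4]
            exact (h.right (G₀.inv_mem hz1) x⁻¹).2
        · exact hB (by omega) (by omega) (h2 hone)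
      · exact hB (by omega) (by omega) h3

theorem Geo.L4 [Nonempty ι] (h : Geo P ρ G₀ X) {w : G} (hw : P.Hyp ρ w) {y : G}
    (hy : im (ρ y) (P.E ρ w) = P.E ρ w) (hN : ∀ u ∈ P.E ρ w, P.N (ρ y *ᵥ u) = P.N u) :
    y = 1 :=
  L4_main h (P.l ρ y) w y hw ⟨hy, hN⟩ rfl

end RLin
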