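import Pool.Agent.RLin.Defs

set_option autoImplicit false

/-!
# RLin/PlaceEx: existence of places

Let `K` be algebraically closed of characteristic zero.  Take `L = AlgebraicClosure (FractionRing
K[X])` (or `RatFunc K`), `T` the image of `X`.  The subring `R` of `L` which is the image of
`{f / g : g(0) ≠ 0}` (for instance the localization of `K[X]` at the prime ideal `(X)`) is local, with
maximal ideal generated by `T`.  By `LocalSubring.exists_le_valuationSubring` there is a valuation
subring `O` of `L` which dominates `R`.  Put `Γ = O.ValueGroup`, `v = O.valuation`.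

* `v_i`: constants are in `R ≤ O`.
* `T_lt`: `T` is a non-unit of `R` and `O` dominates `R`, so `T` is a non-unit of `O`
  (`ValuationSubring.valuation_lt_one_iff`).  `T_ne` is clear.
* A polynomial `p ∈ K[X]` with `p(0) ≠ 0` is a unit of `R`, so `v p = 1`.  Hence for `p ≠ 0`,
  `v p = v T ^ m` with `m` the multiplicity of the root `0`.
* `arch`: let `y ≠ 0`.  If `v y ≥ 1` take `M = 0`.  Otherwise `y` is algebraic over
  `K(X)`, so after clearing denominators there are `a_0, ..., a_n ∈ K[X]` with `∑ a_j y ^ j = 0`,
  and dividing by a power of `y` we may assume `a_0 ≠ 0`.  Then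
  `v a_0 = v (- ∑_{j ≥ 1} a_j y ^ j) ≤ v y` and `v a_0 = v T ^ m`.
* `res`: let `v y ≤ 1`.  As above `∑ a_j y ^ j = 0` with `a_j ∈ K[X]` not all zero; dividing by
  a power of `X` we may assume that some `a_j(0) ≠ 0`.  Since `v (a_j - a_j(0)) < 1` we get
  `v (∑ a_j(0) y ^ j) < 1`.  The polynomial `q = ∑ a_j(0) Y ^ j ∈ K[Y]` is not zero; if it is constant
  then `v q(y) = 1`, a contradiction; so `q = c ∏ (Y - b_k)` with `c ≠ 0`, `b_k ∈ K`, and
  `v (y - b_k) < 1` for some `k`.

`L` is algebraically closed and of characteristic zero.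
-/

universe u

namespace RLin

open Polynomial in
private theorem exists_alg_coeff_zero {R L : Type u} [CommRing R] [IsDomain R] [Field L]
    [Algebra R L] (y : L) (hy : y ≠ 0) (h : IsAlgebraic R y) :
    ∃ Q : R[X], Q.coeff 0 ≠ 0 ∧ aeval y Q = 0 := by
  obtain ⟨P, hP, hPy⟩ := h
  obtain ⟨Q, hQ, hQX⟩ := Polynomial.exists_eq_pow_rootMultiplicity_mul_and_not_dvd P hP 0
  refine ⟨Q, ?_, ?_⟩
  · intro h0
    apply hQX
    simpa [Polynomial.X_dvd_iff] using h0
  · rw [hQ] at hPy
    simpa [hy] using hPy

open Polynomial in
private theorem v_aeval_le {R L Γ : Type u} [CommRing R] [Field L] [Algebra R L]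
    [LinearOrderedCommGroupWithZero Γ] (v : Valuation L Γ) (hv : ∀ r : R, v (algebraMap R L r) ≤ 1)
    (y : L) (hy : v y ≤ 1) (P : R[X]) : v (aeval y P) ≤ 1 := by
  rw [Polynomial.aeval_eq_sum_range]
  apply Valuation.map_sum_le
  intro j _
  rw [Algebra.smul_def, map_mul, map_pow]
  exact mul_le_one' (hv _) (pow_le_one' hy j)

theorem exists_place (K : Type u) [Field K] [IsAlgClosed K] [CharZero K] :
    ∃ (L : Type u) (_ : Field L) (_ : IsAlgClosed L) (_ : CharZero L) (Γ : Type u)
      (_ : LinearOrderedCommGroupWithZero Γ), Nonempty (Place K L Γ) := by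
  let R := Polynomial K
  let F := FractionRing R
  let L := AlgebraicClosure F
  have hφ : Function.Injective (algebraMap R L) := by
    have h1 : algebraMap R L = (algebraMap F L).comp (algebraMap R F) :=
      IsScalarTower.algebraMap_eq R F L
    rw [h1]
    exact (algebraMap F L).injective.comp (IsFractionRing.injective R F)
  let φ : R →+* L := algebraMap R L
  have hφ' : ∀ p, φ p = algebraMap R L p := fun p => rfl
  have halg : ∀ y : L, IsAlgebraic R y := by
    intro y
    rw [IsFractionRing.isAlgebraic_iff R F L]
    exact Algebra.IsAlgebraic.isAlgebraic y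
  let A : Subring L := φ.range
  let t : A := ⟨φ Polynomial.X, ⟨_, rfl⟩⟩
  have ht : Ideal.span {t} ≠ ⊤ := by
    intro h
    rw [Ideal.span_singleton_eq_top] at h
    obtain ⟨s, hs⟩ := h.exists_right_inv
    obtain ⟨_, ⟨p, rfl⟩⟩ := s
    have h2 : φ (Polynomial.X * p) = φ 1 := by
      have := congrArg Subtype.val hs
      simpa [t] using this
    have h3 := congrArg (Polynomial.eval 0) (hφ h2)
    rw [Polynomial.eval_mul, Polynomial.eval_X, zero_mul, Polynomial.eval_one] at h3
    exact zero_ne_one h3
  obtain ⟨O, hAO, hO⟩ := Ideal.image_subset_nonunits_valuationSubring (Ideal.span {t}) ht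
  have v1 : ∀ p : R, O.valuation (φ p) ≤ 1 := by
    intro p
    rw [ValuationSubring.valuation_le_one_iff]
    exact hAO ⟨p, rfl⟩
  have vT : O.valuation (φ Polynomial.X) < 1 := by
    rw [← ValuationSubring.mem_nonunits_iff]
    exact hO ⟨t, Ideal.subset_span rfl, rfl⟩
  have T0 : φ Polynomial.X ≠ 0 := by
    intro h
    have : (Polynomial.X : R) = 0 := hφ (by rw [map_zero]; exact h)
    exact Polynomial.X_ne_zero this
  have vC : ∀ a : K, a ≠ 0 → O.valuation (φ (Polynomial.C a)) = 1 := by
    intro a ha
    have h1 : O.valuation (φ (Polynomial.C a)) * O.valuation (φ (Polynomial.C a⁻¹)) = 1 := by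
      rw [← map_mul, ← map_mul, ← Polynomial.C_mul, mul_inv_cancel₀ ha]
      simp
    refine le_antisymm (v1 _) ?_
    by_contra h
    push Not at h
    have := (mul_le_of_le_one_right' (v1 (Polynomial.C a⁻¹))).trans_lt h
    exact absurd h1 this.ne
  have v0 : ∀ p : R, p.coeff 0 ≠ 0 → O.valuation (φ p) = 1 := by
    intro p hp
    have h1 : φ p = φ (Polynomial.C (p.coeff 0)) + φ (Polynomial.divX p * Polynomial.X) := by
      rw [← map_add, add_comm, Polynomial.divX_mul_X_add]
    have h2 : O.valuation (φ (Polynomial.divX p * Polynomial.X)) <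
        O.valuation (φ (Polynomial.C (p.coeff 0))) := by
      rw [vC _ hp, map_mul, map_mul]
      exact (mul_le_of_le_one_left' (v1 _)).trans_lt vT
    rw [h1, Valuation.map_add_eq_of_lt_left _ h2, vC _ hp]
  have vm : ∀ p : R, p ≠ 0 → ∃ m : ℕ, O.valuation (φ p) = O.valuation (φ Polynomial.X) ^ m := by
    intro p hp
    obtain ⟨q, hq, hqX⟩ := Polynomial.exists_eq_pow_rootMultiplicity_mul_and_not_dvd p hp 0
    refine ⟨p.rootMultiplicity 0, ?_⟩
    have hq0 : q.coeff 0 ≠ 0 := by
      intro h0
      apply hqX
      simpa [Polynomial.X_dvd_iff] using h0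
    conv_lhs => rw [hq]
    rw [map_mul, map_mul, v0 q hq0, mul_one]
    simp
  refine ⟨L, inferInstance, inferInstance, ?_, O.ValueGroup, inferInstance, ⟨?_⟩⟩
  · exact charZero_of_injective_algebraMap hφ
  · refine
      { i := φ.comp Polynomial.C
        v := O.valuation
        v_i := fun a => v1 _
        res := ?_
        T := φ Polynomial.X
        T_ne := T0
        T_lt := vT
        arch := ?_ }
    · intro y hy
      obtain ⟨P, hP, hPy⟩ := halg y
      have hCX : ¬ IsUnit (Polynomial.C (Polynomial.X : R)) := by
        rw [Polynomial.isUnit_C]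
        exact Polynomial.not_isUnit_X
      obtain ⟨Q, hPQ, hQ⟩ :=
        (FiniteMultiplicity.of_not_isUnit hCX hP).exists_eq_pow_mul_and_not_dvd
      have hQy : Polynomial.aeval y Q = 0 := by
        rw [hPQ, map_mul, map_pow, Polynomial.aeval_C] at hPy
        exact (mul_eq_zero.1 hPy).resolve_left (pow_ne_zero _ T0)
      -- the reduction of `Q`
      let q : Polynomial K := Q.map (Polynomial.constantCoeff)
      have hq : q ≠ 0 := by
        intro hq
        apply hQ
        rw [Polynomial.C_dvd_iff_dvd_coeff]
        intro j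
        rw [Polynomial.X_dvd_iff]
        have := congrArg (fun p => Polynomial.coeff p j) hq
        simpa [q, Polynomial.coeff_map] using this
      have hdvd : Polynomial.C (Polynomial.X : R) ∣ q.map Polynomial.C - Q := by
        rw [Polynomial.C_dvd_iff_dvd_coeff]
        intro j
        rw [Polynomial.X_dvd_iff]
        simp [q, Polynomial.coeff_map]
      obtain ⟨S, hS⟩ := hdvd
      have hlt : O.valuation (Polynomial.eval₂ (φ.comp Polynomial.C) y q) < 1 := by
        have h1 : Polynomial.eval₂ (φ.comp Polynomial.C) y q =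
            φ Polynomial.X * Polynomial.aeval y S := by
          have h2 := congrArg (Polynomial.aeval y) hS
          rw [map_sub, hQy, sub_zero, map_mul, Polynomial.aeval_C] at h2
          rw [← h2, Polynomial.aeval_def, Polynomial.eval₂_map Polynomial.C]
        rw [h1, map_mul]
        exact (mul_le_of_le_one_right' (v_aeval_le _ v1 y hy _)).trans_lt vT
      by_contra hcon
      push Not at hcon
      have hone : ∀ a, O.valuation (y - (φ.comp Polynomial.C) a) = 1 := by
        intro a
        refine le_antisymm ?_ (hcon a)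
        exact (Valuation.map_sub _ _ _).trans (max_le hy (v1 _))
      have hsplit := (IsAlgClosed.splits q).eq_prod_roots
      rw [hsplit] at hlt
      apply hlt.ne
      rw [Polynomial.eval₂_mul, Polynomial.eval₂_C, map_mul, RingHom.comp_apply,
        vC _ (by simpa using hq), one_mul, Polynomial.eval₂_multiset_prod, map_multiset_prod]
      apply Multiset.prod_eq_one
      intro x hx
      simp only [Multiset.map_map, Multiset.mem_map, Function.comp] at hx
      obtain ⟨a, _, rfl⟩ := hx
      simpa using hone a
    · intro y hy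
      by_cases h1 : 1 ≤ O.valuation y
      · exact ⟨0, by simpa using h1⟩
      · push Not at h1
        obtain ⟨Q, hQ0, hQ⟩ := exists_alg_coeff_zero y hy (halg y)
        obtain ⟨m, hm⟩ := vm _ hQ0
        refine ⟨m, ?_⟩
        rw [← hm]
        have h2 : φ (Q.coeff 0) = - (Polynomial.aeval y (Polynomial.divX Q) * y) := by
          rw [← Polynomial.divX_mul_X_add Q] at hQ
          simp only [map_add, map_mul, Polynomial.aeval_X, Polynomial.aeval_C] at hQ
          rw [eq_neg_iff_add_eq_zero, add_comm]
          exact hQ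
        rw [h2, Valuation.map_neg, map_mul]
        exact mul_le_of_le_one_left' (v_aeval_le _ v1 y h1.le _)

end RLin
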