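import Pool.Agent.RLin.Vec

set_option autoImplicit false

/-!
# RLin/Rules: lengths and directions of products

Notation: `l x = P.l ρ x`, `Om x = P.Om ρ x`, `D x = P.D ρ x = rg (Om x)`.  `T ^ l x • ρ x` reduces to
`Om x ≠ 0` (`Rm_lc`, `Geo.om_ne`).
-/

universe u

namespace RLin

open Matrix

variable {K L Γ : Type u} [Field K] [Field L] [LinearOrderedCommGroupWithZero Γ]
variable {ι : Type} [Fintype ι] [DecidableEq ι] {P : Place K L Γ}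
variable {G : Type u} [Group G] {ρ : G →* Matrix ι ι L} {G₀ : Subgroup G} {X : Set G}

private theorem Rules_rg_mul_le (M N : Matrix ι ι K) : rg (M * N) ≤ rg M := by
  unfold rg
  rw [Matrix.mulVecLin_mul]
  exact LinearMap.range_comp_le_range _ _

private theorem Rules_eq_zero {M : Matrix ι ι K} (h : rg M = ⊥) : M = 0 := by
  unfold rg at h
  rw [LinearMap.range_eq_bot] at h
  have h1 : M.mulVecLin = (0 : Matrix ι ι K).mulVecLin := by rw [h, Matrix.mulVecLin_zero]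
  ext i j
  have h2 := congrFun (LinearMap.congr_fun h1 (Pi.single j 1)) i
  simpa using h2

private theorem Rules_mul_zero {M N : Matrix ι ι K} : M * N = 0 ↔ rg N ≤ kr M := by
  unfold rg kr
  rw [LinearMap.range_le_ker_iff, ← Matrix.mulVecLin_mul]
  constructor
  · intro h
    rw [h, Matrix.mulVecLin_zero]
  · intro h
    apply Rules_eq_zero
    unfold rg
    rw [h, LinearMap.range_zero]

private theorem Rules_prod (P : Place K L Γ) (ρ : G →* Matrix ι ι L) (x y : G) :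
    P.Rm (P.T ^ (P.l ρ x + P.l ρ y) • ρ (x * y)) (P.Om ρ x * P.Om ρ y) := by
  have h1 := Rm_mul P (Rm_lc P (ρ x)) (Rm_lc P (ρ y))
  rw [smul_mul_smul_comm, ← pow_add, ← map_mul] at h1
  exact h1

/-- `T ^ (l x + l y) • ρ (x * y)` reduces to `Om x * Om y`; use `len_eq`. -/
theorem Geo.mul_eq (h : Geo P ρ G₀ X) {x y : G} (hxy : P.Om ρ x * P.Om ρ y ≠ 0) :
    P.l ρ (x * y) = P.l ρ x + P.l ρ y ∧ P.Om ρ (x * y) = P.Om ρ x * P.Om ρ y := by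
  have _ := h
  exact len_eq P (Rules_prod P ρ x y) hxy

/-- `T ^ (l x + l y) • ρ (x * y)` reduces to `0`; use `len_lt`. -/
theorem Geo.mul_lt (h : Geo P ρ G₀ X) {x y : G} (hxy : P.Om ρ x * P.Om ρ y = 0) :
    P.l ρ (x * y) < P.l ρ x + P.l ρ y := by
  have h1 := Rules_prod P ρ x y
  rw [hxy] at h1
  exact len_lt P h1 (h.om_ne (x * y))

theorem Geo.mul_le (h : Geo P ρ G₀ X) (x y : G) : P.l ρ (x * y) ≤ P.l ρ x + P.l ρ y := by
  by_cases hxy : P.Om ρ x * P.Om ρ y = 0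
  · exact (h.mul_lt hxy).le
  · exact (h.mul_eq hxy).1.le

theorem Geo.l_one (h : Geo P ρ G₀ X) : P.l ρ (1 : G) = 0 := (h.len_zero 1).2 G₀.one_mem

/-- from `Geo.dir` and `PP.rank` -/
theorem Geo.rank_all (h : Geo P ρ G₀ X) {x : G} (hx : P.l ρ x ≠ 0) :
    2 * Module.finrank K (P.D ρ x) = Fintype.card ι := by
  obtain ⟨y, hy, z, -, -, hD⟩ := h.dir x hx
  rw [hD]
  exact h.rank y hy

/-- from `Geo.dir` and `PP.dich` -/
theorem Geo.dich_all (h : Geo P ρ G₀ X) {x y : G} (hx : P.l ρ x ≠ 0) (hy : P.l ρ y ≠ 0) :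
    P.D ρ x = P.D ρ y ∨ Disjoint (P.D ρ x) (P.D ρ y) := by
  obtain ⟨x', hx', z, -, -, hD⟩ := h.dir x hx
  obtain ⟨y', hy', w, -, -, hD'⟩ := h.dir y hy
  rw [hD, hD']
  exact h.dich x' hx' y' hy'

private theorem Rules_far1 (h : Geo P ρ G₀ X) {x y : G} (hx : P.l ρ x ≠ 0) (hy : P.l ρ y ≠ 0)
    (hd : P.D ρ y ≠ P.D ρ x⁻¹) :
    P.l ρ (x * y) = P.l ρ x + P.l ρ y ∧ P.D ρ (x * y) = P.D ρ x := by
  have hx' : P.l ρ x⁻¹ ≠ 0 := by rw [h.len_inv]; exact hx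
  have hdis : Disjoint (P.D ρ y) (P.D ρ x⁻¹) := by
    rcases h.dich_all hy hx' with h1 | h1
    · exact absurd h1 hd
    · exact h1
  have hne : P.Om ρ x * P.Om ρ y ≠ 0 := by
    intro h0
    rw [Rules_mul_zero, h.ker_all x hx] at h0
    have h1 : P.D ρ y = ⊥ := by
      have h2 : P.D ρ y ≤ P.D ρ y ⊓ P.D ρ x⁻¹ := le_inf le_rfl h0
      rw [hdis.eq_bot] at h2
      exact le_bot_iff.1 h2
    exact h.om_ne y (Rules_eq_zero h1)
  obtain ⟨h1, h2⟩ := h.mul_eq hne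
  refine ⟨h1, ?_⟩
  have hle : P.D ρ (x * y) ≤ P.D ρ x := by
    have h3 : P.D ρ (x * y) = rg (P.Om ρ x * P.Om ρ y) := by rw [← h2]; rfl
    rw [h3]
    exact Rules_rg_mul_le _ _
  apply Submodule.eq_of_le_of_finrank_eq hle
  have h3 := h.rank_all hx
  have h4 : P.l ρ (x * y) ≠ 0 := by omega
  have h5 := h.rank_all h4
  omega

/-- `kr (Om x) = D x⁻¹` is disjoint from `D y = rg (Om y) ≠ 0`, so `Om x * Om y ≠ 0` and `mul_eq`
applies; `rg (Om x * Om y) ≤ rg (Om x)` and both have half dimension (`rank_all`), so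
`D (x * y) = D x`; the last statement is the same for `y⁻¹, x⁻¹`
(`D x⁻¹ ≠ D y = D (y⁻¹)⁻¹`). -/
theorem Geo.far (h : Geo P ρ G₀ X) {x y : G} (hx : P.l ρ x ≠ 0) (hy : P.l ρ y ≠ 0)
    (hd : P.D ρ y ≠ P.D ρ x⁻¹) :
    P.l ρ (x * y) = P.l ρ x + P.l ρ y ∧ P.D ρ (x * y) = P.D ρ x ∧
      P.D ρ (x * y)⁻¹ = P.D ρ y⁻¹ := by
  obtain ⟨h1, h2⟩ := Rules_far1 h hx hy hd
  refine ⟨h1, h2, ?_⟩
  have hx' : P.l ρ x⁻¹ ≠ 0 := by rw [h.len_inv]; exact hx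
  have hy' : P.l ρ y⁻¹ ≠ 0 := by rw [h.len_inv]; exact hy
  have h3 := (Rules_far1 h hy' hx' (by rw [inv_inv]; exact hd.symm)).2
  rw [_root_.mul_inv_rev]
  exact h3

/-- `rg (Om y) = kr (Om x)`, so `Om x * Om y = 0` -/
theorem Geo.near (h : Geo P ρ G₀ X) {x y : G} (hx : P.l ρ x ≠ 0)
    (hd : P.D ρ y = P.D ρ x⁻¹) : P.l ρ (x * y) < P.l ρ x + P.l ρ y := by
  apply h.mul_lt
  rw [Rules_mul_zero, h.ker_all x hx, ← hd]
  exact le_rfl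

private theorem Rules_inv (h : Geo P ρ G₀ X) {g : G} (hg : g ∈ G₀) :
    P.Om ρ g * P.Om ρ g⁻¹ = 1 ∧ P.Om ρ g⁻¹ * P.Om ρ g = 1 := by
  have h1 := h.om_inv g ((h.len_zero g).2 hg)
  exact ⟨h1, mul_eq_one_comm.1 h1⟩

/-- for `g ∈ G₀` the matrix `Om g` is invertible (`om_inv`), so `mul_eq` applies -/
theorem Geo.left (h : Geo P ρ G₀ X) {g : G} (hg : g ∈ G₀) (x : G) :
    P.l ρ (g * x) = P.l ρ x ∧ P.Om ρ (g * x) = P.Om ρ g * P.Om ρ x ∧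
      P.D ρ (g * x) = im (P.Om ρ g) (P.D ρ x) := by
  obtain ⟨hi1, hi2⟩ := Rules_inv h hg
  have hne : P.Om ρ g * P.Om ρ x ≠ 0 := by
    intro h0
    apply h.om_ne x
    calc P.Om ρ x = (P.Om ρ g⁻¹ * P.Om ρ g) * P.Om ρ x := by rw [hi2, one_mul]
      _ = P.Om ρ g⁻¹ * (P.Om ρ g * P.Om ρ x) := mul_assoc _ _ _
      _ = 0 := by rw [h0, mul_zero]
  obtain ⟨h1, h2⟩ := h.mul_eq hne
  rw [(h.len_zero g).2 hg, zero_add] at h1
  refine ⟨h1, h2, ?_⟩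
  have h3 : P.D ρ (g * x) = rg (P.Om ρ g * P.Om ρ x) := by rw [← h2]; rfl
  rw [h3]
  unfold im Place.D rg
  rw [Matrix.mulVecLin_mul, LinearMap.range_comp]

theorem Geo.right (h : Geo P ρ G₀ X) {g : G} (hg : g ∈ G₀) (x : G) :
    P.l ρ (x * g) = P.l ρ x ∧ P.D ρ (x * g) = P.D ρ x := by
  obtain ⟨hi1, hi2⟩ := Rules_inv h hg
  have hne : P.Om ρ x * P.Om ρ g ≠ 0 := by
    intro h0
    apply h.om_ne x
    calc P.Om ρ x = P.Om ρ x * (P.Om ρ g * P.Om ρ g⁻¹) := by rw [hi1, mul_one]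
      _ = (P.Om ρ x * P.Om ρ g) * P.Om ρ g⁻¹ := (mul_assoc _ _ _).symm
      _ = 0 := by rw [h0, zero_mul]
  obtain ⟨h1, h2⟩ := h.mul_eq hne
  rw [(h.len_zero g).2 hg, add_zero] at h1
  refine ⟨h1, ?_⟩
  have h3 : P.D ρ (x * g) = rg (P.Om ρ x * P.Om ρ g) := by rw [← h2]; rfl
  rw [h3]
  apply le_antisymm
  · exact Rules_rg_mul_le _ _
  · have h4 : P.D ρ x = rg ((P.Om ρ x * P.Om ρ g) * P.Om ρ g⁻¹) := by
      rw [mul_assoc, hi1, mul_one]; rfl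
    rw [h4]
    exact Rules_rg_mul_le _ _

/-- `D (g * x) = D (g * y)` iff `D x = D y` for `g ∈ G₀`, by `left` for `g` and `g⁻¹` -/
theorem Geo.left_iff (h : Geo P ρ G₀ X) {g : G} (hg : g ∈ G₀) (x y : G) :
    P.D ρ (g * x) = P.D ρ (g * y) ↔ P.D ρ x = P.D ρ y := by
  constructor
  · intro h1
    have h2 := (h.left (G₀.inv_mem hg) (g * x)).2.2
    have h3 := (h.left (G₀.inv_mem hg) (g * y)).2.2
    rw [inv_mul_cancel_left] at h2 h3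
    rw [h2, h3, h1]
  · intro h1
    rw [(h.left hg x).2.2, (h.left hg y).2.2, h1]

/-- If `l x = 1` take `x = y * z` from `dir`, then `z ∈ G₀` and `x = (z⁻¹ * y⁻¹)⁻¹ ∈ X`. -/
theorem Geo.l_eq_one (h : Geo P ρ G₀ X) (x : G) : P.l ρ x = 1 ↔ x ∈ X := by
  constructor
  · intro h1
    obtain ⟨y, hy, z, hxyz, hl, -⟩ := h.dir x (by omega)
    have hz : z ∈ G₀ := (h.len_zero z).1 (by omega)
    have h2 := h.X_inv _ (h.X_mul z⁻¹ (G₀.inv_mem hz) y⁻¹ (h.X_inv y hy))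
    rw [_root_.mul_inv_rev, inv_inv, inv_inv, ← hxyz] at h2
    exact h2
  · exact h.X_len x

/-- If `x ∈ X` and `l (x * z) = l z + 1`, `l z ≠ 0` then `D z ≠ D x⁻¹` by `near`; now `far`. -/
theorem Geo.tail (h : Geo P ρ G₀ X) {x z : G} (hx : x ∈ X) (hz : P.l ρ z ≠ 0)
    (hl : P.l ρ (x * z) = P.l ρ z + 1) :
    P.D ρ z ≠ P.D ρ x⁻¹ ∧ P.D ρ (x * z) = P.D ρ x ∧ P.D ρ (x * z)⁻¹ = P.D ρ z⁻¹ := by
  have hx1 : P.l ρ x = 1 := h.X_len x hx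
  have hx0 : P.l ρ x ≠ 0 := by omega
  have hd : P.D ρ z ≠ P.D ρ x⁻¹ := by
    intro hd
    have := h.near hx0 hd
    omega
  exact ⟨hd, (h.far hx0 hz hd).2⟩

/-- If `x, y ∈ X`, `D y = D x⁻¹` and `x * y ∈ X` then `D (x * y) = D x` and
`D ((x * y)⁻¹) = D y⁻¹`: `merge` for `x, y` and for `y⁻¹, x⁻¹` (an element of `G₀` has length
`0`, an element of `X` has length `1`). -/
theorem Geo.merge' (h : Geo P ρ G₀ X) {x y : G} (hx : x ∈ X) (hy : y ∈ X)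
    (hd : P.D ρ y = P.D ρ x⁻¹) (hxy : x * y ∉ G₀) :
    x * y ∈ X ∧ P.D ρ (x * y) = P.D ρ x ∧ P.D ρ (x * y)⁻¹ = P.D ρ y⁻¹ := by
  rcases h.merge x hx y hy hd with h1 | ⟨h1, h2⟩
  · exact absurd h1 hxy
  refine ⟨h1, h2, ?_⟩
  rcases h.merge y⁻¹ (h.X_inv y hy) x⁻¹ (h.X_inv x hx) (by rw [inv_inv]; exact hd.symm) with
    h3 | ⟨-, h4⟩
  · rw [← _root_.mul_inv_rev] at h3
    exact absurd (by simpa using G₀.inv_mem h3) hxy
  · rw [_root_.mul_inv_rev]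
    exact h4

/-- Let `y = y₁ * z` be given by `dir`, so `D y₁ = D y = D x⁻¹`.
If `x * y₁ ∈ G₀` then `x * y = (x * y₁) * z` has length `l z = l y - 1` (`left`), and if `l z ≠ 0`
then `D (x * y)⁻¹ = D z⁻¹ = D y⁻¹` by `left`/`right` and `tail`: first alternative.
Otherwise `x * y₁ ∈ X` with directions `D x` and `D y₁⁻¹` (`merge'`).  If `l z = 0` then
`x * y = (x * y₁) * z` has length one, direction `D x`, and
`D (x * y)⁻¹ = im (Om z⁻¹) (D (x * y₁)⁻¹) = im (Om z⁻¹) (D y₁⁻¹) = D y⁻¹`.  If `l z ≠ 0` then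
`D z ≠ D y₁⁻¹ = D (x * y₁)⁻¹` (`tail`), so `far` applies to `(x * y₁) * z`. -/
theorem Geo.step (h : Geo P ρ G₀ X) {x y : G} (hx : x ∈ X) (hy : P.l ρ y ≠ 0)
    (hd : P.D ρ y = P.D ρ x⁻¹) :
    (P.l ρ (x * y) + 1 = P.l ρ y ∧ (P.l ρ y ≠ 1 → P.D ρ (x * y)⁻¹ = P.D ρ y⁻¹)) ∨
      (P.l ρ (x * y) = P.l ρ y ∧ P.D ρ (x * y) = P.D ρ x ∧ P.D ρ (x * y)⁻¹ = P.D ρ y⁻¹) := by
  obtain ⟨y₁, hy₁, z, hyz, hl, hD⟩ := h.dir y hy
  have hd1 : P.D ρ y₁ = P.D ρ x⁻¹ := by rw [← hD, hd]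
  have hxy : x * y = (x * y₁) * z := by rw [hyz, mul_assoc]
  have hxyi : (x * y)⁻¹ = z⁻¹ * (x * y₁)⁻¹ := by rw [hxy, _root_.mul_inv_rev]
  have hyi : y⁻¹ = z⁻¹ * y₁⁻¹ := by rw [hyz, _root_.mul_inv_rev]
  have hlyz : P.l ρ (y₁ * z) = P.l ρ z + 1 := by rw [← hyz]; exact hl
  by_cases hG : x * y₁ ∈ G₀
  · left
    refine ⟨?_, fun hne => ?_⟩
    · rw [hxy, (h.left hG z).1, hl]
    · have hz : P.l ρ z ≠ 0 := by omega
      rw [hxyi, (h.right (G₀.inv_mem hG) z⁻¹).2]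
      have h1 := (h.tail hy₁ hz hlyz).2.2
      rw [← hyz] at h1
      exact h1.symm
  · right
    obtain ⟨hm1, hm2, hm3⟩ := h.merge' hx hy₁ hd1 hG
    have hm4 : P.l ρ (x * y₁) = 1 := h.X_len _ hm1
    by_cases hz : P.l ρ z = 0
    · have hzG : z ∈ G₀ := (h.len_zero z).1 hz
      obtain ⟨h1, h2⟩ := h.right hzG (x * y₁)
      refine ⟨?_, ?_, ?_⟩
      · rw [hxy, h1, hm4]
        omega
      · rw [hxy, h2, hm2]
      · rw [hxyi, hyi, (h.left (G₀.inv_mem hzG) (x * y₁)⁻¹).2.2,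
          (h.left (G₀.inv_mem hzG) y₁⁻¹).2.2, hm3]
    · obtain ⟨h1, h2, h3⟩ := h.tail hy₁ hz hlyz
      have hm5 : P.l ρ (x * y₁) ≠ 0 := by omega
      obtain ⟨h4, h5, h6⟩ := h.far hm5 hz (by rw [hm3]; exact h1)
      rw [← hyz] at h3
      refine ⟨?_, ?_, ?_⟩
      · rw [hxy, h4, hm4]
        omega
      · rw [hxy, h5, hm2]
      · rw [hxy, h6, h3]

end RLin
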