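import Pool.Agent.RLin.L4

set_option autoImplicit false

/-!
# RLin/Stab: the stabiliser of an attracting subspace is infinite cyclic

Let `S = {y | im (ρ y) (E w) = E w}`, a subgroup, `t = v T`, `0 < t < 1`, `k = l w`.

(1) For `y ∈ S` there is an integer `δ` with `N (ρ y u) = t ^ δ * N u` for all `u ∈ E w` (`zpow` in
`Γ`).  Proof: let `n = l y + 1`, so `l (w ^ n) = n k > l y`, and `x = y * w ^ n`.  Then
`y⁻¹ = w ^ n * x⁻¹`.  If `l x⁻¹ = 0` or `D x⁻¹ ≠ D (w ^ n)⁻¹` then (`right`, `far`)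
`l y⁻¹ = l (w ^ n) + l x⁻¹ > l y`, a contradiction.  So `D x⁻¹ = D (w ^ n)⁻¹ = D w⁻¹ ≠ D w` and by
`E_apply` `t ^ l x * N (ρ x u') = N u'` for `u' ∈ E w`.  For `u ∈ E w` let
`u' = ρ (w ^ n)⁻¹ u ∈ E w`, of norm `t ^ (n k) * N u` (`E_N_pow_inv`); `ρ x u' = ρ y u`.  So
`δ = n k - l x`.

(2) `δ` is unique since there is `u ∈ E w`, `u ≠ 0` and the powers of `t` are different; so `δ` is a
homomorphism from `S` to `ℤ`.  If `δ y = 0` then `y = 1` by `L4`.  `w ∈ S` (`E_comm`) and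
`δ w = - k ≠ 0`.

(3) The image of `δ` is generated by some `d ≠ 0` (`Int.subgroup_cyclic`, or
`AddSubgroup.exists_isLeast_pos`...), `d = δ c`; if `δ y = m d` then
`δ (y * c ^ (-m)) = 0` so `y = c ^ m`.  `c ^ j = 1` implies `j d = 0`.
-/

universe u

namespace RLin

open Matrix

variable {K L Γ : Type u} [Field K] [Field L] [LinearOrderedCommGroupWithZero Γ]
variable {ι : Type} [Fintype ι] [DecidableEq ι] {P : Place K L Γ}
variable {G : Type u} [Group G] {ρ : G →* Matrix ι ι L} {G₀ : Subgroup G} {X : Set G}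
variable [IsAlgClosed L]

/-- `ρ y` preserves `E w` and multiplies the norm on it by `t ^ m`. -/
private def StabQ (P : Place K L Γ) (ρ : G →* Matrix ι ι L) (w y : G) (m : ℤ) : Prop :=
  im (ρ y) (P.E ρ w) = P.E ρ w ∧ ∀ u ∈ P.E ρ w, P.N (ρ y *ᵥ u) = P.v P.T ^ m * P.N u

private theorem Stab_t_ne (P : Place K L Γ) : P.v P.T ≠ 0 := by
  intro h
  exact P.T_ne ((Valuation.zero_iff P.v).mp h)

private theorem Stab_rho_inv (ρ : G →* Matrix ι ι L) (g : G) (u : ι → L) :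
    ρ g *ᵥ (ρ g⁻¹ *ᵥ u) = u := by
  rw [Matrix.mulVec_mulVec, ← map_mul, mul_inv_cancel, map_one, Matrix.one_mulVec]

private theorem Stab_mem {w y : G} (h : im (ρ y) (P.E ρ w) = P.E ρ w) {u : ι → L}
    (hu : u ∈ P.E ρ w) : ρ y *ᵥ u ∈ P.E ρ w := by
  rw [← h, mem_im]
  exact ⟨u, hu, rfl⟩

private theorem Stab_one (P : Place K L Γ) (ρ : G →* Matrix ι ι L) (w : G) : StabQ P ρ w 1 0 := by
  refine ⟨?_, ?_⟩
  · rw [map_one, im_one]
  · intro u _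
    rw [map_one, Matrix.one_mulVec, zpow_zero, one_mul]

private theorem Stab_mul {w y y' : G} {m m' : ℤ} (h : StabQ P ρ w y m)
    (h' : StabQ P ρ w y' m') : StabQ P ρ w (y * y') (m + m') := by
  refine ⟨?_, ?_⟩
  · rw [map_mul, im_mul, h'.1, h.1]
  · intro u hu
    rw [map_mul, ← Matrix.mulVec_mulVec, h.2 _ (Stab_mem h'.1 hu), h'.2 u hu,
      zpow_add₀ (Stab_t_ne P), mul_assoc]

private theorem Stab_inv {w y : G} {m : ℤ} (h : StabQ P ρ w y m) :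
    StabQ P ρ w y⁻¹ (-m) := by
  have h3 : im (ρ y⁻¹) (P.E ρ w) = P.E ρ w := by
    conv_lhs => rw [← h.1]
    rw [← im_mul, ← map_mul, inv_mul_cancel, map_one, im_one]
  refine ⟨h3, ?_⟩
  intro u hu
  have h5 := h.2 _ (Stab_mem h3 hu)
  rw [Stab_rho_inv] at h5
  rw [h5, _root_.zpow_neg, inv_mul_cancel_left₀ (zpow_ne_zero _ (Stab_t_ne P))]

private theorem Stab_pow {w y : G} {m : ℤ} (h : StabQ P ρ w y m) (n : ℕ) :
    StabQ P ρ w (y ^ n) (n * m) := by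
  induction n with
  | zero =>
    have h1 := Stab_one P ρ w
    simpa using h1
  | succ n ih =>
    have h1 := Stab_mul ih h
    rw [pow_succ]
    have h2 : ((n + 1 : ℕ) : ℤ) * m = n * m + m := by push_cast; ring
    rw [h2]
    exact h1

private theorem Stab_zpow {w y : G} {m : ℤ} (h : StabQ P ρ w y m) (j : ℤ) :
    StabQ P ρ w (y ^ j) (j * m) := by
  obtain ⟨n, rfl | rfl⟩ := j.eq_nat_or_neg
  · rw [zpow_natCast]
    exact Stab_pow h n
  · rw [_root_.zpow_neg, zpow_natCast, neg_mul]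
    exact Stab_inv (Stab_pow h n)

private theorem Stab_uniq [Nonempty ι] (h : Geo P ρ G₀ X) {w : G} (hw : P.Hyp ρ w) {y : G}
    {m m' : ℤ} (h1 : StabQ P ρ w y m) (h2 : StabQ P ρ w y m') : m = m' := by
  obtain ⟨u, hu, hu0⟩ := (Submodule.ne_bot_iff _).1 (h.E_ne_bot hw)
  have hN : P.N u ≠ 0 := fun h0 => hu0 ((N_eq_zero P u).1 h0)
  have h3 : P.v P.T ^ m * P.N u = P.v P.T ^ m' * P.N u := by rw [← h1.2 u hu, ← h2.2 u hu]
  have h4 : P.v P.T ^ m = P.v P.T ^ m' := mul_right_cancel₀ hN h3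
  exact zpow_right_injective₀ (zero_lt_iff.2 (Stab_t_ne P)) P.T_lt.ne h4

private theorem Stab_ex (h : Geo P ρ G₀ X) {w : G} (hw : P.Hyp ρ w) {y : G}
    (hy : im (ρ y) (P.E ρ w) = P.E ρ w) : ∃ m, StabQ P ρ w y m := by
  obtain ⟨hp1, -, hp3, -⟩ := h.hyp_pow hw (P.l ρ y)
  obtain ⟨n, hn⟩ : ∃ n, n = P.l ρ y + 1 := ⟨_, rfl⟩
  rw [← hn] at hp1 hp3
  have hk : 1 ≤ P.l ρ w := Nat.one_le_iff_ne_zero.2 hw.1
  have hbig : P.l ρ y < P.l ρ (w ^ n) := by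
    rw [hp1]
    nlinarith
  obtain ⟨x, hx⟩ : ∃ x, x = y * w ^ n := ⟨_, rfl⟩
  have hyx : y⁻¹ = w ^ n * x⁻¹ := by
    rw [hx]
    group
  have hDx : P.D ρ x⁻¹ = P.D ρ (w ^ n)⁻¹ := by
    by_contra hcon
    have hly := h.len_inv y
    by_cases h0 : P.l ρ x⁻¹ = 0
    · have h1 := (h.right ((h.len_zero _).1 h0) (w ^ n)).1
      rw [← hyx] at h1
      omega
    · have h1 := (h.far (x := w ^ n) (y := x⁻¹) (by omega) h0 hcon).1
      rw [← hyx] at h1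
      omega
  have hne : P.D ρ x⁻¹ ≠ P.D ρ w := by
    rw [hDx, hp3]
    exact hw.2.symm
  refine ⟨((n * P.l ρ w : ℕ) : ℤ) - P.l ρ x, hy, ?_⟩
  intro u hu
  obtain ⟨hu1, hu2⟩ := h.E_N_pow_inv hw n hu
  have h1 := h.E_apply hw (Or.inr hne) hu1
  have h2 : ρ x *ᵥ (ρ (w ^ n)⁻¹ *ᵥ u) = ρ y *ᵥ u := by
    rw [hx, map_mul, ← Matrix.mulVec_mulVec, Stab_rho_inv]
  rw [h2, hu2] at h1
  have ht := Stab_t_ne P
  rw [zpow_sub₀ ht, zpow_natCast, zpow_natCast, div_mul_eq_mul_div, ← h1,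
    mul_div_cancel_left₀ _ (pow_ne_zero _ ht)]

theorem Geo.stab [Nonempty ι] (h : Geo P ρ G₀ X) {w : G} (hw : P.Hyp ρ w) :
    ∃ c : G, (∀ y, im (ρ y) (P.E ρ w) = P.E ρ w ↔ y ∈ Subgroup.zpowers c) ∧
      ∀ k : ℤ, c ^ k = 1 → k = 0 := by
  have hwQ : StabQ P ρ w w (-(P.l ρ w : ℤ)) := by
    have hE : im (ρ w) (P.E ρ w) = P.E ρ w := by
      apply le_antisymm
      · intro u hu
        rw [mem_im] at hu
        obtain ⟨u', hu', rfl⟩ := hu
        exact E_comm rfl hu'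
      · intro u hu
        rw [mem_im]
        refine ⟨ρ w⁻¹ *ᵥ u, E_comm (by group) hu, Stab_rho_inv ρ w u⟩
    refine ⟨hE, ?_⟩
    intro u hu
    have h1 := h.E_N_pow hw 1 hu
    rw [pow_one, one_mul] at h1
    rw [← h1, _root_.zpow_neg, zpow_natCast, inv_mul_cancel_left₀ (pow_ne_zero _ (Stab_t_ne P))]
  let A : AddSubgroup ℤ :=
    { carrier := {m | ∃ y, StabQ P ρ w y m}
      zero_mem' := ⟨1, Stab_one P ρ w⟩
      add_mem' := by
        rintro a b ⟨y, hy⟩ ⟨z, hz⟩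
        exact ⟨y * z, Stab_mul hy hz⟩
      neg_mem' := by
        rintro a ⟨y, hy⟩
        exact ⟨y⁻¹, Stab_inv hy⟩ }
  have hA : ∀ m, m ∈ A ↔ ∃ y, StabQ P ρ w y m := fun m => Iff.rfl
  obtain ⟨d, hd⟩ := Int.subgroup_cyclic A
  have hmem : ∀ m, m ∈ A ↔ ∃ j : ℤ, j * d = m := by
    intro m
    rw [hd, AddSubgroup.mem_closure_singleton]
    simp only [smul_eq_mul]
  obtain ⟨c, hc⟩ := (hA d).1 ((hmem d).2 ⟨1, one_mul d⟩)
  have hd0 : d ≠ 0 := by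
    rintro rfl
    obtain ⟨j, hj⟩ := (hmem _).1 ((hA _).2 ⟨w, hwQ⟩)
    rw [mul_zero] at hj
    have := hw.1
    omega
  refine ⟨c, ?_, ?_⟩
  · intro y
    constructor
    · intro hy
      obtain ⟨m, hm⟩ := Stab_ex h hw hy
      obtain ⟨j, rfl⟩ := (hmem m).1 ((hA m).2 ⟨y, hm⟩)
      have h1 := Stab_mul hm (Stab_zpow hc (-j))
      have h2 : j * d + -j * d = 0 := by ring
      rw [h2] at h1
      have h3 := h.L4 hw h1.1 (fun u hu => by
        have h4 := h1.2 u hu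
        rwa [zpow_zero, one_mul] at h4)
      rw [_root_.zpow_neg, mul_inv_eq_one] at h3
      rw [h3]
      exact ⟨j, rfl⟩
    · rintro ⟨j, rfl⟩
      exact (Stab_zpow hc j).1
  · intro j hj
    have h1 := Stab_zpow hc j
    rw [hj] at h1
    have h2 := Stab_uniq h hw h1 (Stab_one P ρ w)
    rcases mul_eq_zero.1 h2 with h3 | h3
    · exact h3
    · exact absurd h3 hd0

end RLin
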