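import Pool.Agent.RLin.Defs

set_option autoImplicit false

/-!
# RLin/StepG: the step group

`Step A c = (G * (*_i A)) / <<c i = 1_i>>`.  Everything follows from the universal properties of
`Monoid.Coprod`, `Monoid.CoprodI` and `QuotientGroup.lift`.
* `inG_c`: the quotient of the two sides is a relator (`QuotientGroup.eq`,
  `Subgroup.subset_normalClosure`).
* `step_gen`: the images of `Monoid.Coprod.inl` and of `Monoid.CoprodI.of` generate
  (`Monoid.Coprod.range_inl_sup_range_inr`, `Monoid.CoprodI.induction_on`) and the quotient map is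
  surjective.
-/

universe u v

namespace RLin

variable {A : Type u} [Ring A] {G : Type u} [Group G] {I : Type u} (c : I → G)

/-- the free product -/
private abbrev StepG_P (A : Type u) [Ring A] (G : Type u) [Group G] (I : Type u) : Type u :=
  Monoid.Coprod G (Monoid.CoprodI fun _ : I => Multiplicative A)

/-- the quotient map -/
private noncomputable def StepG_q (A : Type u) [Ring A] {G : Type u} [Group G] {I : Type u} (c : I → G) :
    @MonoidHom (StepG_P A G I) (Step A c) Group.toDivInvMonoid.toMulOneClass.toMulOne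
      Group.toDivInvMonoid.toMulOneClass.toMulOne :=
  QuotientGroup.mk' (Subgroup.normalClosure (stepRel A c))

/-- the map from the free product of the copies of `A` -/
private noncomputable def StepG_r (A : Type u) [Ring A] {G : Type u} [Group G] {I : Type u} (c : I → G) :
    (Monoid.CoprodI fun _ : I => Multiplicative A) →* Step A c where
  toFun x := StepG_q A c (Monoid.Coprod.inr x)
  map_one' := (congrArg (StepG_q A c) (map_one Monoid.Coprod.inr)).trans (StepG_q A c).map_one
  map_mul' x y := (congrArg (StepG_q A c) (map_mul Monoid.Coprod.inr x y)).trans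
    ((StepG_q A c).map_mul (Monoid.Coprod.inr x) (Monoid.Coprod.inr y))

/-- the homomorphism from the copy number `i` of `A` -/
private noncomputable def StepG_hom (A : Type u) [Ring A] {G : Type u} [Group G] {I : Type u}
    (c : I → G) (i : I) : Multiplicative A →* Step A c :=
  (StepG_r A c).comp (Monoid.CoprodI.of (M := fun _ : I => Multiplicative A) (i := i))

private theorem StepG_inB (i : I) (a : A) :
    inB c i a = StepG_hom A c i (Multiplicative.ofAdd a) := rfl

theorem inG_c (i : I) : inG A c (c i) = inB c i (1 : A) := by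
  have h1 : Monoid.Coprod.inl (c i) *
      (Monoid.Coprod.inr (Monoid.CoprodI.of (i := i) (Multiplicative.ofAdd (1 : A))))⁻¹ ∈
      Subgroup.normalClosure (stepRel A c) := Subgroup.subset_normalClosure ⟨i, rfl⟩
  have h2 := (QuotientGroup.eq_one_iff (N := Subgroup.normalClosure (stepRel A c)) _).2 h1
  have h3 : (inG A c (c i)) * (inB c i (1 : A))⁻¹ = 1 := h2
  exact mul_inv_eq_one.1 h3

theorem inB_add (i : I) (a b : A) : inB c i (a + b) = inB c i a * inB c i b := by
  rw [StepG_inB, StepG_inB, StepG_inB, ofAdd_add, map_mul]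

theorem inB_zero (i : I) : inB c i (0 : A) = 1 := by
  rw [StepG_inB, ofAdd_zero, map_one]

theorem inB_neg (i : I) (a : A) : inB c i (-a) = (inB c i a)⁻¹ := by
  rw [StepG_inB, StepG_inB, ofAdd_neg, map_inv]

/-- an integer in the copy of `A` is a power of `c i` -/
theorem inB_int (i : I) (k : ℤ) : inB c i (k : A) = inG A c (c i ^ k) := by
  have h1 : (k : A) = k • (1 : A) := by rw [zsmul_one]
  rw [map_zpow, inG_c, StepG_inB, StepG_inB, h1, ofAdd_zsmul, map_zpow]

theorem step_lift {H : Type v} [Group H] (φ : G →* H) (θ : I → A → H)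
    (hadd : ∀ i a b, θ i (a + b) = θ i a * θ i b) (h1 : ∀ i, θ i 1 = φ (c i)) :
    ∃ Φ : Step A c →* H, (∀ g, Φ (inG A c g) = φ g) ∧ ∀ i a, Φ (inB c i a) = θ i a := by
  let th : ∀ i : I, Multiplicative A →* H := fun i =>
    MonoidHom.mk' (fun a => θ i (Multiplicative.toAdd a)) fun _ _ => hadd i _ _
  let F' : Monoid.Coprod G (Monoid.CoprodI fun _ : I => Multiplicative A) →* H :=
    Monoid.Coprod.lift φ (Monoid.CoprodI.lift th)
  let F : @MonoidHom (StepG_P A G I) H Group.toDivInvMonoid.toMulOneClass.toMulOne
      Group.toDivInvMonoid.toMulOneClass.toMulOne := F'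
  have hl : ∀ g : G, F (Monoid.Coprod.inl g) = φ g := fun g => Monoid.Coprod.lift_apply_inl _ _ g
  have hr : ∀ (i : I) (a : A), F (Monoid.Coprod.inr
      (Monoid.CoprodI.of (i := i) (Multiplicative.ofAdd a))) = θ i a := by
    intro i a
    have h2 := Monoid.Coprod.lift_apply_inr φ (Monoid.CoprodI.lift th)
      (Monoid.CoprodI.of (i := i) (Multiplicative.ofAdd a))
    rw [Monoid.CoprodI.lift_of] at h2
    exact h2
  have hF : Subgroup.normalClosure (stepRel A c) ≤ F.ker := by
    apply Subgroup.normalClosure_le_normal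
    rintro x ⟨i, rfl⟩
    change F (_ * _⁻¹) = 1
    rw [F.map_mul, F.map_inv, hl, hr, h1, mul_inv_cancel]
  exact ⟨QuotientGroup.lift (Subgroup.normalClosure (stepRel A c)) F hF, hl, hr⟩

theorem step_gen :
    Subgroup.closure (Set.range (inG A c) ∪ {x | ∃ i a, x = inB c i a}) = ⊤ := by
  set S := Subgroup.closure (Set.range (inG A c) ∪ {x | ∃ i a, x = inB c i a}) with hS
  have hsub := Subgroup.subset_closure (k := Set.range (inG A c) ∪ {x | ∃ i a, x = inB c i a})
  have hf : Function.Surjective (StepG_q A c) := QuotientGroup.mk'_surjective _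
  have hr : ∀ y, StepG_r A c y ∈ S := by
    intro y
    induction y using Monoid.CoprodI.induction_on with
    | one =>
      rw [map_one]
      exact S.one_mem
    | of i a => exact hsub (Or.inr ⟨i, Multiplicative.toAdd a, rfl⟩)
    | mul a b ha hb =>
      rw [map_mul]
      exact S.mul_mem ha hb
  have hq : ∀ x : StepG_P A G I, StepG_q A c x ∈ S := by
    intro x
    induction x using Monoid.Coprod.induction_on with
    | inl g => exact hsub (Or.inl ⟨g, rfl⟩)
    | inr y => exact hr y
    | mul x y hx hy =>
      have h1 : StepG_q A c (x * y) = StepG_q A c x * StepG_q A c y := (StepG_q A c).map_mul x y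
      rw [h1]
      exact S.mul_mem hx hy
  rw [eq_top_iff]
  intro x _
  obtain ⟨y, rfl⟩ := hf x
  exact hq y

/-- two homomorphisms from the step group which agree on the generators are equal -/
theorem step_ext {H : Type v} [Group H] {Φ Ψ : Step A c →* H}
    (h1 : ∀ g, Φ (inG A c g) = Ψ (inG A c g)) (h2 : ∀ i a, Φ (inB c i a) = Ψ (inB c i a)) :
    Φ = Ψ := by
  apply MonoidHom.eq_of_eqOn_dense (step_gen (A := A) c)
  rintro x (⟨g, rfl⟩ | ⟨i, a, rfl⟩)
  · exact h1 g
  · exact h2 i a

end RLin
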