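import Pool.Agent.RLin.Blk
import Pool.Agent.RLin.StepG

set_option autoImplicit false

/-!
# RLin/StepHom: the representation of the step group

Let `h : IsTow ρ c W β` for the group `G` and `χ a = 1` iff `a` is an integer.

`step_hom`.  For every `i` the subspaces `U = W i true`, `V = W i false` are complementary: they are
disjoint by `Sys.sep` (with `g = 1`, `e ≠ e'`) and both have half dimension.  Apply `exists_B` with
`M = ρ (c i)`, `M' = ρ (c i)⁻¹` to get `b_i`, and `step_lift` with `H` the unit group of the matrix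
ring, `φ g` the unit with value `(dg (ρ g)).map i` (`MonoidHom.toHomUnits`) and `θ i a` the unit with
value `b_i a` and inverse `b_i (-a)`.  `χ 1 = 1` since `1` is an integer.
-/

universe u

namespace RLin

open Matrix

variable {K L Γ : Type u} [Field K] [Field L] [LinearOrderedCommGroupWithZero Γ]
variable {ι : Type} [Fintype ι] [DecidableEq ι]
variable {G : Type u} [Group G] {ρ : G →* Matrix ι ι K} {I J : Type u} {c : I → G}
variable {W : I → Bool → Submodule K (ι → K)} {A : Type u} [Ring A] {β : J → A → G}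

private theorem StepHom_compl (h : Sys ρ c W) (i : I) : IsCompl (W i true) (W i false) := by
  have hd : Disjoint (W i true) (W i false) := by
    rw [Submodule.disjoint_def]
    intro u hu hv
    by_contra hu0
    have h1 := h.sep i i false true 1 u hu0 hu (by rw [map_one, Matrix.one_mulVec]; exact hv)
    exact Bool.false_ne_true h1.2.1
  refine ⟨hd, ?_⟩
  rw [codisjoint_iff]
  apply Submodule.eq_top_of_disjoint _ _ _ hd
  rw [Module.finrank_pi]
  have h1 := h.rank i true
  have h2 := h.rank i false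
  omega

/-- the constant representation -/
private def StepHom_f (P : Place K L Γ) (ρ : G →* Matrix ι ι K) :
    G →* Matrix (ι ⊕ ι) (ι ⊕ ι) L where
  toFun g := (dg (ρ g)).map P.i
  map_one' := by
    rw [map_one, dg_one]
    exact Matrix.map_one _ (map_zero P.i) (map_one P.i)
  map_mul' x y := by
    rw [map_mul, dg_mul, Matrix.map_mul]

theorem step_hom [IsAlgClosed K] [CharZero K] (P : Place K L Γ) [Nontrivial A]
    (htf : ∀ (n : ℕ) (a : A), n ≠ 0 → n • a = 0 → a = 0) (χ : A → K)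
    (hχ : ∀ x y, χ (x + y) = χ x * χ y) (hχ1 : ∀ x, χ x = 1 ↔ ∃ k : ℤ, x = (k : A))
    (h : IsTow ρ c W β) :
    ∃ ρ' : Step A c →* Matrix (ι ⊕ ι) (ι ⊕ ι) L,
      (∀ g, ρ' (inG A c g) = (dg (ρ g)).map P.i) ∧
      ∀ i a, (∀ k : ℤ, a ≠ (k : A)) → ∃ N : Matrix (ι ⊕ ι) (ι ⊕ ι) K,
        P.Rm (P.T • ρ' (inB c i a)) N ∧ rg N = Hs (W i true) (W i false) ∧
          kr N = Hs (W i true) (W i false) := by
  have hχ1' : χ 1 = 1 := (hχ1 1).2 ⟨1, by simp⟩
  have hex : ∀ i : I, ∃ b : A → Matrix (ι ⊕ ι) (ι ⊕ ι) L, (∀ x y, b (x + y) = b x * b y) ∧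
      b 0 = 1 ∧ b 1 = (dg (ρ (c i))).map P.i ∧
      ∀ a, χ a ≠ 1 → ∃ N : Matrix (ι ⊕ ι) (ι ⊕ ι) K, P.Rm (P.T • b a) N ∧
        rg N = Hs (W i true) (W i false) ∧ kr N = Hs (W i true) (W i false) := by
    intro i
    refine exists_B P htf χ hχ hχ1' (StepHom_compl h.toSys i) (M := ρ (c i))
      (M' := ρ (c i)⁻¹) ?_ (fun u hu => h.inv i true u hu) (fun u hu => h.inv i false u hu)
    rw [← map_mul, mul_inv_cancel, map_one]
  choose b hb0 hb1 hb2 hb3 using hex
  let θ : I → A → (Matrix (ι ⊕ ι) (ι ⊕ ι) L)ˣ := fun i a =>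
    ⟨b i a, b i (-a), by rw [← hb0, add_neg_cancel, hb1], by rw [← hb0, neg_add_cancel, hb1]⟩
  obtain ⟨Φ, hΦ1, hΦ2⟩ := step_lift (A := A) c (StepHom_f P ρ).toHomUnits θ
    (fun i x y => Units.ext (hb0 i x y)) (fun i => Units.ext (hb2 i))
  refine ⟨(Units.coeHom _).comp Φ, ?_, ?_⟩
  · intro g
    have h1 := congrArg Units.val (hΦ1 g)
    exact h1
  · intro i a ha
    have h1 : ((Units.coeHom (Matrix (ι ⊕ ι) (ι ⊕ ι) L)).comp Φ) (inB c i a) = b i a :=
      congrArg Units.val (hΦ2 i a)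
    rw [h1]
    apply hb3 i a
    intro h2
    obtain ⟨k, hk⟩ := (hχ1 a).1 h2
    exact ha k hk

end RLin
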