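import Pool.Agent.RLin.Blk
import Pool.Agent.RLin.StepG

set_option autoImplicit false

/-!
# RLin/StepPP: ping-pong data for the step group

Let `h : IsTow ρ c W β` for the group `G` and `χ a = 1` iff `a` is an integer.

`step_pp`.  Let `G₀ = (inG A c).range`, a letter is `x = inG g * inB i a * inG g'` with `a` not an integer,
`H i = Hs (W i true) (W i false)`.
* `T • ρ' x` reduces to `Ω = dg (ρ g) * N * dg (ρ g')`, `rg Ω = im (dg (ρ g)) (H i)`,
  `kr Ω = im (dg (ρ g'⁻¹)) (H i)`; `Ω ≠ 0` (`finrank (H i) = card ι > 0`, half of `card (ι ⊕ ι)`).  By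
  `len_eq` `l x = 1`, `Om x = Ω`.  Since `x⁻¹ = inG g'⁻¹ * inB i (-a) * inG g⁻¹` this gives `ker_eq`.
* (S) `im (dg (ρ g)) (H i)` and `im (dg (ρ g')) (H j)` are equal if `i = j` and
  `g⁻¹ * g' ∈ <c i>` (all powers of `ρ (c i)` preserve `W i e`; finite dimension), and disjoint
  otherwise: a common nonzero vector has a nonzero component, to which `Sys.sep` applies.  Equal
  subspaces are not disjoint.  This gives `dich` and the last statement.
* `merge`: `x = inG g * inB i a * inG g'`, `y = inG h * inB j b * inG h'`, `D y = D x⁻¹`: by (S) `i = j`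
  and `g' * h = c i ^ k`, so by `inB_int` `x * y = inG g * inB i (a + k + b) * inG h'`; if `a + k + b` is
  an integer this is in `G₀`, otherwise it is a letter with direction `im (dg (ρ g)) (H i) = D x`.
* `fix`: let `inG γ ≠ 1`, `x = inG g * ..` with index `i`, `y = inG h * ..` with index `j`.  By (S)
  `g⁻¹ * γ * g = c i ^ k` (up to sign) and `h⁻¹ * γ * h = c j ^ l`, `k ≠ 0`; so `c i ^ k` and
  `c j ^ l` are conjugate by `h⁻¹ * g` and `Sys.comm` gives `i = j`, `h⁻¹ * g ∈ <c i>`, so `D x = D y` by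
  (S).
* `two`: `inG` is injective (`ρ g` is determined by `ρ' (inG g)`).  If `g * g = 1`, `g ≠ 1`: by `cover` a
  conjugate of `g` is `β j a` (then `β j (a + a) = 1`, `2 • a = 0`, `a = 0`) or `c i ^ k` (then
  `c i ^ (2 k) = 1`, `k = 0`), a contradiction.
* `two'`: `x = inG g * inB i a * inG g'`, `D x = D x⁻¹`: by (S) `g' * g = c i ^ k`, so `x` is conjugate to
  `inB i (a + k)`.  If `x * x = 1` then `inB i (2 (a + k)) = 1`.  If `2 (a + k)` is not an integer then
  `inB i (2 (a + k))` is a letter of length one but `l 1 = 0`; if it is an integer `m` then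
  `c i ^ m = 1`, `m = 0` and `2 • (a + k) = 0`, so `a = -k` is an integer, a contradiction.
* `gen`: `step_gen`; `inB i a` is a letter or, if `a` is an integer, in `G₀` (`inB_int`).
* `inB_inj` is the argument of `two'`.
-/

universe u

namespace RLin

open Matrix

/-! ### Auxiliary statements on matrices -/

section StepPPaux

variable {F : Type u} [Field F] {κ : Type} [Fintype κ] [DecidableEq κ]

private theorem spp_mem_im {M : Matrix κ κ F} {E : Submodule F (κ → F)} {u : κ → F} :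
    u ∈ im M E ↔ ∃ w ∈ E, M *ᵥ w = u := Iff.rfl

private theorem spp_rg (M N : Matrix κ κ F) {M' M'' : Matrix κ κ F} (h : M' * M'' = 1) :
    rg (M * N * M') = im M (rg N) := by
  ext u
  constructor
  · rintro ⟨w, rfl⟩
    refine ⟨N *ᵥ (M' *ᵥ w), ⟨M' *ᵥ w, rfl⟩, ?_⟩
    show M *ᵥ (N *ᵥ (M' *ᵥ w)) = (M * N * M') *ᵥ w
    rw [Matrix.mulVec_mulVec, Matrix.mulVec_mulVec, mul_assoc]
  · rintro ⟨_, ⟨w, rfl⟩, rfl⟩
    refine ⟨M'' *ᵥ w, ?_⟩
    show (M * N * M') *ᵥ (M'' *ᵥ w) = M *ᵥ (N *ᵥ w)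
    rw [Matrix.mulVec_mulVec, mul_assoc, h, mul_one, Matrix.mulVec_mulVec]

private theorem spp_kr {M Mi : Matrix κ κ F} (N : Matrix κ κ F) {M' M'' : Matrix κ κ F}
    (h0 : Mi * M = 1) (h : M' * M'' = 1) (h' : M'' * M' = 1) :
    kr (M * N * M') = im M'' (kr N) := by
  ext u
  constructor
  · intro hu
    have hu' : (M * N * M') *ᵥ u = 0 := hu
    refine ⟨M' *ᵥ u, ?_, ?_⟩
    · show N *ᵥ (M' *ᵥ u) = 0
      have h1 : Mi *ᵥ ((M * N * M') *ᵥ u) = 0 := by rw [hu', Matrix.mulVec_zero]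
      rw [Matrix.mulVec_mulVec, ← mul_assoc, ← mul_assoc, h0, one_mul] at h1
      rw [Matrix.mulVec_mulVec, h1]
    · show M'' *ᵥ (M' *ᵥ u) = u
      rw [Matrix.mulVec_mulVec, h', Matrix.one_mulVec]
  · rintro ⟨w, hw, rfl⟩
    have hw' : N *ᵥ w = 0 := hw
    show (M * N * M') *ᵥ (M'' *ᵥ w) = 0
    rw [Matrix.mulVec_mulVec, mul_assoc, h, mul_one, ← Matrix.mulVec_mulVec, hw', Matrix.mulVec_zero]

private theorem spp_finrank_im {M M' : Matrix κ κ F} (h : M * M' = 1) (h' : M' * M = 1)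
    (E : Submodule F (κ → F)) : Module.finrank F (im M E) = Module.finrank F E := by
  let e : (κ → F) ≃ₗ[F] (κ → F) :=
    { toFun := fun u => M *ᵥ u
      map_add' := fun u w => Matrix.mulVec_add M u w
      map_smul' := fun c u => Matrix.mulVec_smul M c u
      invFun := fun u => M' *ᵥ u
      left_inv := fun u => by
        show M' *ᵥ (M *ᵥ u) = u
        rw [Matrix.mulVec_mulVec, h', Matrix.one_mulVec]
      right_inv := fun u => by
        show M *ᵥ (M' *ᵥ u) = u
        rw [Matrix.mulVec_mulVec, h, Matrix.one_mulVec] }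
  have h1 := e.finrank_map_eq E
  have h2 : im M E = E.map (e : (κ → F) →ₗ[F] (κ → F)) := by
    ext u
    exact Iff.rfl
  rw [h2]
  exact h1

/-- an invertible matrix which maps `U` into itself maps `U` onto itself -/
private theorem spp_inv {M M' : Matrix κ κ F} (h' : M' * M = 1)
    {U : Submodule F (κ → F)} (hU : ∀ u ∈ U, M *ᵥ u ∈ U) : ∀ u ∈ U, M' *ᵥ u ∈ U := by
  let f : U →ₗ[F] U := M.mulVecLin.restrict hU
  have hf : Function.Injective f := by
    intro a b hab
    apply Subtype.ext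
    have h1 : M *ᵥ (a : κ → F) = M *ᵥ (b : κ → F) := congrArg Subtype.val hab
    have h2 : M' *ᵥ (M *ᵥ (a : κ → F)) = M' *ᵥ (M *ᵥ (b : κ → F)) := by rw [h1]
    rwa [Matrix.mulVec_mulVec, Matrix.mulVec_mulVec, h', Matrix.one_mulVec, Matrix.one_mulVec] at h2
  have hs : Function.Surjective f := LinearMap.injective_iff_surjective.1 hf
  intro u hu
  obtain ⟨w, hw⟩ := hs ⟨u, hu⟩
  have h1 : M *ᵥ (w : κ → F) = u := congrArg Subtype.val hw
  rw [← h1, Matrix.mulVec_mulVec, h', Matrix.one_mulVec]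
  exact w.2

end StepPPaux

section StepPPsub

variable {K : Type u} [Field K] {ι : Type} [Fintype ι] [DecidableEq ι]
variable {G : Type u} [Group G] (ρ : G →* Matrix ι ι K) {I : Type u} {c : I → G}
variable (W : I → Bool → Submodule K (ι → K))

private theorem spp_dg (g : G) : dg (ρ g) * dg (ρ g⁻¹) = 1 ∧ dg (ρ g⁻¹) * dg (ρ g) = 1 := by
  rw [← dg_mul, ← dg_mul, ← map_mul, ← map_mul, mul_inv_cancel, inv_mul_cancel, map_one, dg_one]
  exact ⟨rfl, rfl⟩

/-- the direction `g H_i` -/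
private def sppH (g : G) (i : I) : Submodule K (ι ⊕ ι → K) :=
  im (dg (ρ g)) (Hs (W i true) (W i false))

private theorem mem_sppH (g : G) (i : I) (u : ι ⊕ ι → K) :
    u ∈ sppH ρ W g i ↔ dg (ρ g⁻¹) *ᵥ u ∈ Hs (W i true) (W i false) := by
  constructor
  · rintro ⟨w, hw, rfl⟩
    show dg (ρ g⁻¹) *ᵥ (dg (ρ g) *ᵥ w) ∈ _
    rw [Matrix.mulVec_mulVec, (spp_dg ρ g).2, Matrix.one_mulVec]
    exact hw
  · intro h
    refine ⟨_, h, ?_⟩
    show dg (ρ g) *ᵥ (dg (ρ g⁻¹) *ᵥ u) = u
    rw [Matrix.mulVec_mulVec, (spp_dg ρ g).1, Matrix.one_mulVec]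

private theorem sppH_finrank (h : Sys ρ c W) (g : G) (i : I) :
    Module.finrank K (sppH ρ W g i) = Fintype.card ι := by
  unfold sppH
  rw [spp_finrank_im (spp_dg ρ g).1 (spp_dg ρ g).2, Hs_finrank]
  have h1 := h.rank i true
  have h2 := h.rank i false
  omega

private theorem sppH_ne [Nonempty ι] (h : Sys ρ c W) (g : G) (i : I) : sppH ρ W g i ≠ ⊥ := by
  intro h0
  have h1 := sppH_finrank ρ W h g i
  rw [h0, finrank_bot] at h1
  have h2 : 0 < Fintype.card ι := Fintype.card_pos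
  omega

private theorem spp_pow {t : G} {U : Submodule K (ι → K)} (h : ∀ u ∈ U, ρ t *ᵥ u ∈ U) (n : ℕ) :
    ∀ u ∈ U, ρ (t ^ n) *ᵥ u ∈ U := by
  induction n with
  | zero =>
    intro u hu
    rw [pow_zero, map_one, Matrix.one_mulVec]
    exact hu
  | succ n ih =>
    intro u hu
    rw [pow_succ, map_mul, ← Matrix.mulVec_mulVec]
    exact ih _ (h u hu)

private theorem spp_zpow (h : Sys ρ c W) (i : I) (e : Bool) (k : ℤ) :
    ∀ u ∈ W i e, ρ (c i ^ k) *ᵥ u ∈ W i e := by
  have h1 : ρ (c i)⁻¹ * ρ (c i) = 1 := by rw [← map_mul, inv_mul_cancel, map_one]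
  have h2 := spp_inv h1 (h.inv i e)
  rcases k with n | n
  · rw [Int.ofNat_eq_natCast, zpow_natCast]
    exact spp_pow ρ (h.inv i e) n
  · rw [zpow_negSucc, ← inv_pow]
    exact spp_pow ρ h2 (n + 1)

private theorem sppH_le (h : Sys ρ c W) {g g' : G} {i : I} {k : ℤ} (hk : c i ^ k = g⁻¹ * g') :
    sppH ρ W g' i ≤ sppH ρ W g i := by
  intro u hu
  rw [mem_sppH] at hu ⊢
  have h1 : g⁻¹ = c i ^ k * g'⁻¹ := by rw [hk]; group
  rw [h1, map_mul, dg_mul, ← Matrix.mulVec_mulVec]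
  obtain ⟨h2, h3⟩ := (mem_Hs _ _ _).1 hu
  obtain ⟨h4, h5⟩ := dg_mulVec (ρ (c i ^ k)) (dg (ρ g'⁻¹) *ᵥ u)
  rw [mem_Hs, h4, h5]
  exact ⟨spp_zpow ρ W h i true k _ h2, spp_zpow ρ W h i false k _ h3⟩

private theorem sppH_eq (h : Sys ρ c W) {g g' : G} {i j : I} (hij : i = j)
    (hk : g⁻¹ * g' ∈ Subgroup.zpowers (c i)) : sppH ρ W g i = sppH ρ W g' j := by
  subst hij
  obtain ⟨k, hk⟩ := Subgroup.mem_zpowers_iff.1 hk
  refine le_antisymm ?_ (sppH_le ρ W h hk)
  refine sppH_le ρ W h (k := -k) ?_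
  rw [_root_.zpow_neg, hk]
  group

private theorem sppH_disj (h : Sys ρ c W) {g g' : G} {i j : I}
    (hk : ¬ (i = j ∧ g⁻¹ * g' ∈ Subgroup.zpowers (c i))) :
    Disjoint (sppH ρ W g i) (sppH ρ W g' j) := by
  rw [Submodule.disjoint_def]
  intro u hu hu'
  by_contra hne
  apply hk
  rw [mem_sppH] at hu hu'
  obtain ⟨w, hw⟩ : ∃ w, w = dg (ρ g'⁻¹) *ᵥ u := ⟨_, rfl⟩
  have hw1 : dg (ρ g') *ᵥ w = u := by
    rw [hw, Matrix.mulVec_mulVec, (spp_dg ρ g').1, Matrix.one_mulVec]
  have hw0 : w ≠ 0 := by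
    intro h0
    apply hne
    rw [← hw1, h0, Matrix.mulVec_zero]
  rw [← hw] at hu'
  have hw2 : dg (ρ (g⁻¹ * g')) *ᵥ w ∈ Hs (W i true) (W i false) := by
    rw [map_mul, dg_mul, ← Matrix.mulVec_mulVec, hw1]
    exact hu
  obtain ⟨h1, h2⟩ := (mem_Hs _ _ _).1 hu'
  obtain ⟨h3, h4⟩ := (mem_Hs _ _ _).1 hw2
  obtain ⟨h5, h6⟩ := dg_mulVec (ρ (g⁻¹ * g')) w
  rw [h5] at h3
  rw [h6] at h4
  by_cases hl : (fun k => w (Sum.inl k)) = 0
  · have hr : (fun k => w (Sum.inr k)) ≠ 0 := by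
      intro hr
      apply hw0
      funext k
      cases k with
      | inl k => exact congrFun hl k
      | inr k => exact congrFun hr k
    obtain ⟨e1, _, e2⟩ := h.sep i j false false (g⁻¹ * g') _ hr h2 h4
    exact ⟨e1, e2⟩
  · obtain ⟨e1, _, e2⟩ := h.sep i j true true (g⁻¹ * g') _ hl h1 h3
    exact ⟨e1, e2⟩

private theorem sppH_iff [Nonempty ι] (h : Sys ρ c W) {g g' : G} {i j : I} :
    sppH ρ W g i = sppH ρ W g' j ↔ i = j ∧ g⁻¹ * g' ∈ Subgroup.zpowers (c i) := by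
  constructor
  · intro heq
    by_contra hcon
    have h1 := sppH_disj ρ W h hcon
    rw [← heq, disjoint_self] at h1
    exact sppH_ne ρ W h g i h1
  · rintro ⟨h1, h2⟩
    exact sppH_eq ρ W h h1 h2

end StepPPsub

/-- the letters of the step group -/
def letters (A : Type u) [Ring A] {G : Type u} [Group G] {I : Type u} (c : I → G) :
    Set (Step A c) :=
  {x | ∃ g i, ∃ a : A, ∃ g', (∀ k : ℤ, a ≠ (k : A)) ∧ x = inG A c g * inB c i a * inG A c g'}

variable {K L Γ : Type u} [Field K] [Field L] [LinearOrderedCommGroupWithZero Γ]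
variable {ι : Type} [Fintype ι] [DecidableEq ι]
variable {G : Type u} [Group G] {ρ : G →* Matrix ι ι K} {I J : Type u} {c : I → G}
variable {W : I → Bool → Submodule K (ι → K)} {A : Type u} [Ring A] {β : J → A → G}

theorem step_pp (P : Place K L Γ) [Nontrivial A] [Nonempty ι]
    (htf : ∀ (n : ℕ) (a : A), n ≠ 0 → n • a = 0 → a = 0)
    (h : IsTow ρ c W β) (ρ' : Step A c →* Matrix (ι ⊕ ι) (ι ⊕ ι) L)
    (h1 : ∀ g, ρ' (inG A c g) = (dg (ρ g)).map P.i)
    (h2 : ∀ i a, (∀ k : ℤ, a ≠ (k : A)) → ∃ N : Matrix (ι ⊕ ι) (ι ⊕ ι) K,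
        P.Rm (P.T • ρ' (inB c i a)) N ∧ rg N = Hs (W i true) (W i false) ∧
          kr N = Hs (W i true) (W i false)) :
    PP P ρ' (inG A c).range (letters A c) ∧ Function.Injective (inG A c) ∧
      (∀ i (a : A), inB c i a = 1 → a = 0) ∧
      ∀ g g' i j (a b : A), (∀ k : ℤ, a ≠ (k : A)) → (∀ k : ℤ, b ≠ (k : A)) →
        (P.D ρ' (inG A c g * inB c i a) = P.D ρ' (inG A c g' * inB c j b) ↔
          i = j ∧ g⁻¹ * g' ∈ Subgroup.zpowers (c i)) := by
  classical
  have hS : Sys ρ c W := h.toSys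
  -- letters
  have hlet : ∀ (g : G) (i : I) (a : A) (g' : G), (∀ k : ℤ, a ≠ (k : A)) →
      P.l ρ' (inG A c g * inB c i a * inG A c g') = 1 ∧
      P.D ρ' (inG A c g * inB c i a * inG A c g') = sppH ρ W g i ∧
      kr (P.Om ρ' (inG A c g * inB c i a * inG A c g')) = sppH ρ W g'⁻¹ i := by
    intro g i a g' ha
    obtain ⟨N, hN, hrg, hkr⟩ := h2 i a ha
    obtain ⟨Ω, hΩ⟩ : ∃ Ω, Ω = dg (ρ g) * N * dg (ρ g') := ⟨_, rfl⟩
    have e1 : rg Ω = sppH ρ W g i := by
      rw [hΩ, spp_rg _ _ (spp_dg ρ g').1, hrg]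
      rfl
    have e2 : kr Ω = sppH ρ W g'⁻¹ i := by
      rw [hΩ, spp_kr N (spp_dg ρ g).2 (spp_dg ρ g').1 (spp_dg ρ g').2, hkr]
      rfl
    have hΩ0 : Ω ≠ 0 := by
      intro h0
      apply sppH_ne ρ W hS g i
      rw [← e1, h0]
      unfold rg
      rw [Matrix.mulVecLin_zero, LinearMap.range_zero]
    have hR : P.Rm (P.T ^ 1 • ρ' (inG A c g * inB c i a * inG A c g')) Ω := by
      have e3 : P.T ^ 1 • ρ' (inG A c g * inB c i a * inG A c g') =
          (dg (ρ g)).map P.i * (P.T • ρ' (inB c i a)) * (dg (ρ g')).map P.i := by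
        rw [map_mul, map_mul, h1, h1, pow_one, Matrix.mul_smul, Matrix.smul_mul]
      rw [e3, hΩ]
      exact Rm_mul P (Rm_mul P (Rm_map P _) hN) (Rm_map P _)
    obtain ⟨e4, e5⟩ := len_eq P hR hΩ0
    refine ⟨e4, ?_, ?_⟩
    · show rg (P.lc _) = _
      rw [e5, e1]
    · show kr (P.lc _) = _
      rw [e5, e2]
  have hlet' : ∀ (g : G) (i : I) (a : A), (∀ k : ℤ, a ≠ (k : A)) →
      P.D ρ' (inG A c g * inB c i a) = sppH ρ W g i := by
    intro g i a ha
    have h3 := (hlet g i a 1 ha).2.1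
    rwa [map_one, mul_one] at h3
  have hnegint : ∀ a : A, (∀ k : ℤ, a ≠ (k : A)) → ∀ k : ℤ, -a ≠ (k : A) := by
    intro a ha k hk
    apply ha (-k)
    rw [Int.cast_neg, ← hk, neg_neg]
  have hinv : ∀ (g : G) (i : I) (a : A) (g' : G),
      (inG A c g * inB c i a * inG A c g')⁻¹ = inG A c g'⁻¹ * inB c i (-a) * inG A c g⁻¹ := by
    intro g i a g'
    rw [_root_.mul_inv_rev, _root_.mul_inv_rev, inB_neg, map_inv, map_inv, mul_assoc]
  have hDinv : ∀ (g : G) (i : I) (a : A) (g' : G), (∀ k : ℤ, a ≠ (k : A)) →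
      P.D ρ' (inG A c g * inB c i a * inG A c g')⁻¹ = sppH ρ W g'⁻¹ i := by
    intro g i a g' ha
    rw [hinv]
    exact (hlet _ _ _ _ (hnegint a ha)).2.1
  -- injectivity of `inG`
  have hinj1 : ∀ g, ρ' (inG A c g) = 1 → g = 1 := by
    intro g hg
    rw [h1] at hg
    have h3 : dg (ρ g) = 1 := by
      have h4 : (dg (ρ g)).map P.i = (1 : Matrix (ι ⊕ ι) (ι ⊕ ι) K).map P.i := by
        rw [hg, Matrix.map_one P.i (map_zero P.i) (map_one P.i)]
      exact Matrix.map_injective P.i.injective h4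
    have h5 : ρ g = 1 := dg_inj (h3.trans dg_one.symm)
    exact h.ρ_inj (by rw [h5, map_one])
  have hGinj : Function.Injective (inG A c) := by
    rw [injective_iff_map_eq_one]
    intro g hg
    exact hinj1 g (by rw [hg, map_one])
  have hBinj : ∀ i (a : A), inB c i a = 1 → a = 0 := by
    intro i a ha
    by_cases hint : ∃ k : ℤ, a = (k : A)
    · obtain ⟨k, rfl⟩ := hint
      rw [inB_int] at ha
      have h3 : c i ^ k = 1 := hGinj (by rw [ha, map_one])
      rw [hS.ord i k h3, Int.cast_zero]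
    · push Not at hint
      exfalso
      have h3 := (hlet 1 i a 1 hint).1
      rw [map_one, one_mul, mul_one, ha] at h3
      have h4 : P.l ρ' (1 : Step A c) = 0 := by
        unfold Place.l
        rw [map_one]
        have h5 := (len_map P (1 : Matrix (ι ⊕ ι) (ι ⊕ ι) K)).1
        rwa [Matrix.map_one P.i (map_zero P.i) (map_one P.i)] at h5
      omega
  have hβ0 : ∀ j, β j 0 = 1 := by
    intro j
    have h3 := h.β_add j 0 0
    rw [add_zero] at h3
    exact (mul_eq_left.1 h3.symm)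
  have hdouble : ∀ a : A, a + a = 0 → a = 0 := by
    intro a ha
    exact htf 2 a two_ne_zero (by rw [two_nsmul, ha])
  refine ⟨?_, hGinj, hBinj, ?_⟩
  · constructor
    · -- const
      rintro x ⟨g, rfl⟩
      exact ⟨_, h1 g⟩
    · -- inj₀
      rintro x ⟨g, rfl⟩ hx
      rw [hinj1 g hx, map_one]
    · -- X_inv
      rintro x ⟨g, i, a, g', ha, rfl⟩
      exact ⟨g'⁻¹, i, -a, g⁻¹, hnegint a ha, hinv g i a g'⟩
    · -- X_mul
      rintro x ⟨g0, rfl⟩ y ⟨g, i, a, g', ha, rfl⟩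
      refine ⟨g0 * g, i, a, g', ha, ?_⟩
      rw [map_mul]
      group
    · -- gen
      rw [eq_top_iff, ← step_gen (A := A) c, Subgroup.closure_le]
      rintro x (⟨g, rfl⟩ | ⟨i, a, rfl⟩)
      · exact Subgroup.subset_closure (Or.inl ⟨g, rfl⟩)
      · by_cases hint : ∃ k : ℤ, a = (k : A)
        · obtain ⟨k, rfl⟩ := hint
          rw [inB_int]
          exact Subgroup.subset_closure (Or.inl ⟨_, rfl⟩)
        · push Not at hint
          exact Subgroup.subset_closure (Or.inr ⟨1, i, a, 1, hint, by rw [map_one, one_mul, mul_one]⟩)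
    · -- X_len
      rintro x ⟨g, i, a, g', ha, rfl⟩
      exact (hlet g i a g' ha).1
    · -- ker_eq
      rintro x ⟨g, i, a, g', ha, rfl⟩
      rw [hDinv g i a g' ha]
      exact (hlet g i a g' ha).2.2
    · -- rank
      rintro x ⟨g, i, a, g', ha, rfl⟩
      rw [(hlet g i a g' ha).2.1, sppH_finrank ρ W hS, Fintype.card_sum]
      ring
    · -- dich
      rintro x ⟨g, i, a, g', ha, rfl⟩ y ⟨k, j, b, k', hb, rfl⟩
      rw [(hlet g i a g' ha).2.1, (hlet k j b k' hb).2.1]
      by_cases hc : i = j ∧ g⁻¹ * k ∈ Subgroup.zpowers (c i)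
      · exact Or.inl (sppH_eq ρ W hS hc.1 hc.2)
      · exact Or.inr (sppH_disj ρ W hS hc)
    · -- merge
      rintro x ⟨g, i, a, g', ha, rfl⟩ y ⟨k, j, b, k', hb, rfl⟩ hD
      rw [hDinv g i a g' ha, (hlet k j b k' hb).2.1, sppH_iff ρ W hS] at hD
      obtain ⟨rfl, hm⟩ := hD
      obtain ⟨m, hm⟩ := Subgroup.mem_zpowers_iff.1 hm
      have h3 : g' * k = c j ^ (-m) := by
        rw [_root_.zpow_neg, hm]
        group
      have h4 : inG A c g * inB c j a * inG A c g' * (inG A c k * inB c j b * inG A c k') =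
          inG A c g * inB c j (a + ((-m : ℤ) : A) + b) * inG A c k' := by
        rw [inB_add, inB_add, inB_int, ← h3, map_mul]
        group
      rw [h4]
      by_cases hint : ∃ n : ℤ, a + ((-m : ℤ) : A) + b = (n : A)
      · obtain ⟨n, hn⟩ := hint
        left
        rw [hn, inB_int, ← map_mul, ← map_mul]
        exact ⟨_, rfl⟩
      · push Not at hint
        right
        exact ⟨⟨g, j, _, k', hint, rfl⟩, by rw [(hlet g j _ k' hint).2.1, (hlet g j a g' ha).2.1]⟩
    · -- fix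
      rintro x0 ⟨γ, rfl⟩ hγ x ⟨g, i, a, g', ha, rfl⟩ y ⟨k, j, b, k', hb, rfl⟩ hx hy
      have hγ1 : γ ≠ 1 := by
        rintro rfl
        exact hγ (map_one _)
      have e1 : inG A c γ * (inG A c g * inB c i a * inG A c g') =
          inG A c (γ * g) * inB c i a * inG A c g' := by
        rw [map_mul]
        group
      have e2 : inG A c γ * (inG A c k * inB c j b * inG A c k') =
          inG A c (γ * k) * inB c j b * inG A c k' := by
        rw [map_mul]
        group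
      rw [e1, (hlet _ i a g' ha).2.1, (hlet _ i a g' ha).2.1, sppH_iff ρ W hS] at hx
      rw [e2, (hlet _ j b k' hb).2.1, (hlet _ j b k' hb).2.1, sppH_iff ρ W hS] at hy
      obtain ⟨m, hm⟩ := Subgroup.mem_zpowers_iff.1 hx.2
      obtain ⟨n, hn⟩ := Subgroup.mem_zpowers_iff.1 hy.2
      have hn0 : n ≠ 0 := by
        rintro rfl
        apply hγ1
        rw [zpow_zero] at hn
        have h3 : γ⁻¹ = 1 := by
          calc γ⁻¹ = k * ((γ * k)⁻¹ * k) * k⁻¹ := by group
            _ = 1 := by rw [← hn]; group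
        exact inv_eq_one.1 h3
      have h3 : (g⁻¹ * k) * c j ^ n * (g⁻¹ * k)⁻¹ = c i ^ m := by
        rw [hn, hm]
        group
      obtain ⟨h4, h5⟩ := hS.comm i j (g⁻¹ * k) n m hn0 h3
      rw [(hlet g i a g' ha).2.1, (hlet k j b k' hb).2.1]
      exact sppH_eq ρ W hS h4 h5
    · -- two
      rintro x ⟨g, rfl⟩ hx
      rw [← map_mul] at hx
      have hgg : g * g = 1 := hGinj (by rw [hx, map_one])
      by_contra hne
      have hg1 : g ≠ 1 := by
        rintro rfl
        exact hne (map_one _)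
      obtain ⟨k, hk⟩ := h.cover g hg1
      have hback : ∀ t : G, k * g * k⁻¹ = t → t = 1 → g = 1 := by
        rintro t h3 h4
        calc g = k⁻¹ * (k * g * k⁻¹) * k := by group
          _ = 1 := by rw [h3, h4]; group
      have hsq : (k * g * k⁻¹) * (k * g * k⁻¹) = 1 := by
        calc (k * g * k⁻¹) * (k * g * k⁻¹) = k * (g * g) * k⁻¹ := by group
          _ = 1 := by rw [hgg]; group
      rcases hk with ⟨j, a, ha⟩ | ⟨i, m, hm⟩
      · rw [ha, ← h.β_add] at hsq
        have h3 := hdouble a (h.β_inj j _ hsq)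
        exact hg1 (hback _ ha (by rw [h3, hβ0]))
      · rw [hm, ← _root_.zpow_add] at hsq
        have h3 := hS.ord i _ hsq
        have h4 : m = 0 := by omega
        exact hg1 (hback _ hm (by rw [h4, zpow_zero]))
    · -- two'
      rintro x ⟨g, i, a, g', ha, rfl⟩ hD hxx
      rw [hDinv g i a g' ha, (hlet g i a g' ha).2.1, sppH_iff ρ W hS] at hD
      obtain ⟨m, hm⟩ := Subgroup.mem_zpowers_iff.1 hD.2
      have h3 : g' * g = c i ^ (-m) := by
        rw [_root_.zpow_neg, hm]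
        group
      have h4 : (inG A c g)⁻¹ * (inG A c g * inB c i a * inG A c g') * inG A c g =
          inB c i (a + ((-m : ℤ) : A)) := by
        rw [inB_add, inB_int, ← h3, map_mul]
        group
      have h5 : inB c i ((a + ((-m : ℤ) : A)) + (a + ((-m : ℤ) : A))) = 1 := by
        rw [inB_add, ← h4]
        calc _ = (inG A c g)⁻¹ * ((inG A c g * inB c i a * inG A c g') *
            (inG A c g * inB c i a * inG A c g')) * inG A c g := by group
          _ = 1 := by rw [hxx]; group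
      have h6 := hdouble _ (hBinj i _ h5)
      apply ha m
      have h7 : a = -(((-m : ℤ) : A)) := eq_neg_of_add_eq_zero_left h6
      rw [h7, Int.cast_neg, neg_neg]
  · intro g g' i j a b ha hb
    rw [hlet' g i a ha, hlet' g' j b hb, sppH_iff ρ W hS]

end RLin
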