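import Pool.Agent.RLin.StepPP
import Pool.Agent.RLin.Hyp

set_option autoImplicit false

/-!
# RLin/StepTow: the step group is again a tower group

Notation: `H = Step A c`, `G₀ = (inG A c).range`, letters, `l`, `D`, `Om` with respect to `ρ'`.
`a : A` is called integral if `a = k` for some `k : ℤ`; then `inB i a = inG (c i ^ k)` (`inB_int`).
`l (inG g) = 0`; `l (inB i a) = 1` if `a` is not integral and `0` if it is.
`D (y * inG g) = D y` (`right`).

`conj_short`.  Let `y = inB i a`, `a ≠ 0`, `l (g * y * g⁻¹) ≤ 1`.  Claim: `g = inG h * inB i b` for some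
`h, b`.  Induction on `l g`.  If `l g = 0` then `g ∈ G₀` (`b = 0`).  Let `l g ≠ 0`.  By `dir` for
`g⁻¹` (`l g⁻¹ = l g`): `g⁻¹ = x₁ * z`, `x₁ = inG h * inB j a₁ * inG h'` a letter, `l z = l g - 1`,
`D g⁻¹ = D x₁ = D (inG h * inB j a₁)`.  Let `Δ = D (inB i a₁)`.
 (1) Suppose `D g⁻¹ ≠ Δ`.  If `a` is not integral: by `hdir` `D y = D y⁻¹ = Δ`, so by `far` (twice)
 `l (y * g⁻¹) = 1 + l g`, `D (y * g⁻¹) = D y = Δ ≠ D g⁻¹` and `l (g * y * g⁻¹) = 2 l g + 1 ≥ 3`, a
 contradiction.  If `a = k` is integral, `k ≠ 0`: `y = inG (c i ^ k) ≠ 1`.  If `D (y * g⁻¹) = D g⁻¹`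
 then (`left`) `D (y * x₁) = D x₁`, and `D (y * inB i a₁) = D (inB i a₁)` by `hdir`; by `fix`
 `D x₁ = D (inB i a₁) = Δ`, a contradiction.  So `D (y * g⁻¹) ≠ D g⁻¹`, `l (y * g⁻¹) = l g` and by
 `far` `l (g * y * g⁻¹) = 2 l g ≥ 2`, a contradiction.
 (2) So `D (inG h * inB j a₁) = D (inB i a₁)` and by `hdir` `i = j`, `h = c i ^ k`.  Hence
 `g⁻¹ = inB i (k + a₁) * z'` with `z' = inG h' * z`, `l z' = l g - 1`.  Since `inB i` is commutative,
 `g * y * g⁻¹ = z'⁻¹ * y * z'`; by induction `z'⁻¹ = inG h₁ * inB i b`, so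
 `g = z'⁻¹ * inB i (-(k + a₁)) = inG h₁ * inB i (b - k - a₁)`.

`conj_const`.  Let `y = inG (β j a)`, `a ≠ 0`, `l (g * y * g⁻¹) ≤ 1`.  Claim: `g ∈ G₀`.  If `l g ≠ 0`
take `x₁` as above.  If `D (y * g⁻¹) = D g⁻¹` then `D (y * x₁) = D x₁` and by `hdir`
`h⁻¹ * β j a * h ∈ <c j₁>` (up to inversion, `j₁` the index of `x₁`), so `a = 0` by `mix`, a
contradiction.  So by `far` `l (g * y * g⁻¹) = 2 l g ≥ 2`, a contradiction.

Fields of `IsTow`, with `β' = Sum.elim (fun j a => inG (β j a)) (fun i a => inB i a)`.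
* `ρ_inj`: if `ρ' x = 1` then `l x = len 1 = 0`, so `x ∈ G₀` and `x = 1` by `inj₀`.
* `β_inj`: `hinj`, `hB`.
* `mal`, first index `inr i`, `a ≠ 0`: `l (β' j' a') ≤ 1`, so by `conj_short` `g = inG h * inB i b` and
  `inG h * inB i a * inG h⁻¹ = β' j' a'`.
  If `j' = inl j`: the length of the right side is `0`, so `a = k` is integral, `k ≠ 0`,
  `h * c i ^ k * h⁻¹ = β j a'`; by `mix` `a' = 0`, so `c i ^ k = 1`, `k = 0`, a contradiction.
  If `j' = inr i'` and `a` is not integral: the length is `1`, `a'` is not integral, the directions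
  agree: `D (inG h * inB i a) = D (inB i' a')`, so by `hdir` `i = i'`, `h ∈ <c i>` and `g` is in the
  image of `inB i` (`inB_int`).  If `a = k` is integral then `a' = k'` is integral and
  `h * c i ^ k * h⁻¹ = c i' ^ k'`; use `Sys.comm`.
* `mal`, first index `inl j`, `a ≠ 0`: by `conj_const` `g = inG h`.  If `j' = inl j'`: `mal` in `G`.  If
  `j' = inr i'` then the length is `0`, `a' = k'` is integral, `h * β j a * h⁻¹ = c i' ^ k'`, `a = 0` by
  `mix`, a contradiction.
* `mix`: let `g * β' j a * g⁻¹ = c' i ^ k`, `a ≠ 0`.  By `h2` there are a hyperbolic `w` and `m ≠ 0` with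
  `c' i ^ m = w`.  `k ≠ 0` since otherwise `β' j a = 1`.  For all `n : ℕ`:
  `g * β' j ((m * n) • a) * g⁻¹ = (c' i ^ k) ^ (m * n) = (w ^ k) ^ n`, of the form `v ^ (|k| * n)` with
  `v = w` or `v = w⁻¹`, hyperbolic.  By `hyp_growth`
  `|k| * n * l v ≤ l (β' j (..)) + 2 * l g⁻¹ ≤ 1 + 2 * l g` for all `n`, a contradiction.
* `cover`: `classify`.  An element `inG g₀ ≠ 1`: `cover` in `G` and `c i ^ k` is `inB i k`.  A letter
  `x = inG g₁ * inB i a * inG g₂` with `D x = D x⁻¹`, `x⁻¹ = inG g₂⁻¹ * inB i (-a) * inG g₁⁻¹`: by `hdir`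
  `g₂ * g₁ ∈ <c i>`, so `x` is conjugate to `inB i a * inG (g₂ * g₁) = inB i (a + k)`.  Hyperbolic
  elements: `h1`.
-/

universe u

namespace RLin

open Matrix

variable {K L Γ : Type u} [Field K] [Field L] [LinearOrderedCommGroupWithZero Γ] {P : Place K L Γ}
variable {ι κ : Type} [Fintype ι] [DecidableEq ι] [Fintype κ] [DecidableEq κ]
variable {G : Type u} [Group G] {ρ : G →* Matrix ι ι K} {I J : Type u} {c : I → G}
variable {W : I → Bool → Submodule K (ι → K)} {A : Type u} [Ring A] {β : J → A → G}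

private theorem StepTow_lG {ρ' : Step A c →* Matrix κ κ L}
    (hg : Geo P ρ' (inG A c).range (letters A c)) (g : G) : P.l ρ' (inG A c g) = 0 :=
  (hg.len_zero _).2 ⟨g, rfl⟩

private theorem StepTow_memL {a : A} (ha : ∀ k : ℤ, a ≠ (k : A)) (i : I) :
    inB c i a ∈ letters A c :=
  ⟨1, i, a, 1, ha, by rw [map_one, one_mul, mul_one]⟩

private theorem StepTow_l1 {ρ' : Step A c →* Matrix κ κ L}
    (hg : Geo P ρ' (inG A c).range (letters A c)) {a : A} (ha : ∀ k : ℤ, a ≠ (k : A)) (i : I) :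
    P.l ρ' (inB c i a) = 1 := hg.X_len _ (StepTow_memL ha i)

private theorem StepTow_lint {ρ' : Step A c →* Matrix κ κ L}
    (hg : Geo P ρ' (inG A c).range (letters A c)) (i : I) (k : ℤ) :
    P.l ρ' (inB c i (k : A)) = 0 := by
  rw [inB_int]
  exact StepTow_lG hg _

private theorem StepTow_lle {ρ' : Step A c →* Matrix κ κ L}
    (hg : Geo P ρ' (inG A c).range (letters A c)) (i : I) (a : A) : P.l ρ' (inB c i a) ≤ 1 := by
  by_cases ha : ∀ k : ℤ, a ≠ (k : A)
  · exact (StepTow_l1 hg ha i).le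
  · push Not at ha
    obtain ⟨k, rfl⟩ := ha
    rw [StepTow_lint hg]
    exact zero_le_one

private theorem StepTow_int {ρ' : Step A c →* Matrix κ κ L}
    (hg : Geo P ρ' (inG A c).range (letters A c)) {i : I} {a : A}
    (h0 : P.l ρ' (inB c i a) = 0) : ∃ k : ℤ, a = (k : A) := by
  by_contra ha
  push Not at ha
  have h1 := StepTow_l1 hg ha i
  omega

private theorem StepTow_negi {a : A} (ha : ∀ k : ℤ, a ≠ (k : A)) : ∀ k : ℤ, -a ≠ (k : A) := by
  intro k hk
  apply ha (-k)
  rw [Int.cast_neg, ← hk, neg_neg]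

private theorem StepTow_pow (i : I) {g : G} (hz : g ∈ Subgroup.zpowers (c i)) :
    ∃ k : ℤ, inG A c g = inB c i (k : A) := by
  obtain ⟨k, hk⟩ := Subgroup.mem_zpowers_iff.1 hz
  exact ⟨k, by rw [inB_int, hk]⟩

/-- the first letter of the inverse -/
private theorem StepTow_first {ρ' : Step A c →* Matrix κ κ L}
    (hg : Geo P ρ' (inG A c).range (letters A c)) {g : Step A c} (h0 : P.l ρ' g ≠ 0) :
    ∃ (x : Step A c) (u : G) (j : I) (a : A) (u' : G) (z : Step A c), x ∈ letters A c ∧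
      (∀ k : ℤ, a ≠ (k : A)) ∧
      x = inG A c u * inB c j a * inG A c u' ∧ g⁻¹ = x * z ∧ P.l ρ' g = P.l ρ' z + 1 ∧
      P.D ρ' g⁻¹ = P.D ρ' x ∧ P.D ρ' x = P.D ρ' (inG A c u * inB c j a) := by
  obtain ⟨x, hx, z, h1, h2, h3⟩ := hg.dir g⁻¹ (by rw [hg.len_inv]; exact h0)
  have hx' := hx
  obtain ⟨u, j, a, u', ha, hxe⟩ := hx'
  refine ⟨x, u, j, a, u', z, hx, ha, hxe, h1, by rw [← h2, hg.len_inv], h3, ?_⟩
  rw [hxe]
  exact (hg.right ⟨u', rfl⟩ _).2

/-- conjugation by an element which moves its own direction -/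
private theorem StepTow_long {ρ' : Step A c →* Matrix κ κ L}
    (hg : Geo P ρ' (inG A c).range (letters A c)) {g y : Step A c} (h0 : P.l ρ' g ≠ 0)
    (hy : y ∈ (inG A c).range) (hD : P.D ρ' (y * g⁻¹) ≠ P.D ρ' g⁻¹) :
    1 < P.l ρ' (g * y * g⁻¹) := by
  have h1 := (hg.left hy g⁻¹).1
  have h2 : P.l ρ' (y * g⁻¹) ≠ 0 := by
    rw [h1, hg.len_inv]
    exact h0
  have h3 := (hg.far h0 h2 hD).1
  rw [mul_assoc, h3, h1, hg.len_inv]
  omega

private theorem StepTow_conj_short {ρ' : Step A c →* Matrix κ κ L}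
    (hg : Geo P ρ' (inG A c).range (letters A c))
    (hB : ∀ i (a : A), inB c i a = 1 → a = 0)
    (hdir : ∀ g g' i j (a b : A), (∀ k : ℤ, a ≠ (k : A)) → (∀ k : ℤ, b ≠ (k : A)) →
        (P.D ρ' (inG A c g * inB c i a) = P.D ρ' (inG A c g' * inB c j b) ↔
          i = j ∧ g⁻¹ * g' ∈ Subgroup.zpowers (c i))) {i : I} {a : A} (ha : a ≠ 0) :
    ∀ (n : ℕ) (g : Step A c), P.l ρ' g = n → P.l ρ' (g * inB c i a * g⁻¹) ≤ 1 →
      ∃ (u : G) (b : A), g = inG A c u * inB c i b := by
  intro n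
  induction n with
  | zero =>
    intro g hgn _
    obtain ⟨u, hu⟩ := (hg.len_zero g).1 hgn
    exact ⟨u, 0, by rw [inB_zero, mul_one, hu]⟩
  | succ n ih =>
    intro g hgn hle
    have h0 : P.l ρ' g ≠ 0 := by omega
    obtain ⟨x, u, j, a₁, u', z, hx, ha₁, hxe, hgx, hlz, hD, hDx⟩ := StepTow_first hg h0
    have h1i : ∀ (i : I) (b : A), inG A c 1 * inB c i b = inB c i b := by
      intro i b
      rw [map_one, one_mul]
    by_cases hΔ : P.D ρ' g⁻¹ = P.D ρ' (inB c i a₁)
    · rw [hD, hDx, ← h1i i a₁] at hΔ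
      obtain ⟨hji, hz⟩ := (hdir u 1 j i a₁ a₁ ha₁ ha₁).1 hΔ
      subst hji
      rw [mul_one] at hz
      obtain ⟨k, hk⟩ := StepTow_pow (A := A) j (by simpa using Subgroup.inv_mem _ hz : u ∈ _)
      obtain ⟨z', hz'⟩ : ∃ z', z' = inG A c u' * z := ⟨_, rfl⟩
      have h2 : g⁻¹ = inB c j (k + a₁) * z' := by
        rw [hgx, hxe, hk, inB_add, hz', mul_assoc]
      have h3 : g = z'⁻¹ * (inB c j (k + a₁))⁻¹ := by
        rw [← _root_.mul_inv_rev, ← h2, inv_inv]
      have hcomm : (inB c j (k + a₁))⁻¹ * inB c j a * inB c j (k + a₁) = inB c j a := by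
        rw [← inB_neg, ← inB_add, ← inB_add]
        congr 1
        abel
      have h4 : g * inB c j a * g⁻¹ = z'⁻¹ * inB c j a * z'⁻¹⁻¹ := by
        rw [h2, h3, inv_inv]
        calc z'⁻¹ * (inB c j (↑k + a₁))⁻¹ * inB c j a * (inB c j (↑k + a₁) * z')
            = z'⁻¹ * ((inB c j (↑k + a₁))⁻¹ * inB c j a * inB c j (↑k + a₁)) * z' := by group
          _ = z'⁻¹ * inB c j a * z' := by rw [hcomm]
      rw [h4] at hle
      have h5 : P.l ρ' z'⁻¹ = n := by
        rw [hg.len_inv, hz', (hg.left ⟨u', rfl⟩ z).1]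
        omega
      obtain ⟨v, b, hv⟩ := ih z'⁻¹ h5 hle
      refine ⟨v, b + -(k + a₁), ?_⟩
      rw [h3, hv, inB_add c j b, inB_neg, mul_assoc]
    · exfalso
      by_cases hai : ∀ k : ℤ, a ≠ (k : A)
      · have hly : P.l ρ' (inB c i a) = 1 := StepTow_l1 hg hai i
        have hDy : P.D ρ' (inB c i a) = P.D ρ' (inB c i a₁) := by
          rw [← h1i i a, ← h1i i a₁]
          exact (hdir 1 1 i i a a₁ hai ha₁).2 ⟨rfl, by
            rw [inv_one, one_mul]
            exact Subgroup.one_mem _⟩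
        have hDy' : P.D ρ' (inB c i a)⁻¹ = P.D ρ' (inB c i a₁) := by
          rw [← inB_neg, ← h1i i (-a), ← h1i i a₁]
          exact (hdir 1 1 i i (-a) a₁ (StepTow_negi hai) ha₁).2 ⟨rfl, by
            rw [inv_one, one_mul]
            exact Subgroup.one_mem _⟩
        have h2 : P.l ρ' g⁻¹ ≠ 0 := by
          rw [hg.len_inv]
          exact h0
        obtain ⟨h3, h4, -⟩ := hg.far (x := inB c i a) (y := g⁻¹) (by omega) h2
          (by rw [hDy']; exact hΔ)
        have h5 := (hg.far (x := g) (y := inB c i a * g⁻¹) h0 (by omega) (by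
          rw [h4, hDy]
          exact fun h => hΔ h.symm)).1
        rw [← mul_assoc] at h5
        omega
      · push Not at hai
        obtain ⟨k, rfl⟩ := hai
        have hy : inB c i (k : A) ∈ (inG A c).range := ⟨c i ^ k, (inB_int c i k).symm⟩
        have hy1 : inB c i (k : A) ≠ 1 := fun h => ha (hB i _ h)
        have hne : P.D ρ' (inB c i (k : A) * g⁻¹) ≠ P.D ρ' g⁻¹ := by
          intro heq
          apply hΔ
          rw [hD]
          apply hg.fix _ hy hy1 x hx (inB c i a₁) (StepTow_memL ha₁ i)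
          · rw [(hg.left hy x).2.2, ← hD, ← (hg.left hy g⁻¹).2.2, heq]
          · rw [inB_int]
            conv_rhs => rw [← h1i i a₁]
            refine (hdir _ 1 i i a₁ a₁ ha₁ ha₁).2 ⟨rfl, ?_⟩
            rw [mul_one]
            exact Subgroup.inv_mem _ (Subgroup.zpow_mem_zpowers _ _)
        have h2 := StepTow_long hg h0 hy hne
        omega

private theorem StepTow_conj_const {ρ' : Step A c →* Matrix κ κ L}
    (h : IsTow ρ c W β) (hg : Geo P ρ' (inG A c).range (letters A c))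
    (hdir : ∀ g g' i j (a b : A), (∀ k : ℤ, a ≠ (k : A)) → (∀ k : ℤ, b ≠ (k : A)) →
        (P.D ρ' (inG A c g * inB c i a) = P.D ρ' (inG A c g' * inB c j b) ↔
          i = j ∧ g⁻¹ * g' ∈ Subgroup.zpowers (c i))) {j : J} {a : A} (ha : a ≠ 0)
    (g : Step A c) (hle : P.l ρ' (g * inG A c (β j a) * g⁻¹) ≤ 1) : ∃ u : G, g = inG A c u := by
  by_cases h0 : P.l ρ' g = 0
  · obtain ⟨u, hu⟩ := (hg.len_zero g).1 h0
    exact ⟨u, hu.symm⟩
  · exfalso
    obtain ⟨x, u, i, a₁, u', z, hx, ha₁, hxe, hgx, hlz, hD, hDx⟩ := StepTow_first hg h0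
    have hy : inG A c (β j a) ∈ (inG A c).range := ⟨_, rfl⟩
    have hne : P.D ρ' (inG A c (β j a) * g⁻¹) ≠ P.D ρ' g⁻¹ := by
      intro heq
      rw [(hg.left hy g⁻¹).2.2, hD, hDx, ← (hg.left hy _).2.2, ← mul_assoc, ← map_mul] at heq
      obtain ⟨-, hz⟩ := (hdir _ _ _ _ _ _ ha₁ ha₁).1 heq
      obtain ⟨k, hk⟩ := Subgroup.mem_zpowers_iff.1 hz
      apply ha
      apply h.mix j i u⁻¹ a (-k)
      rw [_root_.zpow_neg, hk]
      group
    have h2 := StepTow_long hg h0 hy hne
    omega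

theorem step_tow [Nontrivial A] [Nonempty κ]
    (htf : ∀ (n : ℕ) (a : A), n ≠ 0 → n • a = 0 → a = 0)
    (h : IsTow ρ c W β) {ρ' : Step A c →* Matrix κ κ L}
    (hg : Geo P ρ' (inG A c).range (letters A c)) (hinj : Function.Injective (inG A c))
    (hB : ∀ i (a : A), inB c i a = 1 → a = 0)
    (hdir : ∀ g g' i j (a b : A), (∀ k : ℤ, a ≠ (k : A)) → (∀ k : ℤ, b ≠ (k : A)) →
        (P.D ρ' (inG A c g * inB c i a) = P.D ρ' (inG A c g' * inB c j b) ↔
          i = j ∧ g⁻¹ * g' ∈ Subgroup.zpowers (c i)))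
    {I' : Type u} {c' : I' → Step A c} {W' : I' → Bool → Submodule L (κ → L)} (hs : Sys ρ' c' W')
    (h1 : ∀ w, P.Hyp ρ' w → ∃ g i, g * w * g⁻¹ ∈ Subgroup.zpowers (c' i))
    (h2 : ∀ i, ∃ w, P.Hyp ρ' w ∧ ∃ m : ℤ, m ≠ 0 ∧ c' i ^ m = w) :
    IsTow ρ' c' W' (Sum.elim (fun (j : J) (a : A) => inG A c (β j a)) fun (i : I) (a : A) =>
      inB c i a) := by
  have hl : ∀ (j : J ⊕ I) (a : A), P.l ρ' ((Sum.elim (fun (j : J) (a : A) => inG A c (β j a))
      fun (i : I) (a : A) => inB c i a) j a) ≤ 1 := by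
    rintro (j | i) a
    · change P.l ρ' (inG A c (β j a)) ≤ 1
      rw [StepTow_lG hg]
      exact zero_le_one
    · exact StepTow_lle hg i a
  have h1i : ∀ (i : I) (b : A), inG A c 1 * inB c i b = inB c i b := by
    intro i b
    rw [map_one, one_mul]
  have hβ0 : ∀ j, β j 0 = 1 := by
    intro j
    have h3 := h.β_add j 0 0
    rw [add_zero] at h3
    exact left_eq_mul.1 h3
  have hadd : ∀ (j : J ⊕ I) (a b : A), (Sum.elim (fun (j : J) (a : A) => inG A c (β j a))
      fun (i : I) (a : A) => inB c i a) j (a + b) =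
      (Sum.elim (fun (j : J) (a : A) => inG A c (β j a)) fun (i : I) (a : A) => inB c i a) j a *
      (Sum.elim (fun (j : J) (a : A) => inG A c (β j a)) fun (i : I) (a : A) => inB c i a) j b := by
    rintro (j | i) a b
    · change inG A c (β j (a + b)) = inG A c (β j a) * inG A c (β j b)
      rw [h.β_add, map_mul]
    · exact inB_add c i a b
  have hinj' : ∀ (j : J ⊕ I) (a : A), (Sum.elim (fun (j : J) (a : A) => inG A c (β j a))
      fun (i : I) (a : A) => inB c i a) j a = 1 → a = 0 := by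
    rintro (j | i) a ha
    · change inG A c (β j a) = 1 at ha
      apply h.β_inj j a
      apply hinj
      rw [ha, map_one]
    · exact hB i a ha
  refine { toSys := hs
           ρ_inj := ?_
           β_add := hadd
           β_inj := hinj'
           mal := ?_
           mix := ?_
           cover := ?_ }
  · rw [injective_iff_map_eq_one]
    intro x hx
    apply hg.inj₀ x _ hx
    rw [← hg.len_zero]
    have h3 : P.l ρ' x = P.l ρ' 1 := by
      unfold Place.l
      rw [hx, map_one]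
    rw [h3, hg.l_one]
  · rintro (j | i) j' g a a' ha heq
    · -- first index in `J`
      change g * inG A c (β j a) * g⁻¹ = _ at heq
      obtain ⟨u, rfl⟩ := StepTow_conj_const h hg hdir ha g (by rw [heq]; exact hl j' a')
      rw [← map_inv, ← map_mul, ← map_mul] at heq
      rcases j' with j' | i'
      · change _ = inG A c (β j' a') at heq
        obtain ⟨h3, b, h4⟩ := h.mal j j' u a a' ha (hinj heq)
        exact ⟨congrArg Sum.inl h3, b, congrArg (inG A c) h4⟩
      · exfalso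
        change _ = inB c i' a' at heq
        have h3 : P.l ρ' (inB c i' a') = 0 := by
          rw [← heq]
          exact StepTow_lG hg _
        obtain ⟨k, rfl⟩ := StepTow_int hg h3
        rw [inB_int] at heq
        exact ha (h.mix j i' u a k (hinj heq))
    · change g * inB c i a * g⁻¹ = _ at heq
      obtain ⟨u, b, rfl⟩ := StepTow_conj_short hg hB hdir ha _ g rfl (by rw [heq]; exact hl j' a')
      have h3 : inG A c u * inB c i b * inB c i a * (inG A c u * inB c i b)⁻¹ =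
          inG A c u * inB c i a * inG A c u⁻¹ := by
        have h4 : inB c i b * inB c i a * (inB c i b)⁻¹ = inB c i a := by
          rw [← inB_neg, ← inB_add, ← inB_add]
          congr 1
          abel
        rw [map_inv]
        calc inG A c u * inB c i b * inB c i a * (inG A c u * inB c i b)⁻¹
            = inG A c u * (inB c i b * inB c i a * (inB c i b)⁻¹) * (inG A c u)⁻¹ := by group
          _ = inG A c u * inB c i a * (inG A c u)⁻¹ := by rw [h4]
      rw [h3] at heq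
      -- it is enough that `u` is a power of `c i`
      have hfin : u ∈ Subgroup.zpowers (c i) →
          ∃ b' : A, inG A c u * inB c i b = inB c i b' := by
        intro hu
        obtain ⟨k, hk⟩ := StepTow_pow (A := A) i hu
        exact ⟨k + b, by rw [hk, inB_add]⟩
      rcases j' with j' | i'
      · exfalso
        change _ = inG A c (β j' a') at heq
        have h4 : inB c i a = inG A c (u⁻¹ * β j' a' * u⁻¹⁻¹) := by
          have hp : inG A c u⁻¹ = (inG A c u)⁻¹ := map_inv _ _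
          rw [inv_inv, map_mul, map_mul, ← heq, hp]
          group
        have h5 : P.l ρ' (inB c i a) = 0 := by
          rw [h4]
          exact StepTow_lG hg _
        obtain ⟨k, rfl⟩ := StepTow_int hg h5
        rw [inB_int] at h4
        have h6 := hinj h4
        have h7 := h.mix j' i u⁻¹ a' k h6.symm
        rw [h7, hβ0, mul_one, mul_inv_cancel] at h6
        rw [h.ord i k h6, Int.cast_zero] at ha
        exact ha rfl
      · change _ = inB c i' a' at heq
        by_cases hai : ∀ k : ℤ, a ≠ (k : A)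
        · have h4 : P.l ρ' (inB c i' a') = 1 := by
            rw [← heq]
            exact hg.X_len _ ⟨u, i, a, u⁻¹, hai, rfl⟩
          have hai' : ∀ k : ℤ, a' ≠ (k : A) := by
            intro k hk
            rw [hk, StepTow_lint hg] at h4
            exact zero_ne_one h4
          have h5 : P.D ρ' (inG A c u * inB c i a) = P.D ρ' (inG A c 1 * inB c i' a') := by
            rw [h1i, ← heq]
            exact ((hg.right ⟨u⁻¹, rfl⟩ _).2).symm
          obtain ⟨h6, h7⟩ := (hdir _ _ _ _ _ _ hai hai').1 h5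
          rw [mul_one] at h7
          refine ⟨congrArg Sum.inr h6, hfin ?_⟩
          simpa using Subgroup.inv_mem _ h7
        · push Not at hai
          obtain ⟨k, rfl⟩ := hai
          have h4 : inB c i' a' = inG A c (u * c i ^ k * u⁻¹) := by
            rw [← heq, inB_int, map_mul, map_mul]
          have h5 : P.l ρ' (inB c i' a') = 0 := by
            rw [h4]
            exact StepTow_lG hg _
          obtain ⟨k', rfl⟩ := StepTow_int hg h5
          rw [inB_int] at h4
          have hk : k ≠ 0 := by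
            rintro rfl
            exact ha Int.cast_zero
          obtain ⟨h6, h7⟩ := h.comm i' i u k k' hk (hinj h4).symm
          refine ⟨congrArg Sum.inr h6.symm, hfin ?_⟩
          rw [← h6]
          exact h7
  · -- mix
    intro j i g a k heq
    by_contra ha
    obtain ⟨w, hw, m, hm, hcw⟩ := h2 i
    have hk : k ≠ 0 := by
      rintro rfl
      rw [zpow_zero] at heq
      exact ha (hinj' j a (conj_eq_one_iff.1 heq))
    obtain ⟨B, hBdef⟩ : ∃ B : Multiplicative A →* Step A c, ∀ a, B (Multiplicative.ofAdd a) =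
        (Sum.elim (fun (j : J) (a : A) => inG A c (β j a)) fun (i : I) (a : A) => inB c i a) j a :=
      ⟨MonoidHom.mk' (fun a => (Sum.elim (fun (j : J) (a : A) => inG A c (β j a))
        fun (i : I) (a : A) => inB c i a) j (Multiplicative.toAdd a)) (fun x y => hadd j _ _),
        fun a => rfl⟩
    obtain ⟨v, hv, hvw⟩ : ∃ v, P.Hyp ρ' v ∧ ∀ n : ℕ, w ^ (k * n) = v ^ (k.natAbs * n) := by
      rcases lt_or_gt_of_ne hk with hk | hk
      · refine ⟨w⁻¹, hg.hyp_inv hw, fun n => ?_⟩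
        have h3 : k * (n : ℤ) = -((k.natAbs * n : ℕ) : ℤ) := by
          push_cast
          rw [abs_of_neg hk]
          ring
        rw [h3, _root_.zpow_neg, zpow_natCast, inv_pow]
      · refine ⟨w, hw, fun n => ?_⟩
        have h3 : k * (n : ℤ) = ((k.natAbs * n : ℕ) : ℤ) := by
          push_cast
          rw [abs_of_pos hk]
        rw [h3, zpow_natCast]
    obtain ⟨n, hn⟩ : ∃ n : ℕ, n = 2 + 2 * P.l ρ' g⁻¹ := ⟨_, rfl⟩
    have h3 : v ^ (k.natAbs * n) = g * B (Multiplicative.ofAdd ((m * n) • a)) * g⁻¹ := by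
      rw [ofAdd_zsmul, map_zpow, hBdef, ← conj_zpow, heq, ← hvw, ← hcw, ← _root_.zpow_mul, ← _root_.zpow_mul]
      congr 1
      ring
    have h4 := hg.hyp_growth hv g⁻¹ (k.natAbs * n)
    have h5 : g⁻¹ * v ^ (k.natAbs * n) * g⁻¹⁻¹ = B (Multiplicative.ofAdd ((m * n) • a)) := by
      rw [h3]
      group
    rw [h5, hBdef] at h4
    have h6 := hl j ((m * n) • a)
    have h7 : 1 ≤ k.natAbs := Int.natAbs_pos.2 hk
    have h8 : 1 ≤ P.l ρ' v := Nat.one_le_iff_ne_zero.2 hv.1
    have h9 : n * 1 ≤ k.natAbs * n * P.l ρ' v := by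
      calc n * 1 = 1 * n * 1 := by ring
        _ ≤ k.natAbs * n * P.l ρ' v := Nat.mul_le_mul (Nat.mul_le_mul_right _ h7) h8
    omega
  · -- cover
    intro g hg1
    obtain ⟨g₀, hc⟩ := hg.classify g
    rcases hc with ⟨u, hu⟩ | ⟨⟨u, i, a, u', ha, hx⟩, hD⟩ | hH
    · have hu1 : u ≠ 1 := by
        rintro rfl
        rw [map_one] at hu
        exact hg1 (conj_eq_one_iff.1 hu.symm)
      obtain ⟨h', hh⟩ := h.cover u hu1
      refine ⟨inG A c h' * g₀, Or.inl ?_⟩
      have h3 : inG A c h' * g₀ * g * (inG A c h' * g₀)⁻¹ = inG A c (h' * u * h'⁻¹) := by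
        rw [map_mul, map_mul, hu, map_inv]
        group
      rw [h3]
      rcases hh with ⟨j, a, hja⟩ | ⟨i, k, hik⟩
      · exact ⟨Sum.inl j, a, congrArg (inG A c) hja⟩
      · refine ⟨Sum.inr i, (k : A), ?_⟩
        change _ = inB c i (k : A)
        rw [hik, inB_int]
    · have h3 : P.D ρ' (g₀ * g * g₀⁻¹) = P.D ρ' (inG A c u * inB c i a) := by
        rw [hx]
        exact (hg.right ⟨u', rfl⟩ _).2
      have h4 : P.D ρ' (g₀ * g * g₀⁻¹)⁻¹ = P.D ρ' (inG A c u'⁻¹ * inB c i (-a)) := by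
        have h5 : (g₀ * g * g₀⁻¹)⁻¹ = inG A c u'⁻¹ * inB c i (-a) * inG A c u⁻¹ := by
          rw [hx, map_inv, map_inv, inB_neg]
          group
        rw [h5]
        exact (hg.right ⟨u⁻¹, rfl⟩ _).2
      rw [h3, h4] at hD
      obtain ⟨-, h5⟩ := (hdir _ _ _ _ _ _ ha (StepTow_negi ha)).1 hD
      obtain ⟨k, hk⟩ := StepTow_pow (A := A) i
        (by simpa using Subgroup.inv_mem _ h5 : u' * u ∈ Subgroup.zpowers (c i))
      refine ⟨(inG A c u)⁻¹ * g₀, Or.inl ⟨Sum.inr i, a + k, ?_⟩⟩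
      change _ = inB c i (a + k)
      rw [inB_add, ← hk, map_mul]
      calc (inG A c u)⁻¹ * g₀ * g * ((inG A c u)⁻¹ * g₀)⁻¹
          = (inG A c u)⁻¹ * (g₀ * g * g₀⁻¹) * inG A c u := by group
        _ = inB c i a * (inG A c u' * inG A c u) := by
          rw [hx]
          group
    · obtain ⟨g', i, hz⟩ := h1 _ hH
      obtain ⟨k, hk⟩ := Subgroup.mem_zpowers_iff.1 hz
      refine ⟨g' * g₀, Or.inr ⟨i, k, ?_⟩⟩
      rw [hk]
      group

end RLin
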