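import Pool.Agent.RLin.PlaceEx
import Pool.Agent.RLin.Chi
import Pool.Agent.RLin.StepHom
import Pool.Agent.RLin.StepTow
import Pool.Agent.RLin.Base

set_option autoImplicit false

/-!
# RLin/Tower: the sequence of tower groups

`Lin` bundles the field, the representation and the character.  `step_lin` composes `exists_place`,
`step_hom`, `step_pp`, `PP.geo`, `Geo.sys`, `step_tow`; the new character is `P.i ∘ χ`, the new index
type is `ι ⊕ ι`.  `base_lin` composes `exists_chi` (with `e = 1`, `Y ⊕ Y`), `exists_place` and `base_tow`.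
-/

universe u

namespace RLin

open Matrix

/-- `G` is a tower group of degree `m` over some algebraically closed field of characteristic zero -/
def Lin {A : Type u} [Ring A] {G : Type u} [Group G] {I J : Type u} (c : I → G) (β : J → A → G)
    (m : ℕ) : Prop :=
  ∃ (K : Type u) (_ : Field K) (_ : IsAlgClosed K) (_ : CharZero K) (ι : Type) (_ : Fintype ι)
    (_ : DecidableEq ι) (ρ : G →* Matrix ι ι K) (W : I → Bool → Submodule K (ι → K)) (χ : A → K),
    Fintype.card ι = m ∧ (∀ x y, χ (x + y) = χ x * χ y) ∧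
      (∀ x, χ x = 1 ↔ ∃ k : ℤ, x = (k : A)) ∧ IsTow ρ c W β

variable {A : Type u} [Ring A]

theorem step_lin [Nontrivial A] (htf : ∀ (n : ℕ) (a : A), n ≠ 0 → n • a = 0 → a = 0)
    {G : Type u} [Group G] {I J : Type u} {c : I → G} {β : J → A → G} {m : ℕ} (hm : m ≠ 0)
    (h : Lin c β m) :
    Function.Injective (inG A c) ∧ ∃ (I' : Type u) (c' : I' → Step A c),
      Lin c' (Sum.elim (fun (j : J) (a : A) => inG A c (β j a)) fun (i : I) (a : A) =>
        inB c i a) (2 * m) := by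
  obtain ⟨K, iK, iA, iC, ι, iF, iD, ρ, W, χ, hcard, hχ, hχ1, ht⟩ := h
  obtain ⟨L, jL, jA, jC, Γ, jΓ, ⟨P⟩⟩ := exists_place K
  have hne : Nonempty ι := by
    rw [← Fintype.card_pos_iff, hcard]
    exact Nat.pos_of_ne_zero hm
  obtain ⟨ρ', h1, h2⟩ := step_hom P htf χ hχ hχ1 ht
  obtain ⟨hpp, hinj, hB, hdir⟩ := step_pp P htf ht ρ' h1 h2
  have hg := hpp.geo
  obtain ⟨I', c', W', hs, hs1, hs2⟩ := hg.sys
  refine ⟨hinj, I', c', L, jL, jA, jC, ι ⊕ ι, inferInstance, inferInstance, ρ', W',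
    fun a => P.i (χ a), ?_, ?_, ?_, step_tow htf ht hg hinj hB hdir hs hs1 hs2⟩
  · rw [Fintype.card_sum, hcard, two_mul]
  · intro x y
    show P.i (χ (x + y)) = P.i (χ x) * P.i (χ y)
    rw [hχ, map_mul]
  · intro x
    show P.i (χ x) = 1 ↔ _
    rw [← hχ1 x]
    constructor
    · intro hx
      exact P.i.injective (by rw [hx, map_one])
    · intro hx
      rw [hx, map_one]

theorem base_lin [Nontrivial A] (htf : ∀ (n : ℕ) (a : A), n ≠ 0 → n • a = 0 → a = 0) (Y : Type u)
    (β : PEmpty.{u + 1} → A → FreeGroup Y) :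
    ∃ (I : Type u) (c : I → FreeGroup Y), Lin c β 2 := by
  obtain ⟨K, iK, iA, iC, χ, t, hχ, hχ1, ht⟩ := exists_chi htf (1 : A) one_ne_zero (Y ⊕ Y)
  obtain ⟨L, jL, jA, jC, Γ, jΓ, ⟨P⟩⟩ := exists_place K
  obtain ⟨ρ', I, c, W, hT⟩ := base_tow P t ht A β
  refine ⟨I, c, L, jL, jA, jC, Fin 2, inferInstance, inferInstance, ρ', W,
    fun a => P.i (χ a), Fintype.card_fin 2, ?_, ?_, hT⟩
  · intro x y
    show P.i (χ (x + y)) = P.i (χ x) * P.i (χ y)
    rw [hχ, map_mul]
  · intro x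
    have h1 : χ x = 1 ↔ ∃ k : ℤ, x = (k : A) := by
      rw [hχ1 x]
      simp only [zsmul_one]
    show P.i (χ x) = 1 ↔ _
    rw [← h1]
    constructor
    · intro hx
      exact P.i.injective (by rw [hx, map_one])
    · intro hx
      rw [hx, map_one]

/-- a tower group, bundled -/
structure Tow (A : Type u) [Ring A] where
  /-- the group -/
  G : Type u
  [grp : Group G]
  /-- the index set of the cyclic subgroups -/
  I : Type u
  /-- the index set of the copies of `A` -/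
  J : Type u
  /-- the generators of the cyclic subgroups -/
  c : I → G
  /-- the copies of `A` -/
  β : J → A → G
  /-- the degree -/
  m : ℕ
  m_ne : m ≠ 0
  lin : Lin c β m

attribute [instance] Tow.grp

/-- the next tower group -/
noncomputable def Tow.next [Nontrivial A]
    (htf : ∀ (n : ℕ) (a : A), n ≠ 0 → n • a = 0 → a = 0) (t : Tow A) : Tow A where
  G := Step A t.c
  I := (step_lin htf t.m_ne t.lin).2.choose
  J := t.J ⊕ t.I
  c := (step_lin htf t.m_ne t.lin).2.choose_spec.choose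
  β := Sum.elim (fun (j : t.J) (a : A) => inG A t.c (t.β j a)) fun (i : t.I) (a : A) =>
        inB t.c i a
  m := 2 * t.m
  m_ne := Nat.mul_ne_zero two_ne_zero t.m_ne
  lin := (step_lin htf t.m_ne t.lin).2.choose_spec.choose_spec

/-- the base of the tower -/
noncomputable def Tow.base [Nontrivial A]
    (htf : ∀ (n : ℕ) (a : A), n ≠ 0 → n • a = 0 → a = 0) (Y : Type u) : Tow A where
  G := FreeGroup Y
  I := (base_lin htf Y (fun j _ => j.elim)).choose
  J := PEmpty
  c := (base_lin htf Y (fun j _ => j.elim)).choose_spec.choose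
  β := fun j _ => j.elim
  m := 2
  m_ne := two_ne_zero
  lin := (base_lin htf Y (fun j _ => j.elim)).choose_spec.choose_spec

/-- the tower -/
noncomputable def tow [Nontrivial A] (htf : ∀ (n : ℕ) (a : A), n ≠ 0 → n • a = 0 → a = 0)
    (Y : Type u) : ℕ → Tow A
  | 0 => Tow.base htf Y
  | n + 1 => (tow htf Y n).next htf

/-- the group-theoretic content of `Lin` -/
theorem Tow.facts (t : Tow A) :
    (∀ j a b, t.β j (a + b) = t.β j a * t.β j b) ∧ (∀ j a, t.β j a = 1 → a = 0) ∧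
      (∀ j j' g a a', a ≠ 0 → g * t.β j a * g⁻¹ = t.β j' a' → j = j' ∧ ∃ b, g = t.β j b) ∧
      (∀ j i g a (k : ℤ), g * t.β j a * g⁻¹ = t.c i ^ k → a = 0) ∧
      (∀ g, g ≠ 1 → ∃ h, (∃ j a, h * g * h⁻¹ = t.β j a) ∨
        ∃ i, ∃ k : ℤ, h * g * h⁻¹ = t.c i ^ k) := by
  obtain ⟨K, iK, iA, iC, ι, iF, iD, ρ, W, χ, hcard, hχ, hχ1, ht⟩ := t.lin
  exact ⟨ht.β_add, ht.β_inj, ht.mal, ht.mix, ht.cover⟩

theorem tow_m [Nontrivial A] (htf : ∀ (n : ℕ) (a : A), n ≠ 0 → n • a = 0 → a = 0) (Y : Type u)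
    (n : ℕ) : (tow htf Y n).m = 2 ^ (n + 1) := by
  induction n with
  | zero => rfl
  | succ n ih =>
    change 2 * (tow htf Y n).m = _
    rw [ih, pow_succ 2 (n + 1), mul_comm]

/-- the group `(tow n).G` is linear of degree `2 ^ (n + 1)`: reindex `ι ≃ Fin m`, an injective
homomorphism to the matrix monoid gives one to `GL` (`MonoidHom.toHomUnits`) -/
theorem tow_linear [Nontrivial A] (htf : ∀ (n : ℕ) (a : A), n ≠ 0 → n • a = 0 → a = 0)
    (Y : Type u) (n : ℕ) :
    ∃ (K : Type u) (_ : Field K) (_ : CharZero K)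
      (φ : (tow htf Y n).G →* GL (Fin (2 ^ (n + 1))) K), Function.Injective φ := by
  obtain ⟨K, iK, iA, iC, ι, iF, iD, ρ, W, χ, hcard, hχ, hχ1, ht⟩ := (tow htf Y n).lin
  rw [tow_m] at hcard
  let e : ι ≃ Fin (2 ^ (n + 1)) := Fintype.equivFinOfCardEq hcard
  let ψ : (tow htf Y n).G →* Matrix (Fin (2 ^ (n + 1))) (Fin (2 ^ (n + 1))) K :=
    ((Matrix.reindexAlgEquiv K K e : Matrix ι ι K →* _)).comp ρ
  refine ⟨K, iK, iC, ψ.toHomUnits, ?_⟩
  intro x y hxy
  have h1 : ψ x = ψ y := by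
    have h2 := congrArg Units.val hxy
    simpa using h2
  have h3 : ρ x = ρ y := (Matrix.reindexAlgEquiv K K e).injective h1
  exact ht.ρ_inj h3

/-- `step_lin` -/
theorem tow_inj [Nontrivial A] (htf : ∀ (n : ℕ) (a : A), n ≠ 0 → n • a = 0 → a = 0)
    (Y : Type u) (n : ℕ) : Function.Injective (inG A (tow htf Y n).c) :=
  (step_lin htf (tow htf Y n).m_ne (tow htf Y n).lin).1

end RLin
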