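import Pool.Agent.RLin.Defs

set_option autoImplicit false

/-!
# RLin/Vec: norms and reductions of vectors and matrices

All statements are elementary.  `P.N u` is the maximum of the valuations of the coordinates
(`LinearOrderedCommGroupWithZero` has a bottom element `0`, so `Finset.sup` makes sense).

Hints.
* `v_i_eq`: `v (i a) ≤ 1` and `v (i a⁻¹) ≤ 1` and the product is `1`.
* `N_le_iff`: `Finset.sup_le_iff`.  `exists_N`: `Finset.exists_mem_eq_sup` (needs `Nonempty ι`); if
  `u ≠ 0` then `ι` is nonempty.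
* `exists_prim`: take `k` with `P.N u = P.v (u k)`, then `lam = (u k)⁻¹`.
* `Rv.uniq`: `v (i a - i b) < 1` forces `a = b` by `v_i_eq`.
* `Rv.mulVec`, `Rm.mul`: `∑ (M j k * u k - i (M' j k) * i (a k))` and
  `M u - M' a = (M - M') u + M' (u - a)`; use `P.v.map_sum_lt`, `Valuation.map_add_lt`.
* `int_len`: by `P.arch` applied to the nonzero entries there is `n` with `P.Int (P.T ^ n • M)`,
  then `Nat.sInf_mem`.
* `len_eq`: if `T ^ n • M` reduces to `N ≠ 0` and `m < n` then `T ^ m • M` is not integral,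
  otherwise `T ^ n • M = T ^ (n - m) • (T ^ m • M)` reduces to `0`.
* `Over.finrank_le`: let `D` be of dimension `d`; there is a matrix (or linear map)
  `π : (ι → K) → (Fin d → K)` injective on `D` (a left inverse of the inclusion of `D` composed with
  a basis).  Its extension of scalars by `P.i` to `(ι → L) → (Fin d → L)` is injective on `E`: for
  `u ∈ E`, `u ≠ 0` choose `lam` and `a ≠ 0` with `P.Rv (lam • u) a`; then `a ∈ D`, `π a ≠ 0` and
  `π (lam • u)` reduces to `π a`.  So `finrank E ≤ d`.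
-/

universe u

namespace RLin

open Matrix

variable {K L Γ : Type u} [Field K] [Field L] [LinearOrderedCommGroupWithZero Γ]
variable {ι : Type} [Fintype ι] [DecidableEq ι] (P : Place K L Γ)

theorem v_i_eq {a : K} (ha : a ≠ 0) : P.v (P.i a) = 1 := by
  have h1 := P.v_i a
  have h2 := P.v_i a⁻¹
  have h3 : P.v (P.i a) * P.v (P.i a⁻¹) = 1 := by
    rw [← map_mul, ← map_mul, mul_inv_cancel₀ ha, map_one, map_one]
  apply le_antisymm h1
  calc (1 : Γ) = P.v (P.i a) * P.v (P.i a⁻¹) := h3.symm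
    _ ≤ P.v (P.i a) * 1 := mul_le_mul_right h2 _
    _ = P.v (P.i a) := mul_one _

theorem v_T_pos : 0 < P.v P.T := by
  exact zero_lt_iff.mpr ((Valuation.ne_zero_iff P.v).mpr P.T_ne)

theorem N_le_iff (u : ι → L) (c : Γ) : P.N u ≤ c ↔ ∀ k, P.v (u k) ≤ c := by
  unfold Place.N
  simp

theorem v_le_N (u : ι → L) (k : ι) : P.v (u k) ≤ P.N u := by
  exact Finset.le_sup (f := fun k => P.v (u k)) (Finset.mem_univ k)

theorem exists_N (u : ι → L) (hu : u ≠ 0) : ∃ k, P.N u = P.v (u k) := by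
  have hne : Nonempty ι := by
    by_contra hcon
    rw [not_nonempty_iff] at hcon
    exact hu (Subsingleton.elim _ _)
  obtain ⟨k, -, hk⟩ := Finset.exists_mem_eq_sup Finset.univ Finset.univ_nonempty
    (fun k => P.v (u k))
  exact ⟨k, hk⟩

theorem N_eq_zero (u : ι → L) : P.N u = 0 ↔ u = 0 := by
  constructor
  · intro h
    funext k
    have h1 := v_le_N P u k
    rw [h] at h1
    exact (Valuation.zero_iff P.v).mp (le_antisymm h1 zero_le')
  · intro h
    apply le_antisymm _ zero_le'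
    rw [N_le_iff]
    intro k
    rw [h]
    simp

theorem N_smul (c : L) (u : ι → L) : P.N (c • u) = P.v c * P.N u := by
  by_cases hc : c = 0
  · rw [hc, zero_smul, map_zero, zero_mul]
    exact (N_eq_zero P 0).mpr rfl
  · have hvc : 0 < P.v c := zero_lt_iff.mpr ((Valuation.ne_zero_iff P.v).mpr hc)
    by_cases hu : u = 0
    · rw [hu, smul_zero, (N_eq_zero P (0 : ι → L)).mpr rfl, mul_zero]
    apply le_antisymm
    · rw [N_le_iff]
      intro k
      rw [Pi.smul_apply, smul_eq_mul, map_mul]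
      exact mul_le_mul_right (v_le_N P u k) _
    · obtain ⟨k, hk⟩ := exists_N P u hu
      rw [hk, ← map_mul]
      exact v_le_N P (c • u) k

theorem N_neg (u : ι → L) : P.N (-u) = P.N u := by
  unfold Place.N
  simp

theorem N_add_le (u w : ι → L) : P.N (u + w) ≤ max (P.N u) (P.N w) := by
  rw [N_le_iff]
  intro k
  exact (P.v.map_add (u k) (w k)).trans (max_le_max (v_le_N P u k) (v_le_N P w k))

theorem N_mulVec_le {M : Matrix ι ι L} (hM : P.Int M) (u : ι → L) : P.N (M *ᵥ u) ≤ P.N u := by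
  rw [N_le_iff]
  intro j
  change P.v (∑ k, M j k * u k) ≤ P.N u
  apply P.v.map_sum_le
  intro k _
  rw [map_mul]
  calc P.v (M j k) * P.v (u k) ≤ 1 * P.N u := mul_le_mul' (hM j k) (v_le_N P u k)
    _ = P.N u := one_mul _

theorem exists_Rv {u : ι → L} (hu : P.N u ≤ 1) : ∃ a, P.Rv u a := by
  have h : ∀ k, ∃ a, P.v (u k - P.i a) < 1 := fun k => P.res _ ((v_le_N P u k).trans hu)
  choose a ha using h
  exact ⟨a, ha⟩

private theorem Vec_i_lt {a : K} (h : P.v (P.i a) < 1) : a = 0 := by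
  by_contra hcon
  rw [v_i_eq P hcon] at h
  exact lt_irrefl _ h

private theorem Vec_i_uniq {x : L} {a b : K} (ha : P.v (x - P.i a) < 1)
    (hb : P.v (x - P.i b) < 1) : a = b := by
  have h : P.v (P.i (a - b)) < 1 := by
    have e : P.i (a - b) = (x - P.i b) - (x - P.i a) := by rw [map_sub]; ring
    rw [e]
    exact P.v.map_sub_lt hb ha
  exact sub_eq_zero.mp (Vec_i_lt P h)

theorem Rv_uniq {u : ι → L} {a b : ι → K} (ha : P.Rv u a) (hb : P.Rv u b) : a = b := by
  funext k
  exact Vec_i_uniq P (ha k) (hb k)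

theorem Rv_le {u : ι → L} {a : ι → K} (ha : P.Rv u a) : P.N u ≤ 1 := by
  rw [N_le_iff]
  intro k
  have e : u k = (u k - P.i (a k)) + P.i (a k) := by ring
  rw [e]
  exact (P.v.map_add _ _).trans (max_le (ha k).le (P.v_i _))

theorem Rv_ne {u : ι → L} {a : ι → K} (ha : P.Rv u a) : a ≠ 0 ↔ P.N u = 1 := by
  constructor
  · intro h0
    apply le_antisymm (Rv_le P ha)
    have h1 : ∃ k, a k ≠ 0 := by
      by_contra hcon
      push Not at hcon
      exact h0 (funext hcon)
    obtain ⟨k, hk⟩ := h1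
    have h2 : P.v (u k) = 1 := by
      have e : u k = (u k - P.i (a k)) + P.i (a k) := by ring
      rw [e, P.v.map_add_eq_of_lt_right ?_]
      · exact v_i_eq P hk
      · rw [v_i_eq P hk]
        exact ha k
    rw [← h2]
    exact v_le_N P u k
  · intro h1 h0
    have hu : u ≠ 0 := by
      intro hu
      rw [(N_eq_zero P u).mpr hu] at h1
      exact zero_ne_one h1
    obtain ⟨k, hk⟩ := exists_N P u hu
    have h2 := ha k
    rw [h0, Pi.zero_apply, map_zero, sub_zero, ← hk, h1] at h2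
    exact lt_irrefl _ h2

theorem Rv_add {u w : ι → L} {a b : ι → K} (ha : P.Rv u a) (hb : P.Rv w b) :
    P.Rv (u + w) (a + b) := by
  intro k
  have e : (u + w) k - P.i ((a + b) k) = (u k - P.i (a k)) + (w k - P.i (b k)) := by
    rw [Pi.add_apply, Pi.add_apply, map_add]; ring
  rw [e]
  exact P.v.map_add_lt (ha k) (hb k)

theorem Rv_zero_of_lt {u : ι → L} (hu : P.N u < 1) : P.Rv u (0 : ι → K) := by
  intro k
  rw [Pi.zero_apply, map_zero, sub_zero]
  exact (v_le_N P u k).trans_lt hu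

theorem exists_prim {u : ι → L} (hu : u ≠ 0) :
    ∃ lam : L, lam ≠ 0 ∧ P.v lam * P.N u = 1 ∧ ∃ a : ι → K, a ≠ 0 ∧ P.Rv (lam • u) a := by
  obtain ⟨k, hk⟩ := exists_N P u hu
  have hN : P.N u ≠ 0 := fun h => hu ((N_eq_zero P u).mp h)
  have hk0 : u k ≠ 0 := by
    intro h
    rw [hk, h, map_zero] at hN
    exact hN rfl
  have h1 : P.v (u k)⁻¹ * P.N u = 1 := by
    rw [hk, ← map_mul, inv_mul_cancel₀ hk0, map_one]
  have h2 : P.N ((u k)⁻¹ • u) = 1 := by rw [N_smul, h1]
  obtain ⟨a, ha⟩ := exists_Rv P h2.le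
  exact ⟨(u k)⁻¹, inv_ne_zero hk0, h1, a, (Rv_ne P ha).mpr h2, ha⟩

theorem Rm_uniq {M : Matrix ι ι L} {N N' : Matrix ι ι K} (h : P.Rm M N) (h' : P.Rm M N') :
    N = N' := by
  funext j k
  exact Vec_i_uniq P (h j k) (h' j k)

theorem Rm_int {M : Matrix ι ι L} {N : Matrix ι ι K} (h : P.Rm M N) : P.Int M := by
  intro j k
  have e : M j k = (M j k - P.i (N j k)) + P.i (N j k) := by ring
  rw [e]
  exact (P.v.map_add _ _).trans (max_le (h j k).le (P.v_i _))

theorem Rm_red {M : Matrix ι ι L} (h : P.Int M) : P.Rm M (P.red M) := by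
  intro j k
  have e : P.red M j k = (P.res _ (h j k)).choose := by
    unfold Place.red
    rw [dif_pos (h j k)]
  rw [e]
  exact (P.res _ (h j k)).choose_spec

theorem Rm_map (N : Matrix ι ι K) : P.Rm (N.map P.i) N := by
  intro j k
  rw [Matrix.map_apply, sub_self, map_zero]
  exact zero_lt_one

theorem Rm_one : P.Rm (1 : Matrix ι ι L) (1 : Matrix ι ι K) := by
  have h := Rm_map P (1 : Matrix ι ι K)
  rwa [Matrix.map_one P.i (map_zero P.i) (map_one P.i)] at h

private theorem Vec_mul_lt {x y : L} {a b : K} (hx : P.v (x - P.i a) < 1)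
    (hy : P.v (y - P.i b) < 1) : P.v (x * y - P.i (a * b)) < 1 := by
  have hx1 : P.v x ≤ 1 := by
    have e : x = (x - P.i a) + P.i a := by ring
    rw [e]
    exact (P.v.map_add _ _).trans (max_le hx.le (P.v_i _))
  have e : x * y - P.i (a * b) = x * (y - P.i b) + (x - P.i a) * P.i b := by
    rw [map_mul]; ring
  rw [e]
  apply P.v.map_add_lt
  · rw [map_mul]
    exact (mul_le_mul_left hx1 _).trans_lt (by rw [one_mul]; exact hy)
  · rw [map_mul]
    exact (mul_le_mul_right (P.v_i b) _).trans_lt (by rw [mul_one]; exact hx)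

private theorem Vec_sum_lt {x : ι → L} {y : ι → L} {a b : ι → K}
    (hx : ∀ k, P.v (x k - P.i (a k)) < 1) (hy : ∀ k, P.v (y k - P.i (b k)) < 1) :
    P.v (∑ k, x k * y k - P.i (∑ k, a k * b k)) < 1 := by
  rw [map_sum, ← Finset.sum_sub_distrib]
  apply P.v.map_sum_lt one_ne_zero
  intro k _
  exact Vec_mul_lt P (hx k) (hy k)

theorem Rm_mul {M M' : Matrix ι ι L} {N N' : Matrix ι ι K} (h : P.Rm M N) (h' : P.Rm M' N') :
    P.Rm (M * M') (N * N') := by
  intro j k
  rw [Matrix.mul_apply, Matrix.mul_apply]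
  exact Vec_sum_lt P (fun l => h j l) (fun l => h' l k)

theorem Rm_pow {M : Matrix ι ι L} {N : Matrix ι ι K} (h : P.Rm M N) (n : ℕ) :
    P.Rm (M ^ n) (N ^ n) := by
  induction n with
  | zero => rw [pow_zero, pow_zero]; exact Rm_one P
  | succ n ih => rw [pow_succ, pow_succ]; exact Rm_mul P ih h

theorem Rm_smul_zero {c : L} (hc : P.v c < 1) {M : Matrix ι ι L} (h : P.Int M) :
    P.Rm (c • M) (0 : Matrix ι ι K) := by
  intro j k
  rw [Matrix.smul_apply, Matrix.zero_apply, map_zero, sub_zero, smul_eq_mul, map_mul]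
  exact (mul_le_mul_right (h j k) _).trans_lt (by rw [mul_one]; exact hc)

theorem Rv_mulVec {M : Matrix ι ι L} {N : Matrix ι ι K} (h : P.Rm M N) {u : ι → L} {a : ι → K}
    (ha : P.Rv u a) : P.Rv (M *ᵥ u) (N *ᵥ a) := by
  intro j
  exact Vec_sum_lt P (fun l => h j l) (fun l => ha l)

/-- if a matrix preserves the norm of `u` then its reduction does not kill the reduction of `u` and
conversely -/
theorem N_mulVec_eq_iff {M : Matrix ι ι L} {N : Matrix ι ι K} (h : P.Rm M N) {u : ι → L} {lam : L}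
    (hl : lam ≠ 0) {a : ι → K} (ha : P.Rv (lam • u) a) (ha0 : a ≠ 0) :
    P.N (M *ᵥ u) = P.N u ↔ N *ᵥ a ≠ 0 := by
  have h1 := Rv_mulVec P h ha
  rw [Matrix.mulVec_smul] at h1
  have h2 := Rv_ne P h1
  have h3 := (Rv_ne P ha).mp ha0
  rw [N_smul] at h2 h3
  rw [h2, ← h3]
  have hv : P.v lam ≠ 0 := (Valuation.ne_zero_iff P.v).mpr hl
  exact ⟨fun e => by rw [e], fun e => mul_left_cancel₀ hv e⟩

theorem Over_finrank_le {E : Submodule L (ι → L)} {D : Submodule K (ι → K)} (h : P.Over E D) :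
    Module.finrank L E ≤ Module.finrank K D := by
  obtain ⟨g, hg⟩ := LinearMap.exists_leftInverse_of_injective D.subtype D.ker_subtype
  let b := Module.finBasis K D
  let Q : Matrix (Fin (Module.finrank K D)) ι K :=
    LinearMap.toMatrix' (b.equivFun.toLinearMap ∘ₗ g)
  have hQ : ∀ a : ι → K, a ∈ D → Q *ᵥ a = 0 → a = 0 := by
    intro a ha h0
    have e : Q *ᵥ a = b.equivFun (g a) := by
      change LinearMap.toMatrix' (b.equivFun.toLinearMap ∘ₗ g) *ᵥ a = _
      rw [LinearMap.toMatrix'_mulVec]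
      rfl
    rw [e] at h0
    have h1 : g a = 0 := by
      rwa [LinearEquiv.map_eq_zero_iff] at h0
    have h2 : g a = ⟨a, ha⟩ := LinearMap.congr_fun hg ⟨a, ha⟩
    rw [h2] at h1
    exact congrArg Subtype.val h1
  let f : E →ₗ[L] (Fin (Module.finrank K D) → L) := (Q.map P.i).mulVecLin ∘ₗ E.subtype
  have hf : Function.Injective f := by
    rw [← LinearMap.ker_eq_bot, LinearMap.ker_eq_bot']
    rintro ⟨u, hu⟩ h0
    by_contra hne
    have hu0 : u ≠ 0 := fun e => hne (by simp [e])
    obtain ⟨lam, hlam, -, a, ha, hR⟩ := exists_prim P hu0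
    have haD : a ∈ D := h _ (E.smul_mem lam hu) a hR
    apply ha
    apply hQ a haD
    have h1 : (Q.map P.i) *ᵥ u = 0 := h0
    funext j
    have h2 : P.v (∑ k, (Q.map P.i) j k * (lam • u) k - P.i (∑ k, Q j k * a k)) < 1 :=
      Vec_sum_lt P (fun k => by
        rw [Matrix.map_apply, sub_self, map_zero]
        exact zero_lt_one) (fun k => hR k)
    have h3 : ∑ k, (Q.map P.i) j k * (lam • u) k = 0 := by
      have h4 : (Q.map P.i) *ᵥ (lam • u) = 0 := by rw [Matrix.mulVec_smul, h1, smul_zero]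
      exact congrFun h4 j
    rw [h3, zero_sub, Valuation.map_neg] at h2
    exact Vec_i_lt P h2
  have h5 := LinearMap.finrank_le_finrank_of_injective hf
  rwa [Module.finrank_fin_fun] at h5

theorem Over_N_mulVec {E : Submodule L (ι → L)} {D : Submodule K (ι → K)} (h : P.Over E D)
    {M : Matrix ι ι L} {N : Matrix ι ι K} (hM : P.Rm M N) (hD : Disjoint D (kr N)) {u : ι → L}
    (hu : u ∈ E) : P.N (M *ᵥ u) = P.N u := by
  by_cases hu0 : u = 0
  · rw [hu0, Matrix.mulVec_zero]
  obtain ⟨lam, hlam, -, a, ha, hR⟩ := exists_prim P hu0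
  have haD : a ∈ D := h _ (E.smul_mem lam hu) a hR
  rw [N_mulVec_eq_iff P hM hlam hR ha]
  intro h0
  apply ha
  have h1 : a ∈ kr N := by
    change a ∈ LinearMap.ker N.mulVecLin
    rw [LinearMap.mem_ker]
    exact h0
  exact (Submodule.disjoint_def.mp hD) a haD h1

/-- if `M` does not preserve the norm of some vector of `E` then its reduction kills a nonzero
vector of `D` -/
theorem Over_meet {E : Submodule L (ι → L)} {D : Submodule K (ι → K)} (h : P.Over E D)
    {M : Matrix ι ι L} {N : Matrix ι ι K} (hM : P.Rm M N) {u : ι → L}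
    (hu : u ∈ E) (hN : P.N (M *ᵥ u) ≠ P.N u) : ¬ Disjoint D (kr N) := by
  intro hD
  exact hN (Over_N_mulVec P h hM hD hu)

theorem Over_orth {E E' : Submodule L (ι → L)} {D D' : Submodule K (ι → K)} (h : P.Over E D)
    (h' : P.Over E' D') (hD : Disjoint D D') {u w : ι → L} (hu : u ∈ E) (hw : w ∈ E') :
    P.N (u + w) = max (P.N u) (P.N w) := by
  have key : ∀ {u w : ι → L}, P.N w < P.N u → P.N (u + w) = P.N u := by
    intro u w hlt
    apply le_antisymm
    · have := N_add_le P u w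
      rwa [max_eq_left hlt.le] at this
    · by_contra hcon
      rw [not_le] at hcon
      have h1 : P.N u ≤ max (P.N (u + w)) (P.N (-w)) := by
        have := N_add_le P (u + w) (-w)
        rwa [add_neg_cancel_right] at this
      rw [N_neg] at h1
      exact absurd h1 (not_le.mpr (max_lt hcon hlt))
  rcases lt_trichotomy (P.N u) (P.N w) with hlt | heq | hgt
  · rw [add_comm, key hlt, max_eq_right hlt.le]
  · by_cases hu0 : u = 0
    · have hw0 : w = 0 := by
        rw [(N_eq_zero P u).mpr hu0] at heq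
        exact (N_eq_zero P w).mp heq.symm
      rw [hu0, hw0, add_zero, max_self]
    obtain ⟨lam, hlam, h1, a, ha, hR⟩ := exists_prim P hu0
    have hw1 : P.N (lam • w) = 1 := by rw [N_smul, ← heq, h1]
    obtain ⟨b, hb⟩ := exists_Rv P hw1.le
    have haD : a ∈ D := h _ (E.smul_mem lam hu) a hR
    have hbD : b ∈ D' := h' _ (E'.smul_mem lam hw) b hb
    have hab : a + b ≠ 0 := by
      intro h0
      apply ha
      have h2 : a = -b := eq_neg_of_add_eq_zero_left h0
      exact (Submodule.disjoint_def.mp hD) a haD (by rw [h2]; exact D'.neg_mem hbD)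
    have h3 := (Rv_ne P (Rv_add P hR hb)).mp hab
    rw [← smul_add, N_smul, ← h1] at h3
    have hv : P.v lam ≠ 0 := (Valuation.ne_zero_iff P.v).mpr hlam
    rw [mul_left_cancel₀ hv h3, ← heq, max_self]
  · rw [key hgt, max_eq_left hgt.le]

theorem Over_disjoint {E E' : Submodule L (ι → L)} {D D' : Submodule K (ι → K)} (h : P.Over E D)
    (h' : P.Over E' D') (hD : Disjoint D D') : Disjoint E E' := by
  rw [Submodule.disjoint_def]
  intro u hu hu'
  have h1 := Over_orth P h h' hD hu (E'.neg_mem hu')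
  rw [add_neg_cancel, N_neg, max_self, (N_eq_zero P (0 : ι → L)).mpr rfl] at h1
  exact (N_eq_zero P u).mp h1.symm

private theorem Vec_exists_int (M : Matrix ι ι L) : ∃ n : ℕ, P.Int (P.T ^ n • M) := by
  have h : ∀ p : ι × ι, ∃ n : ℕ, P.v P.T ^ n * P.v (M p.1 p.2) ≤ 1 := by
    rintro ⟨j, k⟩
    by_cases h0 : M j k = 0
    · exact ⟨0, by simp [h0]⟩
    · obtain ⟨n, hn⟩ := P.arch (M j k)⁻¹ (inv_ne_zero h0)
      refine ⟨n, ?_⟩
      calc P.v P.T ^ n * P.v (M j k) ≤ P.v (M j k)⁻¹ * P.v (M j k) := mul_le_mul_left hn _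
        _ = 1 := by rw [← map_mul, inv_mul_cancel₀ h0, map_one]
  choose n hn using h
  refine ⟨Finset.univ.sup n, ?_⟩
  intro j k
  rw [Matrix.smul_apply, smul_eq_mul, map_mul, map_pow]
  have h1 : n (j, k) ≤ Finset.univ.sup n := Finset.le_sup (Finset.mem_univ (j, k))
  have h2 : P.v P.T ^ Finset.univ.sup n ≤ P.v P.T ^ n (j, k) :=
    pow_le_pow_right_of_le_one' P.T_lt.le h1
  exact (mul_le_mul_left h2 _).trans (hn (j, k))

theorem int_len (M : Matrix ι ι L) : P.Int (P.T ^ P.len M • M) := by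
  exact Nat.sInf_mem (s := {n : ℕ | P.Int (P.T ^ n • M)}) (Vec_exists_int P M)

theorem Rm_lc (M : Matrix ι ι L) : P.Rm (P.T ^ P.len M • M) (P.lc M) := by
  exact Rm_red P (int_len P M)

theorem len_eq {M : Matrix ι ι L} {n : ℕ} {N : Matrix ι ι K} (h : P.Rm (P.T ^ n • M) N)
    (hN : N ≠ 0) : P.len M = n ∧ P.lc M = N := by
  have hle : P.len M ≤ n := Nat.sInf_le (Rm_int P h)
  have hlen : P.len M = n := by
    rcases hle.lt_or_eq with hlt | he
    · exfalso
      apply hN
      have e : P.T ^ n • M = P.T ^ (n - P.len M) • (P.T ^ P.len M • M) := by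
        rw [smul_smul, ← pow_add, Nat.sub_add_cancel hle]
      have hc : P.v (P.T ^ (n - P.len M)) < 1 := by
        rw [map_pow]
        exact pow_lt_one' P.T_lt (Nat.sub_ne_zero_of_lt hlt)
      rw [e] at h
      exact Rm_uniq P h (Rm_smul_zero P hc (int_len P M))
    · exact he
  refine ⟨hlen, ?_⟩
  have h1 := Rm_lc P M
  rw [hlen] at h1
  exact Rm_uniq P h1 h

/-- if `T ^ n • M` reduces to zero and the leading coefficient of `M` is not zero then the length
of `M` is less than `n` -/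
theorem len_lt {M : Matrix ι ι L} {n : ℕ} (h : P.Rm (P.T ^ n • M) (0 : Matrix ι ι K))
    (hM : P.lc M ≠ 0) : P.len M < n := by
  have hle : P.len M ≤ n := Nat.sInf_le (Rm_int P h)
  rcases hle.lt_or_eq with hlt | he
  · exact hlt
  · exfalso
    apply hM
    have h1 := Rm_lc P M
    rw [he] at h1
    exact Rm_uniq P h1 h

/-- a constant matrix has length zero -/
theorem len_map (N : Matrix ι ι K) : P.len (N.map P.i) = 0 ∧ P.lc (N.map P.i) = N := by
  have h0 : P.Rm (P.T ^ 0 • N.map P.i) N := by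
    rw [pow_zero, one_smul]
    exact Rm_map P N
  have hle : P.len (N.map P.i) = 0 := Nat.le_zero.mp (Nat.sInf_le (Rm_int P h0))
  refine ⟨hle, ?_⟩
  have h1 := Rm_lc P (N.map P.i)
  rw [hle] at h1
  exact Rm_uniq P h1 h0

end RLin
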